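import Mathlib

/-!
# MP_80156a_co, local theorem: limits along an ultrafilter
-/

set_option autoImplicit false

namespace Pool.Agent.Work.MP_80156a_loc

open scoped Topology
open Filter

theorem exists_lim_real (U : Ultrafilter ℕ) {x : ℕ → ℝ} {M : ℝ}
    (hx : ∀ᶠ n in (U : Filter ℕ), |x n| ≤ M) : ∃ x0 : ℝ, Tendsto x U (𝓝 x0) ∧ |x0| ≤ M := by
  have h1 : IsCompact (Set.Icc (-M) M) := isCompact_Icc
  have h2 : ((U.map x : Ultrafilter ℝ) : Filter ℝ) ≤ 𝓟 (Set.Icc (-M) M) := by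
    rw [le_principal_iff]
    change ∀ᶠ n in (U : Filter ℕ), x n ∈ Set.Icc (-M) M
    filter_upwards [hx] with n hn
    exact abs_le.1 hn
  obtain ⟨x0, h3, h4⟩ := h1.ultrafilter_le_nhds (U.map x) h2
  exact ⟨x0, h4, abs_le.2 h3⟩

theorem exists_lim {ι : Type*} [Finite ι] (U : Ultrafilter ℕ) {x : ℕ → ι → ℝ} {M : ℝ}
    (hx : ∀ᶠ n in (U : Filter ℕ), ∀ i, |x n i| ≤ M) :
    ∃ x0 : ι → ℝ, Tendsto x U (𝓝 x0) ∧ ∀ i, |x0 i| ≤ M := by
  have h1 : ∀ i, ∃ x0 : ℝ, Tendsto (fun n => x n i) U (𝓝 x0) ∧ |x0| ≤ M := fun i =>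
    exists_lim_real U (by filter_upwards [hx] with n hn using hn i)
  choose x0 h2 h3 using h1
  exact ⟨x0, tendsto_pi_nhds.2 h2, h3⟩

theorem finite_choice (U : Ultrafilter ℕ) {α : Type*} (S : Finset α) {P : ℕ → α → Prop}
    (hP : ∀ᶠ n in (U : Filter ℕ), ∃ a ∈ S, P n a) :
    ∃ a ∈ S, ∀ᶠ n in (U : Filter ℕ), P n a := by
  classical
  induction S using Finset.induction_on with
  | empty =>
    exfalso
    have : ∀ᶠ _ in (U : Filter ℕ), False := by
      filter_upwards [hP] with n hn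
      obtain ⟨a, ha, -⟩ := hn
      exact absurd ha (Finset.notMem_empty a)
    exact U.neBot.ne (Filter.eventually_false_iff_eq_bot.1 this)
  | insert b S _ ih =>
    have h1 : ∀ᶠ n in (U : Filter ℕ), P n b ∨ ∃ a ∈ S, P n a := by
      filter_upwards [hP] with n hn
      obtain ⟨a, ha, h2⟩ := hn
      rcases Finset.mem_insert.1 ha with rfl | ha
      · exact Or.inl h2
      · exact Or.inr ⟨a, ha, h2⟩
    rcases Ultrafilter.eventually_or.1 h1 with h2 | h2
    · exact ⟨b, Finset.mem_insert_self b S, h2⟩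
    · obtain ⟨a, ha, h3⟩ := ih h2
      exact ⟨a, Finset.mem_insert_of_mem ha, h3⟩

/-- the dichotomy -/
theorem eventually_or_not (U : Ultrafilter ℕ) (P : ℕ → Prop) :
    (∀ᶠ n in (U : Filter ℕ), P n) ∨ ∀ᶠ n in (U : Filter ℕ), ¬ P n := by
  rw [← Ultrafilter.eventually_or]
  exact Filter.Eventually.of_forall fun n => em (P n)

end Pool.Agent.Work.MP_80156a_loc
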