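import Pool.Agent.Work.MP_80156a_loc.Interface
import Pool.Agent.Work.MP_80156a_loc.Ult

/-!
# MP_80156a_co, local theorem: block CASEA (helper74)
-/

set_option autoImplicit false

namespace Pool.Agent.Work.MP_80156a_loc.CASEAns

open Pool.Agent.Work.MP_80156a_co
open Pool.Agent.Work.MP_80156a_loc
open scoped Topology
open Filter

/-- the intersection does not depend on the decidability instance -/
theorem inter_inst {ι : Type} (i1 i2 : DecidableEq ι) (s t : Finset ι) :
    @Inter.inter (Finset ι) (@Finset.instInter ι i1) s t =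
      @Inter.inter (Finset ι) (@Finset.instInter ι i2) s t := by
  apply Finset.ext
  intro x
  rw [@Finset.mem_inter ι i1, @Finset.mem_inter ι i2]

/-- a family of sets of directions which lights every convergent sequence lights the bodies -/
theorem litBy_of_seq {ι : Type} [Fintype ι] [DecidableEq ι] {U : Ultrafilter ℕ} {h : ℕ}
    {K : ℕ → Set (ι → ℝ)} {δ : ℕ → ℝ} (hS : Sys U h K δ) (N : ℕ) (L : ℕ → Finset (ι → ℝ))
    (hL : ∀ n, (L n).card ≤ N)
    (hlit : ∀ (x : ℕ → ι → ℝ) (x0 : ι → ℝ), (∀ n, x n ∈ K n) → Tendsto x U (𝓝 x0) →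
      (∀ i, |x0 i| ≤ 1) → ∀ᶠ n in (U : Filter ℕ), ∃ v ∈ L n, Lit (K n) (x n) v) :
    ∀ᶠ n in (U : Filter ℕ), LitBy (K n) N := by
  rcases eventually_or_not U (fun n => LitBy (K n) N) with h1 | h1
  · exact h1
  exfalso
  have h0 : ∀ n, (0 : ι → ℝ) ∈ K n := fun n => hS.inside n 0 fun i => by
    rw [Pi.zero_apply, abs_zero]
    have := hS.lt_one n
    linarith
  have h2 : ∀ n, ∃ z, z ∈ K n ∧ (¬ LitBy (K n) N → ∀ v ∈ L n, ¬ Lit (K n) z v) := by
    intro n
    by_cases hn : LitBy (K n) N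
    · exact ⟨0, h0 n, fun h => absurd hn h⟩
    · have : ∃ z ∈ K n, ∀ v ∈ L n, ¬ Lit (K n) z v := by
        by_contra hcon
        push Not at hcon
        exact hn ⟨L n, hL n, hcon⟩
      obtain ⟨z, hz, hz2⟩ := this
      exact ⟨z, hz, fun _ => hz2⟩
  choose x hx hx2 using h2
  obtain ⟨x0, h3, h4⟩ := exists_lim U (x := x) (M := 1)
    (Filter.Eventually.of_forall fun n i => hS.outside n _ (hx n) i)
  have h5 := hlit x x0 hx h3 h4
  have h6 : ∀ᶠ _ in (U : Filter ℕ), False := by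
    filter_upwards [h1, h5] with n hn hn2
    obtain ⟨v, hv, hv2⟩ := hn2
    exact hx2 n hn v hv hv2
  exact U.neBot.ne (Filter.eventually_false_iff_eq_bot.1 h6)

end Pool.Agent.Work.MP_80156a_loc.CASEAns

namespace Pool.Agent.Work.MP_80156a_loc

open Pool.Agent.Work.MP_80156a_co
open scoped Topology
open Filter

open scoped Classical in
theorem blk_CASEA (hSIMPLE : Stmt_SIMPLE) (hSLICE : Stmt_SLICE) (hCOMB : Stmt_COMB)
    (hCHOICE : Stmt_CHOICE) (hMERGED : Stmt_MERGED) : Stmt_CASEA := by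
  intro ι _ _ U h K δ hS i hex
  obtain ⟨hiV, hslice, hsmall⟩ := hSLICE ι U h K δ hS i
  obtain ⟨C, hCV, hcount, hpar, hCrel⟩ := hCOMB ι U h K δ hS i hex
  set V := Used U K δ i with hV
  -- the data of a member of `C`
  have hdata : ∀ B : Finset ι, ∃ (θ : ℝ) (y : ι → ℝ), B ∈ C → 0 < θ ∧
      (∀ x, Cl i x → (∀ k ∈ V, x k = vert B k) →
        Phi U K δ i 1 x + Phi U K δ i (-1) x = θ) ∧ Op i y ∧
      ∀ x, Cl i x → (∀ k ∈ V, x k = y k) →
        Phi U K δ i 1 x + Phi U K δ i (-1) x < θ / 100 := by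
    intro B
    by_cases hB : B ∈ C
    · obtain ⟨θ, hθ, h1⟩ := hslice B (hCrel B hB)
      obtain ⟨y, hy, h2⟩ := hsmall (θ / 100) (by positivity)
      exact ⟨θ, y, fun _ => ⟨hθ, h1, hy, h2⟩⟩
    · exact ⟨0, 0, fun h => absurd h hB⟩
  choose θ y hθy using hdata
  have hdata2 : ∀ s : Finset ι, ∃ a : ℝ, s ∩ V ∈ C → ∀ x, Cl i x →
      (∀ k ∈ V, x k = vert (s ∩ V) k) → (∀ k, k ∉ V → k ≠ i → 0 ≤ x k * vert s k) →
      a ≤ Phi U K δ i 1 x - θ (s ∩ V) / 8 ∧ θ (s ∩ V) / 8 - Phi U K δ i (-1) x ≤ a := by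
    intro s
    by_cases hB : s ∩ V ∈ C
    · obtain ⟨h1, h2, -, -⟩ := hθy _ hB
      obtain ⟨a, ha⟩ := hCHOICE ι U h K δ hS i V (s ∩ V) (θ (s ∩ V)) h1 h2 s
      exact ⟨a, fun _ => ha⟩
    · exact ⟨0, fun h => absurd h hB⟩
  choose a ha using hdata2
  set D : ℕ → Finset ι → (ι → ℝ) := fun n s =>
    if s ∩ V ∈ C then (fun k =>
      if k = i then δ n * a s else if k ∈ V then y (s ∩ V) k - vert (s ∩ V) k
        else -vert s k / 2)
    else -vert s with hD
  have hmem : ∀ s : Finset ι, ¬ (s ∩ V ∈ C ∧ ({i} : Finset ι) ⊆ s) → ∀ n,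
      D n s ∈ ((Finset.univ : Finset (Finset ι)).filter fun s =>
        ¬ (s ∩ V ∈ C ∧ ({i} : Finset ι) ⊆ s)).image (D n) := by
    intro s hs n
    refine Finset.mem_image_of_mem _ ?_
    rw [Finset.mem_filter]
    exact ⟨Finset.mem_univ _, hs⟩
  refine CASEAns.litBy_of_seq hS _ (fun n =>
    ((Finset.univ : Finset (Finset ι)).filter fun s =>
        ¬ (s ∩ V ∈ C ∧ ({i} : Finset ι) ⊆ s)).image (D n)) (fun n => ?_) ?_
  · refine final_count (V := V) (S := {i}) (Finset.disjoint_singleton_right.2 hiV) hCV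
      (by rw [Finset.card_singleton]; exact hcount) ?_
    refine Finset.card_image_le.trans (le_of_eq ?_)
    congr 1
    ext s
    simp only [Finset.mem_filter]
    constructor
    · rintro ⟨h1, h2⟩
      refine ⟨h1, fun h3 => h2 ⟨?_, h3.2⟩⟩
      rw [CASEAns.inter_inst]
      exact h3.1
    · rintro ⟨h1, h2⟩
      refine ⟨h1, fun h3 => h2 ⟨?_, h3.2⟩⟩
      rw [CASEAns.inter_inst] 
      exact h3.1
  intro x x0 hx hlim hx0
  by_cases hcase : ∃ t : Finset ι, (∀ k, (x0 k = 1 → k ∈ t) ∧ (x0 k = -1 → k ∉ t)) ∧ t ∩ V ∉ C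
  · obtain ⟨t, ht, htC⟩ := hcase
    have h1 := hSIMPLE ι U h K δ hS x x0 hx hlim t ht
    filter_upwards [h1] with n hn
    refine ⟨_, hmem t (fun h2 => htC h2.1) n, ?_⟩
    rw [hD]
    simp only [htC, if_false]
    exact hn
  · push Not at hcase
    set t0 : Finset ι := Finset.univ.filter fun k => 0 ≤ x0 k with ht0
    have ht0mem : ∀ k, k ∈ t0 ↔ 0 ≤ x0 k := fun k => by
      rw [ht0, Finset.mem_filter]; simp
    have hcompat : ∀ k, (x0 k = 1 → k ∈ t0) ∧ (x0 k = -1 → k ∉ t0) := by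
      intro k
      rw [ht0mem k]
      constructor
      · intro h1; rw [h1]; norm_num
      · intro h1; rw [h1]; norm_num
    have hB : t0 ∩ V ∈ C := hcase t0 hcompat
    have hvert : ∀ k ∈ V, x0 k = vert (t0 ∩ V) k := by
      intro k hk
      by_cases h1 : x0 k = 1
      · have h2 : k ∈ t0 ∩ V := Finset.mem_inter.2 ⟨(hcompat k).1 h1, hk⟩
        rw [h1, vert, if_pos h2]
      by_cases h2 : x0 k = -1
      · have h3 : k ∉ t0 ∩ V := fun h => (hcompat k).2 h2 (Finset.mem_inter.1 h).1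
        rw [h2, vert, if_neg h3]
      exfalso
      -- flip `k`
      set t : Finset ι := if k ∈ t0 then t0.erase k else insert k t0 with ht
      have ht1 : ∀ l, l ≠ k → (l ∈ t ↔ l ∈ t0) := by
        intro l hl
        rw [ht]
        split_ifs with h3
        · rw [Finset.mem_erase]; tauto
        · rw [Finset.mem_insert]; tauto
      have ht2 : k ∈ t ↔ k ∉ t0 := by
        rw [ht]
        split_ifs with h3
        · rw [Finset.mem_erase]; tauto
        · rw [Finset.mem_insert]; tauto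
      have ht3 : ∀ l, (x0 l = 1 → l ∈ t) ∧ (x0 l = -1 → l ∉ t) := by
        intro l
        by_cases hl : l = k
        · rw [hl]
          exact ⟨fun h3 => absurd h3 h1, fun h3 => absurd h3 h2⟩
        · rw [ht1 l hl]
          exact hcompat l
      have h4 := hcase t ht3
      refine hpar _ hB k hk (t ∩ V) Finset.inter_subset_right ?_ ?_ h4
      · intro l hl
        rw [Finset.mem_inter, Finset.mem_inter, ht1 l hl]
      · rw [Finset.mem_inter, Finset.mem_inter, ht2]
        tauto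
    set s : Finset ι := t0.erase i with hs
    have hsV : s ∩ V = t0 ∩ V := by
      ext k
      rw [Finset.mem_inter, Finset.mem_inter, hs, Finset.mem_erase]
      constructor
      · rintro ⟨⟨-, h1⟩, h2⟩
        exact ⟨h1, h2⟩
      · rintro ⟨h1, h2⟩
        refine ⟨⟨fun h3 => ?_, h1⟩, h2⟩
        rw [h3] at h2
        exact hiV h2
    have hsC : s ∩ V ∈ C := by rw [hsV]; exact hB
    have his : i ∉ s := by rw [hs]; exact Finset.notMem_erase i t0
    obtain ⟨k1, -, k3, k4⟩ := hθy _ hsC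
    have h1 := hMERGED ι U h K δ hS i V (s ∩ V) s hiV (θ (s ∩ V)) (a s) k1 (ha s hsC)
      (y (s ∩ V)) k3 k4 x x0 hx hlim (fun k hk => by rw [hsV]; exact hvert k hk)
      (fun k _ hki => by
        by_cases h2 : k ∈ s
        · have h3 : 0 ≤ x0 k := by
            rw [hs, Finset.mem_erase] at h2
            exact (ht0mem k).1 h2.2
          rw [vert, if_pos h2, mul_one]
          exact h3
        · have h3 : x0 k < 0 := by
            rw [hs, Finset.mem_erase] at h2
            rw [← not_le, ← ht0mem k]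
            exact fun h4 => h2 ⟨hki, h4⟩
          rw [vert, if_neg h2]
          linarith)
    filter_upwards [h1] with n hn
    refine ⟨_, hmem s (fun h2 => his (h2.2 (Finset.mem_singleton_self i))) n, ?_⟩
    rw [hD]
    simp only [hsC, if_true]
    exact hn

end Pool.Agent.Work.MP_80156a_loc
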