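import Pool.Agent.Work.MP_80156a_loc.Interface
import Pool.Agent.Work.MP_80156a_loc.Ult

/-!
# MP_80156a_co, local theorem: block CASEB (helper74)
-/

set_option autoImplicit false

namespace Pool.Agent.Work.MP_80156a_loc.CASEBns

open Pool.Agent.Work.MP_80156a_co
open Pool.Agent.Work.MP_80156a_loc
open scoped Topology
open Filter

/-- a family of sets of directions which lights every convergent sequence lights the bodies -/
theorem litBy_of_seq {ι : Type} [Fintype ι] [DecidableEq ι] {U : Ultrafilter ℕ} {h : ℕ}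
    {K : ℕ → Set (ι → ℝ)} {δ : ℕ → ℝ} (hS : Sys U h K δ) (N : ℕ) (L : ℕ → Finset (ι → ℝ))
    (hL : ∀ n, (L n).card ≤ N)
    (hlit : ∀ (x : ℕ → ι → ℝ) (x0 : ι → ℝ), (∀ n, x n ∈ K n) → Tendsto x U (𝓝 x0) →
      (∀ i, |x0 i| ≤ 1) → ∀ᶠ n in (U : Filter ℕ), ∃ v ∈ L n, Lit (K n) (x n) v) :
    ∀ᶠ n in (U : Filter ℕ), LitBy (K n) N := by
  rcases eventually_or_not U (fun n => LitBy (K n) N) with h1 | h1
  · exact h1
  exfalso
  have h0 : ∀ n, (0 : ι → ℝ) ∈ K n := fun n => hS.inside n 0 fun i => by
    rw [Pi.zero_apply, abs_zero]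
    have := hS.lt_one n
    linarith
  have h2 : ∀ n, ∃ z, z ∈ K n ∧ (¬ LitBy (K n) N → ∀ v ∈ L n, ¬ Lit (K n) z v) := by
    intro n
    by_cases hn : LitBy (K n) N
    · exact ⟨0, h0 n, fun h => absurd hn h⟩
    · have : ∃ z ∈ K n, ∀ v ∈ L n, ¬ Lit (K n) z v := by
        by_contra hcon
        push Not at hcon
        exact hn ⟨L n, hL n, hcon⟩
      obtain ⟨z, hz, hz2⟩ := this
      exact ⟨z, hz, fun _ => hz2⟩
  choose x hx hx2 using h2
  obtain ⟨x0, h3, h4⟩ := exists_lim U (x := x) (M := 1)
    (Filter.Eventually.of_forall fun n i => hS.outside n _ (hx n) i)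
  have h5 := hlit x x0 hx h3 h4
  have h6 : ∀ᶠ _ in (U : Filter ℕ), False := by
    filter_upwards [h1, h5] with n hn hn2
    obtain ⟨v, hv, hv2⟩ := hn2
    exact hx2 n hn v hv hv2
  exact U.neBot.ne (Filter.eventually_false_iff_eq_bot.1 h6)

/-- the coordinates of `T` where `t` and `s` differ -/
def dis {ι : Type} [DecidableEq ι] (T s t : Finset ι) : Finset ι :=
  T.filter fun k => ¬ (k ∈ t ↔ k ∈ s)

open scoped Classical in
/-- the direction for the pattern `t` -/
noncomputable def dir {ι : Type} [DecidableEq ι] (T s : Finset ι) (d : ℝ) (t : Finset ι) :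
    ι → ℝ :=
  if hh : ∃ j, dis T s t = {j} then
    fun k => if k = hh.choose then d / 2 * vert s hh.choose else -vert t k
  else -vert t

theorem dir_single {ι : Type} [DecidableEq ι] (T s : Finset ι) (d : ℝ) (t : Finset ι) (j : ι)
    (hj : dis T s t = {j}) :
    dir T s d t = fun k => if k = j then d / 2 * vert s j else -vert t k := by
  have hh : ∃ j, dis T s t = {j} := ⟨j, hj⟩
  have h1 : hh.choose = j := by
    exact Finset.singleton_injective (hh.choose_spec.symm.trans hj)
  rw [dir, dif_pos hh, h1]

theorem dir_many {ι : Type} [DecidableEq ι] (T s : Finset ι) (d : ℝ) (t : Finset ι)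
    (hj : 2 ≤ (dis T s t).card) : dir T s d t = -vert t := by
  rw [dir, dif_neg]
  rintro ⟨j, h⟩
  rw [h, Finset.card_singleton] at hj
  omega

theorem count {ι : Type} [Fintype ι] [DecidableEq ι] (T s : Finset ι) (h : ℕ) (hT : T.card ≤ h) :
    ((Finset.univ : Finset (Finset ι)).filter fun t => dis T s t ≠ ∅).card ≤
      2 ^ Fintype.card ι - 2 ^ (Fintype.card ι - h) := by
  have h1 := card_cube (Finset.univ : Finset ι) T (s ∩ T) (Finset.subset_univ _)
    Finset.inter_subset_right
  have h2 : ((Finset.univ : Finset ι).powerset.filter fun B => B ∩ T = s ∩ T) =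
      (Finset.univ : Finset (Finset ι)).filter fun t => ¬ dis T s t ≠ ∅ := by
    ext t
    simp only [Finset.mem_filter, Finset.powerset_univ, Finset.mem_univ, true_and, ne_eq,
      not_not]
    rw [Finset.eq_empty_iff_forall_notMem, Finset.ext_iff]
    refine forall_congr' fun k => ?_
    simp only [dis, Finset.mem_filter, Finset.mem_inter]
    tauto
  rw [h2] at h1
  have h3 := Finset.card_filter_add_card_filter_not (s := (Finset.univ : Finset (Finset ι)))
    (fun t => dis T s t ≠ ∅)
  rw [Finset.card_univ, Fintype.card_finset] at h3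
  rw [Finset.card_univ] at h1
  have hTd : T.card ≤ Fintype.card ι := by
    rw [← Finset.card_univ]; exact Finset.card_le_card (Finset.subset_univ _)
  set R := ((Finset.univ : Finset (Finset ι)).filter fun t => ¬ dis T s t ≠ ∅).card with hR
  have h4 : R = 2 ^ (Fintype.card ι - T.card) := by
    have h5 : (2 : ℕ) ^ Fintype.card ι = 2 ^ (Fintype.card ι - T.card) * 2 ^ T.card := by
      rw [← pow_add, Nat.sub_add_cancel hTd]
    rw [h5] at h1
    exact Nat.eq_of_mul_eq_mul_right (by positivity) h1
  have h5 : (2 : ℕ) ^ (Fintype.card ι - h) ≤ 2 ^ (Fintype.card ι - T.card) :=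
    Nat.pow_le_pow_right (by norm_num) (by omega)
  omega

end Pool.Agent.Work.MP_80156a_loc.CASEBns

namespace Pool.Agent.Work.MP_80156a_loc

open Pool.Agent.Work.MP_80156a_co
open scoped Topology
open Filter

open scoped Classical in
theorem blk_CASEB (hSIMPLE : Stmt_SIMPLE) (hCUT : Stmt_CUT) (hPERT : Stmt_PERT) :
    Stmt_CASEB := by
  intro ι _ _ U h K δ hS hR
  obtain ⟨s, T, hT, hcut⟩ := hCUT ι U h K δ hS hR
  refine CASEBns.litBy_of_seq hS _ (fun n =>
    ((Finset.univ : Finset (Finset ι)).filter fun t => CASEBns.dis T s t ≠ ∅).image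
      (CASEBns.dir T s (δ n))) (fun n => Finset.card_image_le.trans ?_) ?_
  · refine (Finset.card_le_card (fun t ht => ?_)).trans (CASEBns.count T s h hT)
    rw [Finset.mem_filter] at ht ⊢
    exact ht
  intro x x0 hx hlim _
  have hv : ∀ k, vert s k = 1 ∨ vert s k = -1 := fun k => by
    unfold vert
    split_ifs
    · exact Or.inl rfl
    · exact Or.inr rfl
  have hvs : ∀ k, vert s k = 1 ↔ k ∈ s := fun k => by
    unfold vert
    split_ifs with h1
    · simp [h1]
    · simp only [h1, iff_false]; norm_num
  have hvs' : ∀ k, vert s k = -1 ↔ k ∉ s := fun k => by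
    unfold vert
    split_ifs with h1
    · simp only [h1, not_true_eq_false, iff_false]; norm_num
    · simp [h1]
  -- a compatible pattern
  set t0 : Finset ι := Finset.univ.filter fun k =>
    if k ∈ T then (if x0 k = vert s k then k ∈ s else k ∉ s) else x0 k = 1 with ht0
  have ht0mem : ∀ k, k ∈ t0 ↔
      (if k ∈ T then (if x0 k = vert s k then k ∈ s else k ∉ s) else x0 k = 1) := fun k => by
    rw [ht0, Finset.mem_filter]; simp
  have hcompat : ∀ k, (x0 k = 1 → k ∈ t0) ∧ (x0 k = -1 → k ∉ t0) := by
    intro k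
    rw [ht0mem k]
    constructor
    · intro h1
      split_ifs with h2 h3
      · rw [h1] at h3
        exact (hvs k).1 h3.symm
      · rw [h1] at h3
        exact fun h4 => h3 ((hvs k).2 h4).symm
      · exact h1
    · intro h1
      split_ifs with h2 h3
      · rw [h1] at h3
        exact (hvs' k).1 h3.symm
      · rw [h1] at h3
        rw [not_not]
        by_contra h4
        exact h3 ((hvs' k).2 h4).symm
      · rw [h1]; norm_num
  have hdis0 : CASEBns.dis T s t0 = T.filter fun k => x0 k ≠ vert s k := by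
    ext k
    simp only [CASEBns.dis, Finset.mem_filter]
    constructor
    · rintro ⟨h1, h2⟩
      refine ⟨h1, fun h3 => h2 ?_⟩
      rw [ht0mem k, if_pos h1, if_pos h3]
    · rintro ⟨h1, h2⟩
      refine ⟨h1, fun h3 => ?_⟩
      rw [ht0mem k, if_pos h1, if_neg h2] at h3
      tauto
  -- membership of the directions
  have hmem : ∀ t : Finset ι, CASEBns.dis T s t ≠ ∅ → ∀ n,
      CASEBns.dir T s (δ n) t ∈ ((Finset.univ : Finset (Finset ι)).filter fun t =>
        CASEBns.dis T s t ≠ ∅).image (CASEBns.dir T s (δ n)) := by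
    intro t ht n
    refine Finset.mem_image_of_mem _ ?_
    rw [Finset.mem_filter]
    exact ⟨Finset.mem_univ _, ht⟩
  rcases Nat.lt_or_ge 1 (CASEBns.dis T s t0).card with hc | hc
  · -- at least two
    have h1 := hSIMPLE ι U h K δ hS x x0 hx hlim t0 hcompat
    filter_upwards [h1] with n hn
    refine ⟨_, hmem t0 (fun h2 => ?_) n, ?_⟩
    · rw [h2, Finset.card_empty] at hc
      omega
    · rw [CASEBns.dir_many T s (δ n) t0 hc]
      exact hn
  · rcases Nat.lt_or_ge 0 (CASEBns.dis T s t0).card with hc2 | hc2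
    · -- exactly one
      have hc1 : (CASEBns.dis T s t0).card = 1 := by omega
      obtain ⟨j, hj⟩ := Finset.card_eq_one.1 hc1
      have hj2 : x0 j ≠ vert s j := by
        have : j ∈ CASEBns.dis T s t0 := by rw [hj]; exact Finset.mem_singleton_self j
        rw [hdis0, Finset.mem_filter] at this
        exact this.2
      have h1 := hPERT ι U h K δ hS hR x x0 hx hlim t0 j (vert s j) (hv j)
        (fun k _ => hcompat k) (fun h2 => absurd h2 hj2)
      filter_upwards [h1] with n hn
      refine ⟨_, hmem t0 (fun h2 => ?_) n, ?_⟩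
      · rw [h2, Finset.card_empty] at hc1
        omega
      · rw [CASEBns.dir_single T s (δ n) t0 j hj]
        exact hn
    · -- none
      have hE : CASEBns.dis T s t0 = ∅ := Finset.card_eq_zero.1 (by omega)
      have h1 : ∀ᶠ n in (U : Filter ℕ), ∃ j ∈ T, 3 / 4 * δ n ≤ 1 - vert s j * x n j := by
        filter_upwards [hcut] with n hn
        exact hn (x n) (hx n)
      obtain ⟨j, hjT, hj⟩ := finite_choice U T h1
      -- flip `j`
      set t : Finset ι := if j ∈ t0 then t0.erase j else insert j t0 with ht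
      have ht1 : ∀ k, k ≠ j → (k ∈ t ↔ k ∈ t0) := by
        intro k hk
        rw [ht]
        split_ifs with h2
        · rw [Finset.mem_erase]; tauto
        · rw [Finset.mem_insert]; tauto
      have ht2 : j ∈ t ↔ j ∉ t0 := by
        rw [ht]
        split_ifs with h2
        · rw [Finset.mem_erase]; tauto
        · rw [Finset.mem_insert]; tauto
      have hnot : ∀ k ∈ T, (k ∈ t0 ↔ k ∈ s) := by
        intro k hk
        by_contra h2
        have : k ∈ CASEBns.dis T s t0 := Finset.mem_filter.2 ⟨hk, h2⟩
        rw [hE] at this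
        exact absurd this (Finset.notMem_empty k)
      have hdis : CASEBns.dis T s t = {j} := by
        ext k
        rw [Finset.mem_singleton, CASEBns.dis, Finset.mem_filter]
        constructor
        · rintro ⟨h2, h3⟩
          by_contra h4
          rw [ht1 k h4] at h3
          exact h3 (hnot k h2)
        · rintro rfl
          refine ⟨hjT, fun h2 => ?_⟩
          rw [ht2, hnot k hjT] at h2
          tauto
      have h2 := hPERT ι U h K δ hS hR x x0 hx hlim t j (vert s j) (hv j)
        (fun k hk => by rw [ht1 k hk]; exact hcompat k) (fun _ => hj)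
      filter_upwards [h2] with n hn
      refine ⟨_, hmem t (by rw [hdis]; exact Finset.singleton_ne_empty j) n, ?_⟩
      rw [CASEBns.dir_single T s (δ n) t j hdis]
      exact hn

end Pool.Agent.Work.MP_80156a_loc
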