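import Pool.Agent.Work.MP_80156a_loc.Interface

/-!
# Block CHOICE: choice of the shift on a slice
-/

set_option autoImplicit false

namespace Pool.Agent.Work.MP_80156a_loc

open Pool.Agent.Work.MP_80156a_co
open scoped Topology
open Filter

theorem blk_CHOICE (hP : Stmt_PHI1) : Stmt_CHOICE := by
  intro ι _ _ U h K δ hS i V B θ hθ hsum t
  obtain ⟨-, -, -, hpos, -, hconv⟩ := hP ι U h K δ hS i 1 (Or.inl rfl)
  obtain ⟨-, -, -, hpos', -, hconv'⟩ := hP ι U h K δ hS i (-1) (Or.inr rfl)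
  set F : (ι → ℝ) → ℝ := Phi U K δ i 1 with hF
  set F' : (ι → ℝ) → ℝ := Phi U K δ i (-1) with hF'
  -- the slice
  have hmid : ∀ x y : ι → ℝ, Cl i x → Cl i y → (∀ k ∈ V, x k = vert B k) →
      (∀ k ∈ V, y k = vert B k) →
      2 * F ((1 / 2 : ℝ) • x + (1 / 2 : ℝ) • y) = F x + F y := by
    intro x y hx hy hxV hyV
    have h1 := hconv x y (1 / 2) (1 / 2) hx hy (by norm_num) (by norm_num) (by norm_num)
    have h2 := hconv' x y (1 / 2) (1 / 2) hx hy (by norm_num) (by norm_num) (by norm_num)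
    have hm : Cl i ((1 / 2 : ℝ) • x + (1 / 2 : ℝ) • y) := by
      intro k hk
      have a1 := abs_le.1 (hx k hk)
      have a2 := abs_le.1 (hy k hk)
      simp only [Pi.add_apply, Pi.smul_apply, smul_eq_mul]
      rw [abs_le]
      constructor <;> linarith [a1.1, a1.2, a2.1, a2.2]
    have hmV : ∀ k ∈ V, ((1 / 2 : ℝ) • x + (1 / 2 : ℝ) • y) k = vert B k := by
      intro k hk
      simp only [Pi.add_apply, Pi.smul_apply, smul_eq_mul]
      rw [hxV k hk, hyV k hk]; ring
    have s1 := hsum x hx hxV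
    have s2 := hsum y hy hyV
    have s3 := hsum _ hm hmV
    linarith
  set c0 : ι → ℝ := fun k => if k ∈ V then vert B k else 0 with hc0
  have hc0V : ∀ k ∈ V, c0 k = vert B k := fun k hk => by simp [hc0, hk]
  have hc0n : ∀ k, k ∉ V → c0 k = 0 := fun k hk => by simp [hc0, hk]
  have habs : ∀ (s : Finset ι) (k : ι), |vert s k| = 1 := by
    intro s k
    unfold vert
    split_ifs <;> simp
  have hc0C : Cl i c0 := by
    intro k _
    by_cases hk : k ∈ V
    · rw [hc0V k hk, habs]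
    · rw [hc0n k hk]; simp
  -- comparison
  have hcmp : ∀ p q : ι → ℝ, Cl i p → (∀ k ∈ V, p k = vert B k) →
      (∀ k, k ∉ V → k ≠ i → 0 ≤ p k * vert t k) → Cl i q → (∀ k ∈ V, q k = vert B k) →
      (∀ k, k ∉ V → k ≠ i → 0 ≤ q k * vert t k) → F q - F p ≤ θ / 2 := by
    intro p q hp hpV hpt hq hqV hqt
    have hpq : ∀ k, k ∉ V → k ≠ i → |q k - p k| ≤ 1 := by
      intro k hkV hki
      have b1 := hpt k hkV hki
      have b2 := hqt k hkV hki
      have a1 := abs_le.1 (hp k hki)
      have a2 := abs_le.1 (hq k hki)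
      unfold vert at b1 b2
      rw [abs_le]
      split_ifs at b1 b2 with hkt
      · constructor <;> linarith [a1.1, a1.2, a2.1, a2.2]
      · constructor <;> linarith [a1.1, a1.2, a2.1, a2.2]
    have heC : Cl i (q - p + c0) := by
      intro k hk
      by_cases hkV : k ∈ V
      · simp only [Pi.add_apply, Pi.sub_apply]
        rw [hqV k hkV, hpV k hkV, hc0V k hkV, sub_self, zero_add, habs]
      · simp only [Pi.add_apply, Pi.sub_apply]
        rw [hc0n k hkV, add_zero]
        exact hpq k hkV hk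
    have heC' : Cl i (p - q + c0) := by
      intro k hk
      by_cases hkV : k ∈ V
      · simp only [Pi.add_apply, Pi.sub_apply]
        rw [hqV k hkV, hpV k hkV, hc0V k hkV, sub_self, zero_add, habs]
      · simp only [Pi.add_apply, Pi.sub_apply]
        rw [hc0n k hkV, add_zero, abs_sub_comm]
        exact hpq k hkV hk
    have heV : ∀ k ∈ V, (q - p + c0) k = vert B k := by
      intro k hkV
      simp only [Pi.add_apply, Pi.sub_apply]
      rw [hqV k hkV, hpV k hkV, hc0V k hkV]; ring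
    have heV' : ∀ k ∈ V, (p - q + c0) k = vert B k := by
      intro k hkV
      simp only [Pi.add_apply, Pi.sub_apply]
      rw [hqV k hkV, hpV k hkV, hc0V k hkV]; ring
    have m1 := hmid q c0 hq hc0C hqV hc0V
    have m2 := hmid p (q - p + c0) hp heC hpV heV
    have m3 := hmid (q - p + c0) (p - q + c0) heC heC' heV heV'
    have e1 : (1 / 2 : ℝ) • q + (1 / 2 : ℝ) • c0 =
        (1 / 2 : ℝ) • p + (1 / 2 : ℝ) • (q - p + c0) := by
      funext k
      simp only [Pi.add_apply, Pi.smul_apply, Pi.sub_apply, smul_eq_mul]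
      ring
    have e2 : (1 / 2 : ℝ) • (q - p + c0) + (1 / 2 : ℝ) • (p - q + c0) = c0 := by
      funext k
      simp only [Pi.add_apply, Pi.smul_apply, Pi.sub_apply, smul_eq_mul]
      ring
    rw [e1] at m1
    rw [e2] at m3
    have s1 := hsum _ heC heV
    have s2 := hpos' _ heC
    have s3 := hpos _ heC'
    linarith
  set X : Set (ι → ℝ) := {x | Cl i x ∧ (∀ k ∈ V, x k = vert B k) ∧
    ∀ k, k ∉ V → k ≠ i → 0 ≤ x k * vert t k} with hX
  have hbdd : BddBelow (F '' X) := by
    refine ⟨0, ?_⟩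
    rintro _ ⟨x, hx, rfl⟩
    exact hpos x hx.1
  have hne : (F '' X).Nonempty := by
    refine ⟨F c0, c0, ⟨hc0C, hc0V, fun k hkV _ => ?_⟩, rfl⟩
    rw [hc0n k hkV]; simp
  refine ⟨sInf (F '' X) - θ / 8, fun x hx hxV hxt => ⟨?_, ?_⟩⟩
  · have := csInf_le hbdd ⟨x, ⟨hx, hxV, hxt⟩, rfl⟩
    linarith
  · have h1 : F x - θ / 2 ≤ sInf (F '' X) := by
      refine le_csInf hne ?_
      rintro _ ⟨p, hp, rfl⟩
      have := hcmp p x hp.1 hp.2.1 hp.2.2 hx hxV hxt
      linarith
    have h2 := hsum x hx hxV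
    linarith

end Pool.Agent.Work.MP_80156a_loc
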