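import Pool.Agent.Work.MP_80156a_loc.Interface

/-! Block CHORD: a longest chord in direction `e_i` and its supporting slab. -/

set_option autoImplicit false

namespace Pool.Agent.Work.MP_80156a_loc

open Pool.Agent.Work.MP_80156a_co
open scoped Topology
open Filter

namespace CHORDAux

variable {ι : Type} [Fintype ι] [DecidableEq ι]

omit [Fintype ι] in
/-- the longest chord -/
theorem exists_chord (K : Set (ι → ℝ)) (ε : ℝ) (hc : IsCompact K) (hε : ε ≤ 1 / 2)
    (hin : ∀ x : ι → ℝ, (∀ i, |x i| ≤ 1 - ε) → x ∈ K) (hout : ∀ x ∈ K, ∀ i, |x i| ≤ 1) (i : ι) :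
    ∃ (p : ι → ℝ) (lam : ℝ), p ∈ K ∧ p + lam • (Pi.single i 1 : ι → ℝ) ∈ K ∧
      2 * (1 - ε) ≤ lam ∧ lam ≤ 2 ∧
      ∀ (a : ι → ℝ) (t : ℝ), 0 ≤ t → a ∈ K → a + t • (Pi.single i 1 : ι → ℝ) ∈ K → t ≤ lam := by
  let Z : Set ((ι → ℝ) × ℝ) := (K ×ˢ Set.Icc (0 : ℝ) 2) ∩
    (fun q : (ι → ℝ) × ℝ => q.1 + q.2 • (Pi.single i 1 : ι → ℝ)) ⁻¹' K
  have hZ : IsCompact Z := by
    refine (hc.prod isCompact_Icc).inter_right (hc.isClosed.preimage ?_)
    fun_prop
  have hsingle : ∀ (s : ℝ) (k : ι), |(s • (Pi.single i 1 : ι → ℝ)) k| ≤ |s| := by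
    intro s k
    rw [Pi.smul_apply, smul_eq_mul, abs_mul]
    by_cases hk : k = i
    · rw [hk, Pi.single_eq_same]
      simp
    · rw [Pi.single_eq_of_ne hk]
      simp
  have h0 : ((-(1 - ε)) • (Pi.single i 1 : ι → ℝ), 2 * (1 - ε)) ∈ Z := by
    refine ⟨⟨hin _ fun k => ?_, ?_, ?_⟩, hin _ fun k => ?_⟩
    · refine (hsingle _ k).trans ?_
      rw [abs_neg, abs_of_nonneg (by linarith)]
    · change 0 ≤ 2 * (1 - ε)
      linarith
    · change 2 * (1 - ε) ≤ 2
      by_contra hcon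
      push Not at hcon
      have h1 := hout _ (hin ((1 - ε) • (Pi.single i 1 : ι → ℝ)) fun k => by
        refine (hsingle _ k).trans ?_
        rw [abs_of_nonneg (by linarith)]) i
      rw [Pi.smul_apply, Pi.single_eq_same, smul_eq_mul, mul_one] at h1
      have := (abs_le.1 h1).2
      linarith
    · change |((-(1 - ε)) • (Pi.single i 1 : ι → ℝ) + (2 * (1 - ε)) • (Pi.single i 1 : ι → ℝ)) k| ≤ 1 - ε
      rw [← add_smul]
      refine (hsingle _ k).trans ?_
      rw [abs_of_nonneg (by linarith)]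
      linarith
  obtain ⟨q, hq, hmax⟩ := hZ.exists_isMaxOn ⟨_, h0⟩ (continuous_snd.continuousOn)
  obtain ⟨⟨hq1, hq2⟩, hq3⟩ := hq
  refine ⟨q.1, q.2, hq1, hq3, hmax h0, hq2.2, ?_⟩
  intro a t ht ha hat
  have h1 : (a, t) ∈ Z := by
    refine ⟨⟨ha, ht, ?_⟩, hat⟩
    have h2 := (abs_le.1 (hout a ha i)).1
    have h3 := (abs_le.1 (hout _ hat i)).2
    rw [Pi.add_apply, Pi.smul_apply, Pi.single_eq_same, smul_eq_mul, mul_one] at h3
    change t ≤ 2
    linarith
  exact hmax h1

omit [DecidableEq ι] in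
theorem zero_interior (K : Set (ι → ℝ)) (ε : ℝ) (hε : ε ≤ 1 / 2)
    (hin : ∀ x : ι → ℝ, (∀ i, |x i| ≤ 1 - ε) → x ∈ K) : (0 : ι → ℝ) ∈ interior K := by
  rw [mem_interior_iff_mem_nhds, Metric.mem_nhds_iff]
  refine ⟨1 - ε, by linarith, fun x hx => hin x fun i => ?_⟩
  rw [mem_ball_zero_iff] at hx
  exact (norm_le_pi_norm x i).trans hx.le

end CHORDAux

open CHORDAux

theorem blk_CHORD : Stmt_CHORD := by
  intro ι _ _ K ε hconv hc hε0 hε hin hout i
  obtain ⟨p, lam, hp, hq, hlam1, hlam2, hmax⟩ := exists_chord K ε hc hε hin hout i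
  have h0 := zero_interior K ε hε hin
  -- separation
  have hTconv : Convex ℝ ((fun x : ι → ℝ => x + lam • (Pi.single i 1 : ι → ℝ)) '' K) := by
    have := hconv.translate (lam • (Pi.single i 1 : ι → ℝ))
    simpa [add_comm] using this
  have hdisj : Disjoint (interior K)
      ((fun x : ι → ℝ => x + lam • (Pi.single i 1 : ι → ℝ)) '' K) := by
    rw [Set.disjoint_left]
    rintro _ hx ⟨b, hb, rfl⟩
    have h1 : Tendsto (fun s : ℝ => (b + lam • (Pi.single i 1 : ι → ℝ)) +
        s • (Pi.single i 1 : ι → ℝ)) (𝓝[>] 0) (𝓝 (b + lam • (Pi.single i 1 : ι → ℝ))) := by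
      have h2 : Continuous fun s : ℝ => (b + lam • (Pi.single i 1 : ι → ℝ)) +
        s • (Pi.single i 1 : ι → ℝ) := by fun_prop
      have h3 := h2.tendsto 0
      rw [zero_smul, add_zero] at h3
      exact h3.mono_left nhdsWithin_le_nhds
    have h2 : ∀ᶠ s : ℝ in 𝓝[>] 0, (b + lam • (Pi.single i 1 : ι → ℝ)) +
        s • (Pi.single i 1 : ι → ℝ) ∈ K :=
      h1.eventually (mem_interior_iff_mem_nhds.1 hx)
    obtain ⟨s, hs, hs0⟩ := (h2.and self_mem_nhdsWithin).exists
    have hs0' : (0 : ℝ) < s := hs0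
    rw [add_assoc, ← add_smul] at hs
    have := hmax b (lam + s) (by linarith) hb hs
    linarith
  obtain ⟨F, u, hF1, hF2⟩ := geometric_hahn_banach_open hconv.interior isOpen_interior hTconv hdisj
  have hFK : ∀ a ∈ K, F a ≤ u := by
    intro a ha
    have h1 : a ∈ closure (interior K) := by
      rw [hconv.closure_interior_eq_closure_of_nonempty_interior ⟨0, h0⟩]
      exact subset_closure ha
    have h2 : IsClosed {x : ι → ℝ | F x ≤ u} := isClosed_le F.continuous continuous_const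
    exact closure_minimal (fun x hx => (hF1 x hx).le) h2 h1
  let g : ι → ℝ := fun k => F (Pi.single k 1)
  have hFg : ∀ x, F x = fn g x := by
    intro x
    have h1 := eq_fn (F : (ι → ℝ) →ₗ[ℝ] ℝ)
    have h2 := LinearMap.congr_fun h1 x
    exact h2
  have hadd : ∀ (x : ι → ℝ) (s : ℝ), fn g (x + s • (Pi.single i 1 : ι → ℝ)) =
      fn g x + s * g i := by
    intro x s
    rw [map_add, map_smul, smul_eq_mul]
    congr 2
    rw [← hFg]
  have hu1 : fn g p + lam * g i ≤ u := by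
    rw [← hadd, ← hFg]
    exact hFK _ hq
  have hu2 : ∀ x ∈ K, u ≤ fn g x + lam * g i := by
    intro x hx
    rw [← hadd, ← hFg]
    exact hF2 _ ⟨x, hx, rfl⟩
  have hlo : ∀ x ∈ K, fn g p ≤ fn g x := by
    intro x hx
    have := hu2 x hx
    linarith
  have hhi : ∀ x ∈ K, fn g x ≤ fn g p + lam * g i := by
    intro x hx
    have h1 := hu2 p hp
    have h2 := hFK x hx
    rw [hFg] at h2
    linarith
  -- the sign vector
  let sg : ι → ℝ := fun k => if 0 ≤ g k then 1 else -1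
  have hsg : ∀ k, g k * sg k = |g k| := by
    intro k
    change g k * (if 0 ≤ g k then 1 else -1) = _
    split_ifs with h
    · rw [abs_of_nonneg h, mul_one]
    · rw [abs_of_neg (by linarith)]
      ring
  have hsg1 : ∀ k, |sg k| ≤ 1 := by
    intro k
    change |(if 0 ≤ g k then 1 else -1 : ℝ)| ≤ 1
    split_ifs <;> simp
  have hfnsg : fn g sg = ∑ k, |g k| := by
    rw [fn_apply]
    exact Finset.sum_congr rfl fun k _ => hsg k
  have hmem : ∀ c : ℝ, |c| ≤ 1 - ε → c • sg ∈ K := by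
    intro c hc
    refine hin _ fun k => ?_
    rw [Pi.smul_apply, smul_eq_mul, abs_mul]
    calc |c| * |sg k| ≤ |c| * 1 := mul_le_mul_of_nonneg_left (hsg1 k) (abs_nonneg c)
      _ ≤ 1 - ε := by rw [mul_one]; exact hc
  have hA1 := hhi _ (hmem (1 - ε) (by rw [abs_of_nonneg (by linarith)]))
  have hA2 := hlo _ (hmem (-(1 - ε)) (by rw [abs_neg, abs_of_nonneg (by linarith)]))
  rw [map_smul, hfnsg, smul_eq_mul] at hA1 hA2
  have hA3 : 2 * (1 - ε) * ∑ k, |g k| ≤ lam * g i := by linarith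
  have hsum0 : 0 ≤ ∑ k, |g k| := Finset.sum_nonneg fun k _ => abs_nonneg _
  have hgi0 : 0 ≤ g i := by
    by_contra hcon
    push Not at hcon
    have h1 : lam * g i < 0 := mul_neg_of_pos_of_neg (by linarith) hcon
    have h2 : 0 ≤ 2 * (1 - ε) * ∑ k, |g k| := mul_nonneg (by linarith) hsum0
    linarith
  have hgi : 0 < g i := by
    rcases hgi0.eq_or_lt with h1 | h1
    · exfalso
      rw [← h1, mul_zero] at hA3
      have h2 : ∑ k, |g k| = 0 := by
        have h3 : 0 < 2 * (1 - ε) := by linarith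
        have h4 : 2 * (1 - ε) * ∑ k, |g k| = 0 := le_antisymm hA3 (mul_nonneg h3.le hsum0)
        rcases mul_eq_zero.1 h4 with h5 | h5
        · exact absurd h5 h3.ne'
        · exact h5
      have h3 : ∀ k, g k = 0 := by
        intro k
        rw [Finset.sum_eq_zero_iff_of_nonneg fun k _ => abs_nonneg _] at h2
        exact abs_eq_zero.1 (h2 k (Finset.mem_univ k))
      have h4 : fn g 0 < u := by
        rw [← hFg]
        exact hF1 0 h0
      have h5 := hu2 p hp
      have h6 : fn g p = 0 := by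
        rw [fn_apply]
        exact Finset.sum_eq_zero fun k _ => by rw [h3 k, zero_mul]
      rw [map_zero] at h4
      rw [h6, h3 i, mul_zero] at h5
      linarith
    · exact h1
  refine ⟨(g i)⁻¹ • g, p, lam, ?_, hp, hq, hlam1, hlam2, ?_, ?_⟩
  · rw [Pi.smul_apply, smul_eq_mul, inv_mul_cancel₀ hgi.ne']
  · intro x hx
    rw [fn_smul, LinearMap.smul_apply, LinearMap.smul_apply, smul_eq_mul, smul_eq_mul]
    constructor
    · exact mul_le_mul_of_nonneg_left (hlo x hx) (by positivity)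
    · have h1 := mul_le_mul_of_nonneg_left (hhi x hx) (inv_nonneg.2 hgi.le)
      have h2 : (g i)⁻¹ * (fn g p + lam * g i) = (g i)⁻¹ * fn g p + lam := by
        field_simp
      rw [h2] at h1
      exact h1
  · have h1 : ∑ k ∈ Finset.univ.erase i, |((g i)⁻¹ • g) k| =
        (g i)⁻¹ * ∑ k ∈ Finset.univ.erase i, |g k| := by
      rw [Finset.mul_sum]
      refine Finset.sum_congr rfl fun k _ => ?_
      rw [Pi.smul_apply, smul_eq_mul, abs_mul, abs_of_pos (inv_pos.2 hgi)]
    have h2 : |g i| + ∑ k ∈ Finset.univ.erase i, |g k| = ∑ k, |g k| :=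
      Finset.add_sum_erase Finset.univ (fun k => |g k|) (Finset.mem_univ i)
    rw [abs_of_pos hgi] at h2
    have h3 : ∑ k ∈ Finset.univ.erase i, |g k| ≤ 2 * ε * g i := by
      have h4 : 2 * (1 - ε) * ∑ k, |g k| ≤ 2 * g i := by
        refine hA3.trans ?_
        exact mul_le_mul_of_nonneg_right hlam2 hgi.le
      rw [← h2] at h4
      have h5 : 0 ≤ ∑ k ∈ Finset.univ.erase i, |g k| := Finset.sum_nonneg fun k _ => abs_nonneg _
      nlinarith
    rw [h1, inv_mul_le_iff₀ hgi]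
    linarith

end Pool.Agent.Work.MP_80156a_loc
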