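import Pool.Agent.Work.MP_80156a_loc.Interface

/-!
# MP_80156a_co, local theorem: block CIRC
-/

set_option autoImplicit false

namespace Pool.Agent.Work.MP_80156a_loc

open Pool.Agent.Work.MP_80156a_co
open scoped Topology
open Filter

namespace CIRC

theorem core {ι : Type} [Fintype ι] [DecidableEq ι] {K : Set (ι → ℝ)} {h : ℕ} (hHP : HP K (h + 1))
    (c : ι → ℝ) (G wG ζ : ι → ι → ℝ) (w f : ι → ℝ) (hr : Reg K w (fn f))
    (hG : ∀ k, Reg K (wG k) (fn (G k))) (hf : ∀ l, f l = -∑ k, |c k| * G k l)
    (hζ : ∀ k l, fn (G k) (ζ l) = if k = l then 1 else 0) (hf0 : f ≠ 0) :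
    (Finset.univ.filter fun k => c k ≠ 0).card ≤ h := by
  set A := Finset.univ.filter fun k => c k ≠ 0 with hA
  have hfn : ∀ x, fn f x = -∑ k ∈ A, |c k| * fn (G k) x := by
    intro x
    rw [fn_apply]
    have h1 : ∑ k ∈ A, |c k| * fn (G k) x = ∑ k, |c k| * fn (G k) x := by
      refine Finset.sum_subset (Finset.subset_univ A) fun k _ hk => ?_
      have : c k = 0 := by
        by_contra h3; exact hk (Finset.mem_filter.2 ⟨Finset.mem_univ k, h3⟩)
      rw [this, abs_zero, zero_mul]
    rw [h1]
    have h2 : ∀ l, f l * x l = -∑ k, |c k| * G k l * x l := fun l => by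
      rw [hf l, neg_mul, Finset.sum_mul]
    simp_rw [h2]
    rw [Finset.sum_neg_distrib, Finset.sum_comm]
    refine congrArg Neg.neg (Finset.sum_congr rfl fun k _ => ?_)
    rw [fn_apply, Finset.mul_sum]
    exact Finset.sum_congr rfl fun l _ => by ring
  have habs : ∀ k ∈ A, 0 < |c k| := fun k hk => abs_pos.2 (Finset.mem_filter.1 hk).2
  have hAne : A.Nonempty := by
    by_contra hne
    rw [Finset.not_nonempty_iff_eq_empty] at hne
    apply hf0
    funext l
    have h1 := hfn (Pi.single l 1)
    rw [hne, Finset.sum_empty, neg_zero, fn_apply] at h1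
    have h2 : ∑ k, f k * (Pi.single l 1 : ι → ℝ) k = f l := by
      rw [Finset.sum_eq_single l]
      · rw [Pi.single_eq_same, mul_one]
      · intro b _ hb
        rw [Pi.single_eq_of_ne hb, mul_zero]
      · intro hl
        exact absurd (Finset.mem_univ l) hl
    rw [h2] at h1
    exact h1
  obtain ⟨i₀, hi₀⟩ := hAne
  set M : ℝ := ∑ k ∈ A, |c k| + 1 with hM
  -- combinations of the dual vectors
  set Z : (ι → ℝ) → (ι → ℝ) := fun a => ∑ l ∈ A, a l • ζ l with hZ
  have hGZ : ∀ a, ∀ j ∈ A, fn (G j) (Z a) = a j := by
    intro a j hj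
    rw [hZ]
    simp only [map_sum, map_smul, smul_eq_mul, hζ]
    rw [Finset.sum_eq_single j]
    · rw [if_pos rfl, mul_one]
    · intro b _ hb
      rw [if_neg (Ne.symm hb), mul_zero]
    · intro hj'
      exact absurd hj hj'
  have hfZ : ∀ a, fn f (Z a) = -∑ k ∈ A, |c k| * a k := by
    intro a
    rw [hfn]
    refine congrArg Neg.neg (Finset.sum_congr rfl fun k hk => ?_)
    rw [hGZ a k hk]
  have key := circuit (α := Option {i // i ∈ A}) (K := K) hHP
    (fun o => o.elim w (fun i => wG i.1))
    (fun o => o.elim (fn f) (fun i => fn (G i.1)))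
    (fun o => by
      cases o with
      | none => exact hr
      | some i => exact hG i.1)
    (fun o => o.elim 1 (fun i => |c i.1|))
    (fun o => by
      cases o with
      | none => exact one_pos
      | some i => exact habs i.1 i.2)
    (fun x => by
      rw [Fintype.sum_option]
      simp only [Option.elim_none, Option.elim_some, one_mul]
      rw [hfn x, ← Finset.sum_coe_sort A (fun i => |c i| * fn (G i) x)]
      ring)
    (fun o => o.elim (Z fun _ => -1) (fun i => Z fun l => if l = i.1 then M / |c l| else -1))
    (fun a b hab => by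
      cases a with
      | none =>
        cases b with
        | none => exact absurd rfl hab
        | some j =>
          simp only [Option.elim_none, Option.elim_some]
          rw [hGZ _ _ j.2]
          norm_num
      | some i =>
        cases b with
        | none =>
          simp only [Option.elim_none, Option.elim_some]
          rw [hfZ, ← Finset.add_sum_erase A _ i.2, if_pos rfl]
          have h2 := habs i.1 i.2
          have h3 : |c i.1| * (M / |c i.1|) = M := by field_simp
          have h4 : ∑ x ∈ A.erase i.1, |c x| * (if x = i.1 then M / |c x| else -1)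
              = -∑ x ∈ A.erase i.1, |c x| := by
            rw [← Finset.sum_neg_distrib]
            refine Finset.sum_congr rfl fun l hl => ?_
            rw [if_neg (Finset.ne_of_mem_erase hl)]
            ring
          have h5 : ∑ x ∈ A.erase i.1, |c x| ≤ ∑ x ∈ A, |c x| :=
            Finset.sum_le_sum_of_subset_of_nonneg (Finset.erase_subset _ _)
              fun _ _ _ => abs_nonneg _
          rw [h3, h4]
          linarith
        | some j =>
          have hne : j.1 ≠ i.1 := fun h => hab (by rw [Subtype.ext h])
          simp only [Option.elim_some]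
          rw [hGZ _ _ j.2, if_neg hne]
          norm_num)
    none (some ⟨i₀, hi₀⟩) (by simp)
  rw [Fintype.card_option, Fintype.card_coe] at key
  omega

end CIRC

theorem blk_CIRC (hFAN : Stmt_FAN) (hDUAL : Stmt_DUAL) : Stmt_CIRC := by
  intro ι _ _ K h hHP P N wP wN κ hP hN hκ hPκ hNκ w f hr hf0
  have hκ1 : κ < 1 := by
    by_contra hk
    push Not at hk
    rcases Nat.eq_zero_or_pos (Fintype.card ι) with h0 | h0
    · apply hf0
      have : IsEmpty ι := Fintype.card_eq_zero_iff.1 h0
      funext l
      exact (IsEmpty.false l).elim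
    · have h1 : (1 : ℝ) ≤ Fintype.card ι := by exact_mod_cast h0
      nlinarith
  obtain ⟨c, hc1, hc2⟩ := hFAN ι P N κ hκ hPκ hNκ (-f)
  refine ⟨c, fun l => ?_, ?_, ?_⟩
  · have := hc1 l
    rwa [Pi.neg_apply] at this
  · have h1 : ∀ l, |f l + c l| = |(-f) l - c l| := fun l => by
      rw [Pi.neg_apply, ← abs_neg]
      congr 1
      ring
    rw [Finset.sum_congr rfl fun l _ => h1 l]
    exact hc2
  · obtain ⟨ζ, hζ⟩ := hDUAL ι (fun k => if 0 ≤ c k then P k else N k)
      (fun k => if 0 ≤ c k then 1 else -1) κ
      (fun k => by
        by_cases h0 : 0 ≤ c k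
        · left; simp only [h0, if_true]
        · right; simp only [h0, if_false])
      hκ1
      (fun k => by
        by_cases h0 : 0 ≤ c k
        · simp only [h0, if_true, one_mul]
          exact hPκ k
        · simp only [h0, if_false]
          refine le_trans (le_of_eq (Finset.sum_congr rfl fun l _ => ?_)) (hNκ k)
          congr 1
          ring)
    refine CIRC.core hHP c (fun k => if 0 ≤ c k then P k else N k)
      (fun k => if 0 ≤ c k then wP k else wN k) ζ w f hr (fun k => ?_) (fun l => ?_) hζ hf0
    · by_cases h0 : 0 ≤ c k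
      · simp only [h0, if_true]; exact hP k
      · simp only [h0, if_false]; exact hN k
    · have h1 := hc1 l
      rw [Pi.neg_apply] at h1
      have h2 : ∀ k, max (c k) 0 * P k l + max (-c k) 0 * N k l
          = |c k| * (if 0 ≤ c k then P k else N k) l := by
        intro k
        by_cases h0 : 0 ≤ c k
        · rw [if_pos h0, max_eq_left h0, max_eq_right (by linarith), abs_of_nonneg h0]
          ring
        · rw [if_neg h0, max_eq_right (by linarith), max_eq_left (by linarith),
            abs_of_neg (by linarith)]
          ring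
      rw [Finset.sum_congr rfl fun k _ => h2 k] at h1
      linarith

end Pool.Agent.Work.MP_80156a_loc
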