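import Pool.Agent.Work.MP_80156a_loc.Interface

/-!
# MP_80156a_co, local theorem: block COMB (helper74)
-/

set_option autoImplicit false

namespace Pool.Agent.Work.MP_80156a_loc.COMBns

open Pool.Agent.Work.MP_80156a_co
open Pool.Agent.Work.MP_80156a_loc
open scoped Topology
open Filter

/-- the value at a suitable vertex is the largest value on the closed cube -/
theorem le_vert {ι : Type} [Fintype ι] [DecidableEq ι] (i : ι) (a : ι → ℝ) (hi : a i = 0)
    (x : ι → ℝ) (hx : Cl i x) (B : Finset ι)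
    (hB : B ∩ (Finset.univ.filter fun k => a k ≠ 0) = Finset.univ.filter fun k => 0 < a k) :
    fn a x ≤ fn a (vert B) := by
  rw [fn_apply, fn_apply]
  refine Finset.sum_le_sum fun k _ => ?_
  have hk := Finset.ext_iff.1 hB k
  simp only [Finset.mem_inter, Finset.mem_filter, Finset.mem_univ, true_and] at hk
  by_cases hki : k = i
  · rw [hki, hi]; simp
  have hxk := abs_le.1 (hx k hki)
  rcases lt_trichotomy (a k) 0 with h | h | h
  · have hkB : k ∉ B := fun hb => absurd (hk.1 ⟨hb, h.ne⟩) (not_lt.2 h.le)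
    have : vert B k = -1 := by simp [vert, hkB]
    rw [this]
    nlinarith [hxk.1]
  · rw [h]; simp
  · have hkB : k ∈ B := (hk.2 h).1
    have : vert B k = 1 := by simp [vert, hkB]
    rw [this]
    nlinarith [hxk.2]

end Pool.Agent.Work.MP_80156a_loc.COMBns

namespace Pool.Agent.Work.MP_80156a_loc

open Pool.Agent.Work.MP_80156a_co
open scoped Topology
open Filter

open scoped Classical in
theorem blk_COMB (hSUPP : Stmt_SUPP) (hLIM1 : Stmt_LIM1) : Stmt_COMB := by
  intro ι _ _ U h K δ hS i hex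
  set V := Used U K δ i with hV
  -- the subcube of a relevant pair
  have key : ∀ (γ : ℝ) (u : ι → ℝ) (γ' : ℝ) (u' : ι → ℝ), Rel U K δ i γ u γ' u' →
      (Finset.univ.filter fun k => (u + u') k ≠ 0) ⊆ V ∧
      (Finset.univ.filter fun k => 0 < (u + u') k) ⊆
        (Finset.univ.filter fun k => (u + u') k ≠ 0) ∧
      (Finset.univ.filter fun k => (u + u') k ≠ 0).card + 1 ≤ h ∧
      ∀ B : Finset ι, B ∩ (Finset.univ.filter fun k => (u + u') k ≠ 0) =
        (Finset.univ.filter fun k => 0 < (u + u') k) →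
        0 < γ + γ' + fn (u + u') (vert B) := by
    intro γ u γ' u' hR
    obtain ⟨h1, h2, x, hx, hpos⟩ := hR
    refine ⟨?_, ?_, ?_, ?_⟩
    · intro k hk
      have hk' : u k + u' k ≠ 0 := by
        have := (Finset.mem_filter.1 hk).2
        rwa [Pi.add_apply] at this
      rw [hV, Used, Finset.mem_filter]
      exact ⟨Finset.mem_univ k, γ, u, γ', u', ⟨h1, h2, x, hx, hpos⟩, hk'⟩
    · intro k hk
      rw [Finset.mem_filter] at hk ⊢
      exact ⟨hk.1, hk.2.ne'⟩
    · have h3 := hSUPP ι U h K δ hS i γ γ' u u' h1 h2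
      refine le_trans (Nat.succ_le_succ (Finset.card_le_card (fun k hk => ?_))) h3
      rw [Finset.mem_filter] at hk ⊢
      exact hk
    · intro B hB
      have hu := (hLIM1 ι U h K δ hS i 1 γ u (Or.inl rfl) h1).1
      have hu' := (hLIM1 ι U h K δ hS i (-1) γ' u' (Or.inr rfl) h2).1
      have h3 := COMBns.le_vert i (u + u') (by rw [Pi.add_apply, hu, hu', add_zero]) x hx B (by
        ext k
        have hk := Finset.ext_iff.1 hB k
        simp only [Finset.mem_inter, Finset.mem_filter] at hk ⊢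
        exact hk)
      linarith
  set W : Finset (Finset ι) := V.powerset.filter fun B =>
    ∃ γ u γ' u', Rel U K δ i γ u γ' u' ∧ 0 < γ + γ' + fn (u + u') (vert B) with hW
  have hne : ∃ T g : Finset ι, T ⊆ V ∧ g ⊆ T ∧ T.card ≤ h - 1 ∧ ∀ B ⊆ V, B ∩ T = g → B ∈ W := by
    obtain ⟨γ, u, γ', u', hR⟩ := hex
    obtain ⟨k1, k2, k3, k4⟩ := key γ u γ' u' hR
    refine ⟨_, _, k1, k2, by omega, fun B hB hBT => ?_⟩
    rw [hW, Finset.mem_filter]
    exact ⟨Finset.mem_powerset.2 hB, γ, u, γ', u', hR, k4 B hBT⟩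
  have hall : ∀ j ∈ V, ∃ T g : Finset ι, j ∈ T ∧ T ⊆ V ∧ g ⊆ T ∧ T.card ≤ h - 1 ∧
      ∀ B ⊆ V, B ∩ T = g → B ∈ W := by
    intro j hj
    rw [hV, Used, Finset.mem_filter] at hj
    obtain ⟨-, γ, u, γ', u', hR, hju⟩ := hj
    obtain ⟨k1, k2, k3, k4⟩ := key γ u γ' u' hR
    refine ⟨_, _, ?_, k1, k2, by omega, fun B hB hBT => ?_⟩
    · rw [Finset.mem_filter]
      exact ⟨Finset.mem_univ j, by rwa [Pi.add_apply]⟩
    · rw [hW, Finset.mem_filter]
      exact ⟨Finset.mem_powerset.2 hB, γ, u, γ', u', hR, k4 B hBT⟩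
  obtain ⟨r, hr⟩ := exists_indep V (h - 1) W hne hall
  have hh : 1 ≤ h := by
    obtain ⟨γ, u, γ', u', hR⟩ := hex
    obtain ⟨-, -, k3, -⟩ := key γ u γ' u' hR
    omega
  refine ⟨W.filter fun B => B.card % 2 = r, ?_, ?_, ?_, ?_⟩
  · intro B hB
    exact Finset.mem_powerset.1 (Finset.mem_filter.1 (Finset.mem_filter.1 hB).1).1
  · obtain ⟨m, rfl⟩ : ∃ m, h = m + 1 := ⟨h - 1, by omega⟩
    rw [Nat.add_sub_cancel] at hr
    rw [pow_succ, pow_succ]
    calc 2 ^ V.card * 2 ≤ (W.filter fun B => B.card % 2 = r).card * 2 ^ m * 2 :=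
          Nat.mul_le_mul_right 2 hr
      _ = (W.filter fun B => B.card % 2 = r).card * (2 ^ m * 2) := by ring
  · intro B hB k _ B' _ hag hk hB'
    have h1 := (Finset.mem_filter.1 hB).2
    have h2 := (Finset.mem_filter.1 hB').2
    by_cases hkB : k ∈ B
    · have hkB' : k ∉ B' := fun hc => (hk.1 hc) hkB
      have : B = insert k B' := by
        ext l
        rw [Finset.mem_insert]
        by_cases hl : l = k
        · subst hl; exact ⟨fun _ => Or.inl rfl, fun _ => hkB⟩
        · rw [hag l hl]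
          exact ⟨Or.inr, fun h => h.resolve_left hl⟩
      rw [this, Finset.card_insert_of_notMem hkB'] at h1
      omega
    · have hkB' : k ∈ B' := hk.2 hkB
      have : B' = insert k B := by
        ext l
        rw [Finset.mem_insert]
        by_cases hl : l = k
        · subst hl; exact ⟨fun _ => Or.inl rfl, fun _ => hkB'⟩
        · rw [hag l hl]
          exact ⟨Or.inr, fun h => h.resolve_left hl⟩
      rw [this, Finset.card_insert_of_notMem hkB] at h2
      omega
  · intro B hB
    exact (Finset.mem_filter.1 (Finset.mem_filter.1 hB).1).2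

end Pool.Agent.Work.MP_80156a_loc
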