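import Pool.Agent.Work.MP_80156a_loc.Interface
import Pool.Agent.Work.MP_80156a_loc.Ult

/-!
# MP_80156a_co, local theorem: block CUT
-/

set_option autoImplicit false

namespace Pool.Agent.Work.MP_80156a_loc

open Pool.Agent.Work.MP_80156a_co
open scoped Topology
open Filter

namespace Cut

theorem reg_smul {ι : Type} [Fintype ι] {K : Set (ι → ℝ)} {w : ι → ℝ} {f : (ι → ℝ) →ₗ[ℝ] ℝ}
    (hr : Reg K w f) {c : ℝ} (hc : 0 < c) : Reg K w (c • f) := by
  refine ⟨hr.1, fun z hz => ?_, fun ζ hζ => hr.2.2 ζ ?_⟩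
  · simp only [LinearMap.smul_apply, smul_eq_mul]
    exact mul_le_mul_of_nonneg_left (hr.2.1 z hz) hc.le
  · simp only [LinearMap.smul_apply, smul_eq_mul] at hζ
    by_contra hcon
    have := mul_nonneg hc.le (not_lt.1 hcon)
    linarith

theorem interior_ne {ι : Type} [Fintype ι] {K : Set (ι → ℝ)} {δ : ℝ} (hδ : δ < 1)
    (hin : ∀ x : ι → ℝ, (∀ i, |x i| ≤ 1 - δ) → x ∈ K) : (interior K).Nonempty := by
  refine ⟨0, mem_interior.2 ⟨Metric.ball 0 (1 - δ), fun x hx => hin x fun i => ?_,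
    Metric.isOpen_ball, Metric.mem_ball_self (by linarith)⟩⟩
  rw [Metric.mem_ball, dist_zero_right] at hx
  have := norm_le_pi_norm x i
  rw [Real.norm_eq_abs] at this
  linarith

theorem vert_sq {ι : Type} [DecidableEq ι] (s : Finset ι) (k : ι) : vert s k * vert s k = 1 := by
  unfold vert
  split_ifs <;> norm_num

theorem vert_cases {ι : Type} [DecidableEq ι] (s : Finset ι) (k : ι) :
    vert s k = 1 ∨ vert s k = -1 := by
  unfold vert
  split_ifs <;> simp

theorem term_le {ι : Type} [DecidableEq ι] (s : Finset ι) (k : ι) (a x : ℝ) (hx : |x| ≤ 1) :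
    a * (vert s k - x) ≤ |a| * (1 - vert s k * x) := by
  have h1 := abs_le.1 hx
  have h2 : |vert s k - x| = 1 - vert s k * x := by
    rcases vert_cases s k with h | h
    · rw [h, abs_of_nonneg (by linarith [h1.2])]; ring
    · rw [h, abs_of_nonpos (by linarith [h1.1])]; ring
  calc a * (vert s k - x) ≤ |a * (vert s k - x)| := le_abs_self _
    _ = |a| * (1 - vert s k * x) := by rw [abs_mul, h2]

theorem cut_one (hA : Stmt_CIRC) {ι : Type} [Fintype ι] [DecidableEq ι] {K : Set (ι → ℝ)} {h : ℕ}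
    {δ : ℝ} (hδ0 : 0 < δ) (hδ1 : δ ≤ 1 / 2) (hK : HP K (h + 1)) (hc : Convex ℝ K)
    (hcomp : IsCompact K) (hin : ∀ x : ι → ℝ, (∀ i, |x i| ≤ 1 - δ) → x ∈ K)
    (hout : ∀ x ∈ K, ∀ i, |x i| ≤ 1) (s : Finset ι)
    (hs : ∀ η : ℝ, 0 ≤ η → η < δ → (1 - η) • vert s ∉ K) (vp vn : ι → ι → ℝ)
    (hvp : ∀ i, ∑ k, |vp i k| ≤ 1 / 32 ∧
      ∃ w, Reg K w (fn ((1 : ℝ) • (Pi.single i 1 : ι → ℝ) + δ • vp i)))
    (hvn : ∀ i, ∑ k, |vn i k| ≤ 1 / 32 ∧
      ∃ w, Reg K w (fn ((-1 : ℝ) • (Pi.single i 1 : ι → ℝ) + δ • vn i)))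
    (hcard : 2 * (δ / 32) * Fintype.card ι < 1) :
    ∃ T : Finset ι, T.card ≤ h ∧ ∀ x ∈ K, ∃ j ∈ T, 3 / 4 * δ ≤ 1 - vert s j * x j := by
  classical
  choose hvp1 wP hwP using hvp
  choose hvn1 wN hwN using hvn
  set η : ℝ := 31 / 32 * δ with hη
  have hz := hs η (by positivity) (by linarith)
  obtain ⟨w, f, hr, hlt⟩ := exists_reg hc hcomp.isClosed (interior_ne (by linarith) hin) hz
  set a0 : ι → ℝ := fun k => f (Pi.single k 1) with ha0
  have hf : f = fn a0 := eq_fn f
  have ha0ne : ∃ k, a0 k ≠ 0 := by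
    by_contra hcon
    push Not at hcon
    have h1 : ∀ x, f x = 0 := by
      intro x
      rw [hf, fn_apply]
      exact Finset.sum_eq_zero fun k _ => by rw [hcon k, zero_mul]
    rw [h1, h1] at hlt
    exact lt_irrefl _ hlt
  have hS0 : 0 < ∑ k, |a0 k| := by
    obtain ⟨k, hk⟩ := ha0ne
    exact Finset.sum_pos' (fun k _ => abs_nonneg _) ⟨k, Finset.mem_univ k, abs_pos.2 hk⟩
  set S := ∑ k, |a0 k| with hSdef
  set a : ι → ℝ := S⁻¹ • a0 with ha
  have hra : Reg K w (fn a) := by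
    rw [ha, fn_smul, ← hf]
    exact reg_smul hr (inv_pos.2 hS0)
  have hlta : fn a w < fn a ((1 - η) • vert s) := by
    rw [ha, fn_smul, ← hf]
    simp only [LinearMap.smul_apply, smul_eq_mul]
    exact mul_lt_mul_of_pos_left hlt (inv_pos.2 hS0)
  have hsum : ∑ k, |a k| = 1 := by
    simp only [ha, Pi.smul_apply, smul_eq_mul, abs_mul, abs_of_pos (inv_pos.2 hS0)]
    rw [← Finset.mul_sum]
    exact inv_mul_cancel₀ hS0.ne'
  have hane : a ≠ 0 := by
    intro h0
    rw [h0] at hsum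
    simp at hsum
  -- lower bound for `fn a w`
  have hw1 : 1 - δ ≤ fn a w := by
    set y : ι → ℝ := fun k => if 0 ≤ a k then 1 - δ else -(1 - δ) with hy
    have hyK : y ∈ K := by
      refine hin y fun i => ?_
      simp only [hy]
      split_ifs
      · rw [abs_of_nonneg (by linarith)]
      · rw [abs_neg, abs_of_nonneg (by linarith)]
    have h1 := hra.2.1 y hyK
    have h2 : fn a y = 1 - δ := by
      rw [fn_apply]
      have : ∀ k ∈ Finset.univ, a k * y k = (1 - δ) * |a k| := by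
        intro k _
        simp only [hy]
        split_ifs with hk
        · rw [abs_of_nonneg hk]; ring
        · rw [abs_of_neg (not_le.1 hk)]; ring
      rw [Finset.sum_congr rfl this, ← Finset.mul_sum, hsum, mul_one]
    linarith
  set α : ℝ := fn a (vert s) with hα
  have hzα : fn a ((1 - η) • vert s) = (1 - η) * α := by
    rw [map_smul, smul_eq_mul]
  rw [hzα] at hlta
  have hη1 : η ≤ 1 / 2 := by rw [hη]; linarith
  have hα1 : 1 - δ / 16 ≤ α := by
    by_contra hcon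
    push Not at hcon
    have h1 : (1 - η) * α ≤ (1 - η) * (1 - δ / 16) :=
      mul_le_mul_of_nonneg_left hcon.le (by linarith)
    have h2 : (1 - η) * (1 - δ / 16) ≤ 1 - δ := by
      rw [hη]
      nlinarith
    linarith
  -- the circuit
  obtain ⟨c, -, hc2, hc3⟩ := hA ι K h hK
    (fun i => (1 : ℝ) • (Pi.single i 1 : ι → ℝ) + δ • vp i)
    (fun i => (-1 : ℝ) • (Pi.single i 1 : ι → ℝ) + δ • vn i) wP wN (δ / 32) hwP hwN hcard
    (fun k => by
      have : ∀ l ∈ Finset.univ, |((1 : ℝ) • (Pi.single k 1 : ι → ℝ) + δ • vp k) l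
          - (Pi.single k 1 : ι → ℝ) l| = δ * |vp k l| := by
        intro l _
        simp only [one_smul, Pi.add_apply, Pi.smul_apply, smul_eq_mul, add_sub_cancel_left]
        rw [abs_mul, abs_of_pos hδ0]
      rw [Finset.sum_congr rfl this, ← Finset.mul_sum]
      have := mul_le_mul_of_nonneg_left (hvp1 k) hδ0.le
      linarith)
    (fun k => by
      have : ∀ l ∈ Finset.univ, |((-1 : ℝ) • (Pi.single k 1 : ι → ℝ) + δ • vn k) l
          + (Pi.single k 1 : ι → ℝ) l| = δ * |vn k l| := by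
        intro l _
        have h1 : ((-1 : ℝ) • (Pi.single k 1 : ι → ℝ) + δ • vn k) l
          + (Pi.single k 1 : ι → ℝ) l = δ * vn k l := by
          simp only [Pi.add_apply, Pi.smul_apply, smul_eq_mul]
          ring
        rw [h1, abs_mul, abs_of_pos hδ0]
      rw [Finset.sum_congr rfl this, ← Finset.mul_sum]
      have := mul_le_mul_of_nonneg_left (hvn1 k) hδ0.le
      linarith) w a hra hane
  have hc1 : ∑ k, |c k| ≤ 2 := by
    have h1 : ∑ k, |c k| ≤ ∑ k, |a k| + ∑ k, |a k + c k| := by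
      rw [← Finset.sum_add_distrib]
      refine Finset.sum_le_sum fun k _ => ?_
      have h2 : c k = (a k + c k) - a k := by ring
      calc |c k| = |(a k + c k) - a k| := by rw [← h2]
        _ ≤ |a k + c k| + |a k| := abs_sub _ _
        _ = |a k| + |a k + c k| := add_comm _ _
    have h0 : 0 ≤ ∑ k, |c k| := Finset.sum_nonneg fun k _ => abs_nonneg _
    have h3 : δ / 32 * ∑ k, |c k| ≤ 1 / 64 * ∑ k, |c k| :=
      mul_le_mul_of_nonneg_right (by linarith) h0
    rw [hsum] at h1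
    linarith
  have hac : ∑ k, |a k + c k| ≤ δ / 16 := by
    have : δ / 32 * ∑ k, |c k| ≤ δ / 32 * 2 := mul_le_mul_of_nonneg_left hc1 (by positivity)
    linarith
  refine ⟨Finset.univ.filter fun k => c k ≠ 0, hc3, fun x hx => ?_⟩
  by_contra hcon
  push Not at hcon
  have hle : fn a (vert s) - fn a x ≤ 3 / 4 * δ * ∑ k, |a k| + 2 * ∑ k, |a k + c k| := by
    rw [fn_apply, fn_apply, ← Finset.sum_sub_distrib, Finset.mul_sum, Finset.mul_sum,
      ← Finset.sum_add_distrib]
    refine Finset.sum_le_sum fun k _ => ?_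
    have h1 := term_le s k (a k) (x k) (hout x hx k)
    have h2 : a k * vert s k - a k * x k = a k * (vert s k - x k) := by ring
    rw [h2]
    by_cases hk : c k = 0
    · have h3 : 1 - vert s k * x k ≤ 2 := by
        have h4 := abs_le.1 (hout x hx k)
        rcases vert_cases s k with h5 | h5
        · rw [h5]; linarith [h4.1]
        · rw [h5]; linarith [h4.2]
      have h6 : |a k| * (1 - vert s k * x k) ≤ |a k| * 2 :=
        mul_le_mul_of_nonneg_left h3 (abs_nonneg _)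
      have h7 : 0 ≤ 3 / 4 * δ * |a k| := by positivity
      rw [hk, add_zero]
      linarith
    · have h3 := hcon k (Finset.mem_filter.2 ⟨Finset.mem_univ k, hk⟩)
      have h6 : |a k| * (1 - vert s k * x k) ≤ |a k| * (3 / 4 * δ) :=
        mul_le_mul_of_nonneg_left h3.le (abs_nonneg _)
      have h7 : 0 ≤ 2 * |a k + c k| := by positivity
      linarith
  have hlow : 29 / 32 * δ ≤ fn a (vert s) - fn a x := by
    have h1 := hra.2.1 x hx
    have h2 : η * α ≤ fn a (vert s) - fn a x := by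
      have : fn a (vert s) = α := rfl
      rw [this]
      linarith
    have h3 : η * (1 - δ / 16) ≤ η * α := mul_le_mul_of_nonneg_left hα1 (by positivity)
    have h4 : 29 / 32 * δ ≤ η * (1 - δ / 16) := by
      rw [hη]
      nlinarith
    linarith
  rw [hsum] at hle
  linarith

end Cut

theorem blk_CUT (hA : Stmt_CIRC) (hB : Stmt_SMALL) : Stmt_CUT := by
  intro ι _ _ U h K δ hS hR
  classical
  choose vp hvp using fun i => (hB ι U h K δ hS hR i 1 (Or.inl rfl)).2 (1 / 32) (by norm_num)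
  choose vn hvn using fun i => (hB ι U h K δ hS hR i (-1) (Or.inr rfl)).2 (1 / 32) (by norm_num)
  have hvp' : ∀ᶠ n in (U : Filter ℕ), ∀ i, vp i n i = 0 ∧ ∑ k, |vp i n k| ≤ 1 / 32 ∧
      ∃ w, Reg (K n) w (fn ((1 : ℝ) • (Pi.single i 1 : ι → ℝ) + δ n • vp i n)) :=
    Filter.eventually_all.2 hvp
  have hvn' : ∀ᶠ n in (U : Filter ℕ), ∀ i, vn i n i = 0 ∧ ∑ k, |vn i n k| ≤ 1 / 32 ∧
      ∃ w, Reg (K n) w (fn ((-1 : ℝ) • (Pi.single i 1 : ι → ℝ) + δ n • vn i n)) :=
    Filter.eventually_all.2 hvn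
  have hd1 : ∀ᶠ n in (U : Filter ℕ), δ n < 1 / 2 :=
    hS.lim.eventually (gt_mem_nhds (by norm_num))
  have hd2 : ∀ᶠ n in (U : Filter ℕ), 2 * (δ n / 32) * Fintype.card ι < 1 := by
    have h1 : Tendsto (fun n => 2 * (δ n / 32) * (Fintype.card ι : ℝ)) U
        (𝓝 (2 * (0 / 32) * (Fintype.card ι : ℝ))) :=
      ((hS.lim.div_const 32).const_mul 2).mul_const _
    exact h1.eventually (gt_mem_nhds (by norm_num))
  have key : ∀ᶠ n in (U : Filter ℕ), ∃ a ∈ (Finset.univ : Finset (Finset ι × Finset ι)),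
      a.2.card ≤ h ∧ ∀ x ∈ K n, ∃ j ∈ a.2, 3 / 4 * δ n ≤ 1 - vert a.1 j * x j := by
    filter_upwards [hvp', hvn', hd1, hd2] with n h1 h2 h3 h4
    obtain ⟨s, hs⟩ := hS.extremal n
    obtain ⟨T, hT1, hT2⟩ := Cut.cut_one hA (hS.pos n) h3.le (hS.hp n) (hS.conv n) (hS.comp n)
      (hS.inside n) (hS.outside n) s hs (fun i => vp i n) (fun i => vn i n)
      (fun i => (h1 i).2) (fun i => (h2 i).2) h4
    exact ⟨(s, T), Finset.mem_univ _, hT1, hT2⟩
  obtain ⟨a, -, ha⟩ := finite_choice U Finset.univ key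
  refine ⟨a.1, a.2, ?_, ?_⟩
  · obtain ⟨n, hn⟩ := ha.exists
    exact hn.1
  · filter_upwards [ha] with n hn using hn.2

end Pool.Agent.Work.MP_80156a_loc
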