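import Pool.Agent.Work.MP_80156a_loc.Interface

/-!
# MP_80156a_co, local theorem: block DUAL

A matrix close to a diagonal matrix of signs is strictly diagonally dominant, hence invertible.
-/

set_option autoImplicit false

namespace Pool.Agent.Work.MP_80156a_loc

theorem blk_DUAL : Stmt_DUAL := by
  intro ι _ _ G s κ hs hκ hG
  have hdom : ∀ k, ∑ j ∈ Finset.univ.erase k, ‖(Matrix.of G) k j‖ < ‖(Matrix.of G) k k‖ := by
    intro k
    have h1 := hG k
    rw [← Finset.add_sum_erase _ _ (Finset.mem_univ k)] at h1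
    have h2 : ∑ j ∈ Finset.univ.erase k, |G k j - s k * (Pi.single k 1 : ι → ℝ) j| =
        ∑ j ∈ Finset.univ.erase k, ‖(Matrix.of G) k j‖ := by
      refine Finset.sum_congr rfl fun j hj => ?_
      rw [Pi.single_eq_of_ne (Finset.ne_of_mem_erase hj), mul_zero, sub_zero, Matrix.of_apply,
        Real.norm_eq_abs]
    rw [h2, Pi.single_eq_same, mul_one] at h1
    have h3 : |s k| = 1 := by
      rcases hs k with h | h
      · rw [h, abs_one]
      · rw [h, abs_neg, abs_one]
    have h4 : |s k| - |G k k| ≤ |G k k - s k| := by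
      rw [abs_sub_comm]
      exact abs_sub_abs_le_abs_sub (s k) (G k k)
    rw [Matrix.of_apply, Real.norm_eq_abs]
    linarith
  have hdet : (Matrix.of G).det ≠ 0 := det_ne_zero_of_sum_row_lt_diag hdom
  have hinv : Matrix.of G * (Matrix.of G)⁻¹ = 1 :=
    Matrix.mul_nonsing_inv _ (isUnit_iff_ne_zero.2 hdet)
  refine ⟨fun l j => (Matrix.of G)⁻¹ j l, fun k l => ?_⟩
  rw [fn_apply]
  have h5 := congrFun (congrFun hinv k) l
  rw [Matrix.mul_apply, Matrix.one_apply] at h5
  exact h5

end Pool.Agent.Work.MP_80156a_loc
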