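import Pool.Agent.Work.MP_80156a_loc.Interface

/-!
# Block EXTR: the extremal scaled cube inside a body
-/

set_option autoImplicit false

namespace Pool.Agent.Work.MP_80156a_loc

open Pool.Agent.Work.MP_80156a_co
open scoped Topology
open Filter

namespace EXTRAux

theorem abs_vert {ι : Type} [DecidableEq ι] (s : Finset ι) (i : ι) : |vert s i| = 1 := by
  unfold vert
  split_ifs <;> simp

end EXTRAux

open EXTRAux in
theorem blk_EXTR : Stmt_EXTR := by
  intro ι _ _ K ε hc hk he1 hin hout hnot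
  have he0 : 0 < ε := by
    by_contra hcon
    push Not at hcon
    exact hnot fun x hx => hin x fun i => (hx i).trans (by linarith)
  have h0K : (0 : ι → ℝ) ∈ K := hin 0 fun i => by simp; linarith
  have hdt : ∀ t : Finset ι, ∃ d : ℝ, 0 ≤ d ∧ d ≤ ε ∧ (1 - d) • vert t ∈ K ∧
      ∀ η : ℝ, 0 ≤ η → η < d → (1 - η) • vert t ∉ K := by
    intro t
    have hcont : Continuous fun η : ℝ => (1 - η) • vert t :=
      (continuous_const.sub continuous_id).smul continuous_const
    have hcomp : IsCompact (Set.Icc (0 : ℝ) ε ∩ (fun η : ℝ => (1 - η) • vert t) ⁻¹' K) :=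
      isCompact_Icc.inter_right (hk.isClosed.preimage hcont)
    have hne : (Set.Icc (0 : ℝ) ε ∩ (fun η : ℝ => (1 - η) • vert t) ⁻¹' K).Nonempty := by
      refine ⟨ε, ⟨he0.le, le_rfl⟩, hin _ fun i => ?_⟩
      change |((1 - ε) • vert t) i| ≤ 1 - ε
      rw [Pi.smul_apply, smul_eq_mul, abs_mul, abs_vert, mul_one, abs_of_nonneg (by linarith)]
    obtain ⟨d, hd, hmin⟩ := hcomp.exists_isLeast hne
    refine ⟨d, hd.1.1, hd.1.2, hd.2, fun η h1 h2 hK => ?_⟩
    exact absurd (hmin ⟨⟨h1, h2.le.trans hd.1.2⟩, hK⟩) (not_le.2 h2)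
  choose D hD0 hDe hDK hDmin using hdt
  obtain ⟨s, _, hs⟩ := Finset.exists_max_image (Finset.univ : Finset (Finset ι)) D
    Finset.univ_nonempty
  have hvK : ∀ t : Finset ι, (1 - D s) • vert t ∈ K := by
    intro t
    have h1 : D t ≤ D s := hs t (Finset.mem_univ t)
    have h2 : 0 < 1 - D t := by linarith [hDe t]
    have h3 : 0 ≤ 1 - D s := by linarith [hDe s]
    have h4 := hc.smul_mem_of_zero_mem h0K (hDK t)
      (t := (1 - D s) / (1 - D t)) ⟨div_nonneg h3 h2.le, (div_le_one h2).2 (by linarith)⟩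
    rw [smul_smul, div_mul_cancel₀ _ h2.ne'] at h4
    exact h4
  have hint : (interior K).Nonempty := by
    refine ⟨0, mem_interior.2 ⟨Metric.ball 0 (1 - ε), fun x hx => hin x fun i => ?_,
      Metric.isOpen_ball, Metric.mem_ball_self (by linarith)⟩⟩
    rw [mem_ball_zero_iff] at hx
    have := norm_le_pi_norm x i
    rw [Real.norm_eq_abs] at this
    linarith
  have hinD : ∀ x : ι → ℝ, (∀ i, |x i| ≤ 1 - D s) → x ∈ K := by
    intro x hx
    by_contra hxK
    obtain ⟨w, f, hreg, hfw⟩ := exists_reg hc hk.isClosed hint hxK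
    set a : ι → ℝ := fun k => f (Pi.single k 1) with ha
    have hf : f = fn a := eq_fn f
    have h1 := hreg.2.1 _ (hvK (Finset.univ.filter fun k => 0 ≤ a k))
    rw [hf, map_smul, smul_eq_mul, fn_apply] at h1
    have h2 : ∑ k, a k * vert (Finset.univ.filter fun k => 0 ≤ a k) k = ∑ k, |a k| := by
      refine Finset.sum_congr rfl fun k _ => ?_
      unfold vert
      by_cases hk0 : 0 ≤ a k
      · simp [hk0, abs_of_nonneg hk0]
      · simp [hk0, abs_of_neg (not_le.1 hk0)]
    rw [h2] at h1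
    have h3 : fn a x ≤ (1 - D s) * ∑ k, |a k| := by
      rw [fn_apply, Finset.mul_sum]
      refine Finset.sum_le_sum fun k _ => ?_
      calc a k * x k ≤ |a k * x k| := le_abs_self _
        _ = |x k| * |a k| := by rw [abs_mul, mul_comm]
        _ ≤ (1 - D s) * |a k| := mul_le_mul_of_nonneg_right (hx k) (abs_nonneg _)
    rw [hf] at hfw
    linarith
  refine ⟨D s, ?_, hDe s, hinD, s, hDmin s⟩
  by_contra hcon
  push Not at hcon
  exact hnot fun x hx => hinD x fun i => (hx i).trans (by linarith)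

end Pool.Agent.Work.MP_80156a_loc
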