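import Pool.Agent.Work.MP_80156a_loc.Interface
import Pool.Agent.Work.MP_80156a_co.Transfer

/-!
# MP_80156a_co, local theorem: transfer to Euclidean space
-/

set_option autoImplicit false

namespace Pool.Agent.Work.MP_80156a_loc

open Pool.Agent.Work.MP_80156a_co
open scoped Topology
open Filter

/-- Helly's theorem for translates -/
theorem hp_helly {E : Type*} [AddCommGroup E] [Module ℝ E] [FiniteDimensional ℝ E] {K : Set E}
    (hc : Convex ℝ K) : HP K (Module.finrank ℝ E + 1) := by
  intro T hT
  have h1 : (⋂ t ∈ T, {x : E | x - t ∈ K}).Nonempty := by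
    refine Convex.helly_theorem' (𝕜 := ℝ) (s := T) (F := fun t => {x : E | x - t ∈ K})
      (fun t _ => ?_) fun I hI hcard => ?_
    · have h2 : {x : E | x - t ∈ K} = (fun x => -t + x) ⁻¹' K := by
        ext x
        simp only [Set.mem_ofPred_eq, Set.mem_preimage]
        rw [neg_add_eq_sub]
      rw [h2]
      exact hc.translate_preimage_right (-t)
    · obtain ⟨x, hx⟩ := hT I hI hcard
      exact ⟨x, Set.mem_iInter₂.2 fun t ht => hx t ht⟩
  obtain ⟨x, hx⟩ := h1
  exact ⟨x, fun t ht => Set.mem_iInter₂.1 hx t ht⟩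

section

variable {d : ℕ} {E : Type*} [NormedAddCommGroup E] [NormedSpace ℝ E] [FiniteDimensional ℝ E]

/-- the change of coordinates as a homeomorphism -/
noncomputable def chart (b : Module.Basis (Fin d) ℝ E) (o : E) : (Fin d → ℝ) ≃ₜ E :=
  (b.equivFun.symm.toContinuousLinearEquiv.toHomeomorph).trans (Homeomorph.addLeft o)

omit [FiniteDimensional ℝ E] in
theorem chart_apply (b : Module.Basis (Fin d) ℝ E) (o : E) (x : Fin d → ℝ) :
    chart b o x = o + b.equivFun.symm x := rfl

theorem coord_chart (b : Module.Basis (Fin d) ℝ E) (o : E) (x : Fin d → ℝ) (i : Fin d) :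
    b.repr (chart b o x - o) i = x i := by
  rw [chart_apply, add_sub_cancel_left]
  exact congrFun (b.equivFun.apply_symm_apply x) i

theorem chart_coord (b : Module.Basis (Fin d) ℝ E) (o z : E) :
    chart b o (fun i => b.repr (z - o) i) = z := by
  rw [chart_apply]
  have : b.equivFun.symm (fun i => b.repr (z - o) i) = z - o :=
    b.equivFun.symm_apply_apply (z - o)
  rw [this]
  abel

theorem chart_convex (b : Module.Basis (Fin d) ℝ E) (o : E) {K : Set E} (hc : Convex ℝ K) :
    Convex ℝ (chart b o ⁻¹' K) := by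
  intro x hx y hy α β hα hβ hαβ
  have h1 := hc hx hy hα hβ hαβ
  rw [Set.mem_preimage]
  have h2 : chart b o (α • x + β • y) = α • chart b o x + β • chart b o y := by
    rw [chart_apply, chart_apply, chart_apply, map_add, map_smul, map_smul, smul_add, smul_add]
    have : o = α • o + β • o := by rw [← add_smul, hαβ, one_smul]
    conv_lhs => rw [this]
    abel
  rw [h2]
  exact h1

theorem chart_hp (b : Module.Basis (Fin d) ℝ E) (o : E) {K : Set E} {n : ℕ} :
    HP (chart b o ⁻¹' K) n ↔ HP K n := by
  constructor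
  · intro h
    have h1 := HP.transfer h b.equivFun.toAddEquiv (-b.equivFun o)
    have h2 : {x : E | -b.equivFun o + b.equivFun.toAddEquiv x ∈ chart b o ⁻¹' K} = K := by
      ext x
      rw [Set.mem_ofPred_eq, Set.mem_preimage, chart_apply]
      have h3 : o + b.equivFun.symm (-b.equivFun o + b.equivFun.toAddEquiv x) = x := by
        have h4 : -b.equivFun o + b.equivFun.toAddEquiv x = b.equivFun (-o + x) := by
          rw [map_add, map_neg]; rfl
        rw [h4, LinearEquiv.symm_apply_apply]
        abel
      rw [h3]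
    rw [h2] at h1
    exact h1
  · intro h
    exact HP.transfer h b.equivFun.symm.toAddEquiv o

theorem chart_line (b : Module.Basis (Fin d) ℝ E) (o : E) (z : E) (t : ℝ) (v : Fin d → ℝ) :
    chart b o ((fun i => b.repr (z - o) i) + t • v) = z + t • b.equivFun.symm v := by
  have h1 := chart_coord b o z
  rw [chart_apply] at h1
  rw [chart_apply, map_add, map_smul]
  conv_rhs => rw [← h1]
  abel

end

theorem near_of_near {E : Type*} [NormedAddCommGroup E] [NormedSpace ℝ E] [FiniteDimensional ℝ E]
    {d : ℕ} (b : Module.Basis (Fin d) ℝ E) (o : E) {K : Set E} {N : ℕ}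
    (h : LitBy (chart b o ⁻¹' K) N) :
    ∃ L : Finset E, L.card ≤ N ∧ ∀ z ∈ K, ∃ v ∈ L, ∃ t : ℝ, 0 < t ∧ z + t • v ∈ interior K := by
  classical
  obtain ⟨L, hL, hLit⟩ := h
  refine ⟨L.image b.equivFun.symm, Finset.card_image_le.trans hL, fun z hz => ?_⟩
  have hz' : (fun i => b.repr (z - o) i) ∈ chart b o ⁻¹' K := by
    rw [Set.mem_preimage, chart_coord]; exact hz
  obtain ⟨v, hv, t, ht, h1⟩ := hLit _ hz'
  refine ⟨_, Finset.mem_image_of_mem _ hv, t, ht, ?_⟩
  rw [← (chart b o).preimage_interior, Set.mem_preimage, chart_line] at h1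
  exact h1

/-- the local theorem in a finite-dimensional space -/
theorem local_final (hM : Stmt_MAIN) (d : ℕ) (E : Type*) [NormedAddCommGroup E] [NormedSpace ℝ E]
    [FiniteDimensional ℝ E] (hdim : Module.finrank ℝ E = d) :
    ∃ ε : ℝ, 0 < ε ∧ ∀ (K : Set E) (b : Module.Basis (Fin d) ℝ E) (o : E), Convex ℝ K →
      IsCompact K → (∀ z, (∀ i, |b.repr (z - o) i| ≤ 1 - ε) → z ∈ K) →
      (∀ z ∈ K, ∀ i, |b.repr (z - o) i| ≤ 1) → ∀ h, 2 ≤ h → HP K (h + 1) → ¬ HP K h →
      ∃ L : Finset E, L.card ≤ 2 ^ d - 2 ^ (d - h) ∧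
        ∀ z ∈ K, ∃ v ∈ L, ∃ t : ℝ, 0 < t ∧ z + t • v ∈ interior K := by
  have h1 := fun h => hM (Fin d) h
  choose ε hε0 hε using h1
  obtain ⟨h0, -, hmin⟩ := Finset.exists_min_image (Finset.range (d + 1)) ε
    ⟨0, Finset.mem_range.2 (Nat.succ_pos d)⟩
  refine ⟨ε h0, hε0 h0, fun K b o hc hK hin hout h h2 hHP hnHP => ?_⟩
  have hhd : h ≤ d := by
    by_contra hlt
    push Not at hlt
    have h3 := hp_helly hc
    rw [hdim] at h3
    exact hnHP (h3.mono hlt)
  have hle : ε h0 ≤ ε h := hmin h (Finset.mem_range.2 (Nat.lt_succ_of_le hhd))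
  have h4 := hε h (chart b o ⁻¹' K) (chart_convex b o hc) ((chart b o).isCompact_preimage.2 hK)
    (fun x hx => ?_) (fun x hx i => ?_) ((chart_hp b o).2 hHP)
    (fun h5 => hnHP (((chart_hp b o).1 h5).mono h2))
  · rw [Fintype.card_fin] at h4
    exact near_of_near b o h4
  · refine hin _ fun i => ?_
    rw [coord_chart]
    exact (hx i).trans (by linarith)
  · have h6 := hout _ hx i
    rwa [coord_chart] at h6

/-- sharpness in a finite-dimensional space -/
theorem sharp_final (hA : Stmt_SHA) (hB : Stmt_SHB) (hC : Stmt_SHC) (d : ℕ) (E : Type*)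
    [NormedAddCommGroup E] [NormedSpace ℝ E] [FiniteDimensional ℝ E]
    (b : Module.Basis (Fin d) ℝ E) (h : ℕ) (h2 : 2 ≤ h) (hd : h ≤ d) (ε : ℝ) (hε : 0 < ε) :
    ∃ K : Set E, Convex ℝ K ∧ IsCompact K ∧ (interior K).Nonempty ∧
      (∀ z, (∀ i, |b.repr (z - 0) i| ≤ 1 - ε) → z ∈ K) ∧
      (∀ z ∈ K, ∀ i, |b.repr (z - 0) i| ≤ 1) ∧ HP K (h + 1) ∧ ¬ HP K h ∧
      ∀ L : Finset E, (∀ z ∈ frontier K, ∃ v ∈ L, ∃ t : ℝ, 0 < t ∧ z + t • v ∈ interior K) →
        2 ^ d - 2 ^ (d - h) ≤ L.card := by
  classical
  obtain ⟨S, -, hS⟩ := Finset.exists_subset_card_eq (s := (Finset.univ : Finset (Fin d))) (n := h)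
    (by rw [Finset.card_univ, Fintype.card_fin]; exact hd)
  set ε' : ℝ := min ε 1 with hε'
  have hε0 : 0 < ε' := lt_min hε one_pos
  have hε1 : ε' ≤ 1 := min_le_right _ _
  set M : Set (Fin d → ℝ) := cutCube S (S.card - ε') with hM
  have hSne : S.Nonempty := Finset.card_pos.1 (by omega)
  have hcard : (2 : ℝ) ≤ S.card := by rw [hS]; exact_mod_cast h2
  have hMclosed : IsClosed M := by
    have h3 : M = (⋂ i, {x : Fin d → ℝ | |x i| ≤ 1}) ∩ {x | ∑ k ∈ S, x k ≤ S.card - ε'} := by
      ext x
      simp only [hM, cutCube, Set.mem_ofPred_eq, Set.mem_inter_iff, Set.mem_iInter]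
    rw [h3]
    refine IsClosed.inter (isClosed_iInter fun i => ?_) ?_
    · exact isClosed_le (continuous_apply i).abs continuous_const
    · exact isClosed_le (continuous_finsetSum _ fun k _ => continuous_apply k) continuous_const
  have hMcomp : IsCompact M := by
    refine (isCompact_univ_pi fun _ : Fin d => isCompact_Icc (a := (-1 : ℝ)) (b := 1)).of_isClosed_subset
      hMclosed fun x hx i _ => abs_le.1 (hx.1 i)
  have hMconv : Convex ℝ M := by
    intro x hx y hy α β hα hβ hαβ
    refine ⟨fun i => ?_, ?_⟩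
    · have h3 := abs_le.1 (hx.1 i)
      have h4 := abs_le.1 (hy.1 i)
      simp only [Pi.add_apply, Pi.smul_apply, smul_eq_mul]
      rw [abs_le]
      constructor
      · nlinarith
      · nlinarith
    · simp only [Pi.add_apply, Pi.smul_apply, smul_eq_mul, Finset.sum_add_distrib,
        ← Finset.mul_sum]
      have h3 := hx.2
      have h4 := hy.2
      calc α * ∑ k ∈ S, x k + β * ∑ k ∈ S, y k
          ≤ α * (S.card - ε') + β * (S.card - ε') :=
            add_le_add (mul_le_mul_of_nonneg_left h3 hα) (mul_le_mul_of_nonneg_left h4 hβ)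
        _ = S.card - ε' := by rw [← add_mul, hαβ, one_mul]
  -- the open cube with the sum condition is open
  have hMint : {x : Fin d → ℝ | (∀ i, |x i| < 1) ∧ ∑ k ∈ S, x k < S.card - ε'} ⊆ interior M := by
    refine interior_maximal (fun x hx => ⟨fun i => (hx.1 i).le, hx.2.le⟩) ?_
    have h3 : {x : Fin d → ℝ | (∀ i, |x i| < 1) ∧ ∑ k ∈ S, x k < S.card - ε'} =
        (⋂ i, {x : Fin d → ℝ | |x i| < 1}) ∩ {x | ∑ k ∈ S, x k < S.card - ε'} := by
      ext x
      simp only [Set.mem_ofPred_eq, Set.mem_inter_iff, Set.mem_iInter]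
    rw [h3]
    refine IsOpen.inter (isOpen_iInter_of_finite fun i => ?_) ?_
    · exact isOpen_lt (continuous_apply i).abs continuous_const
    · exact isOpen_lt (continuous_finsetSum _ fun k _ => continuous_apply k) continuous_const
  have h0int : (0 : Fin d → ℝ) ∈ interior M := by
    refine hMint ⟨fun i => by simp, ?_⟩
    simp only [Pi.zero_apply, Finset.sum_const_zero]
    linarith
  set g := chart b (0 : E) with hg
  set K : Set E := g.symm ⁻¹' M with hK
  have hKM : g ⁻¹' K = M := by
    rw [hK, ← Set.preimage_comp]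
    have : (g.symm : E → Fin d → ℝ) ∘ g = id := by
      funext x; exact g.symm_apply_apply x
    rw [this, Set.preimage_id]
  have hKimg : K = g '' M := by rw [hK, ← g.image_eq_preimage_symm]
  have hKint : interior K = g.symm ⁻¹' interior M := by rw [hK, g.symm.preimage_interior]
  have hcoord : ∀ z : E, g.symm z = fun i => b.repr (z - 0) i := fun z => by
    rw [hg, Homeomorph.symm_apply_eq, chart_coord]
  refine ⟨K, ?_, ?_, ?_, ?_, ?_, ?_, ?_, ?_⟩
  · -- convexity
    intro x hx y hy α β hα hβ hαβ
    have h3 := hMconv hx hy hα hβ hαβ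
    rw [hK, Set.mem_preimage]
    have h4 : g.symm (α • x + β • y) = α • g.symm x + β • g.symm y := by
      rw [hcoord, hcoord, hcoord]
      funext i
      simp only [sub_zero, map_add, map_smul, Finsupp.coe_add, Finsupp.coe_smul, Pi.add_apply,
        Pi.smul_apply]
    rw [h4]
    exact h3
  · rw [hKimg]; exact hMcomp.image g.continuous
  · refine ⟨g 0, ?_⟩
    rw [hKint, Set.mem_preimage, g.symm_apply_apply]
    exact h0int
  · intro z hz
    rw [hK, Set.mem_preimage, hcoord]
    refine ⟨fun i => (hz i).trans (by linarith), ?_⟩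
    have h3 : ∀ k ∈ S, b.repr (z - 0) k ≤ 1 - ε' := fun k _ =>
      (le_abs_self _).trans ((hz k).trans (by linarith [min_le_left ε 1]))
    calc ∑ k ∈ S, b.repr (z - 0) k ≤ ∑ k ∈ S, (1 - ε') := Finset.sum_le_sum h3
      _ = S.card - S.card * ε' := by rw [Finset.sum_const, nsmul_eq_mul]; ring
      _ ≤ S.card - ε' := by nlinarith
  · intro z hz i
    rw [hK, Set.mem_preimage, hcoord] at hz
    exact hz.1 i
  · rw [← chart_hp b 0, ← hg, hKM, ← hS]
    exact hA (Fin d) S _ hSne
  · rw [← chart_hp b 0, ← hg, hKM, ← hS]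
    exact hB (Fin d) S ε' (by omega) hε0 hε1
  · intro L hL
    have h3 := hC (Fin d) S ε' hε0 hε1 (L.image b.equivFun) (fun z hz => ?_)
    · rw [Fintype.card_fin, hS] at h3
      exact h3.trans Finset.card_image_le
    · -- every point of `M` is lit
      have hline : ∀ (t : ℝ) (v : E), g.symm (g z + t • v) = z + t • b.equivFun v := by
        intro t v
        rw [Homeomorph.symm_apply_eq, hg, chart_apply, chart_apply, map_add, map_smul,
          LinearEquiv.symm_apply_apply]
        abel
      by_cases hzi : z ∈ interior M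
      · -- interior point
        have hLne : L.Nonempty := by
          -- some frontier point is lit
          have hne : (frontier K).Nonempty := by
            by_contra hcon
            rw [Set.not_nonempty_iff_eq_empty] at hcon
            have h4 : IsClopen K := by
              rw [isClopen_iff_frontier_eq_empty]
              exact hcon
            have : Nonempty (Fin d) := ⟨hSne.choose⟩
            have h5 : K = Set.univ := by
              rcases isClopen_iff.1 h4 with h6 | h6
              · exfalso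
                have : g 0 ∈ K := by
                  rw [hK, Set.mem_preimage, g.symm_apply_apply]; exact interior_subset h0int
                rw [h6] at this
                exact this
              · exact h6
            have h6 : g (fun _ => 2) ∈ K := by rw [h5]; exact Set.mem_univ _
            rw [hK, Set.mem_preimage, g.symm_apply_apply] at h6
            have h7 := h6.1 hSne.choose
            norm_num at h7
          obtain ⟨x, hx⟩ := hne
          obtain ⟨v, hv, -⟩ := hL x hx
          exact ⟨v, hv⟩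
        obtain ⟨v, hv⟩ := hLne
        refine ⟨b.equivFun v, Finset.mem_image_of_mem _ hv, ?_⟩
        have h4 : Tendsto (fun t : ℝ => z + t • b.equivFun v) (𝓝 0) (𝓝 (z + (0 : ℝ) • b.equivFun v)) :=
          (continuous_const.add (continuous_id.smul continuous_const)).tendsto 0
        rw [zero_smul, add_zero] at h4
        have h5 := h4.eventually (isOpen_interior.mem_nhds hzi)
        obtain ⟨r, hr, h6⟩ := Metric.eventually_nhds_iff.1 h5
        refine ⟨r / 2, by positivity, h6 ?_⟩
        rw [Real.dist_eq, sub_zero, abs_of_pos (by positivity)]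
        linarith
      · -- frontier point
        have hzK : g z ∈ frontier K := by
          rw [frontier, hKint]
          refine ⟨subset_closure ?_, ?_⟩
          · rw [hK, Set.mem_preimage, g.symm_apply_apply]; exact hz
          · rw [Set.mem_preimage, g.symm_apply_apply]; exact hzi
        obtain ⟨v, hv, t, ht, h4⟩ := hL _ hzK
        refine ⟨b.equivFun v, Finset.mem_image_of_mem _ hv, t, ht, ?_⟩
        rw [hKint, Set.mem_preimage, hline] at h4
        exact h4

end Pool.Agent.Work.MP_80156a_loc
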