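import Pool.Agent.Work.MP_80156a_loc.Interface

/-!
# MP_80156a_co, local theorem: block LIM1 (helper46)
-/

set_option autoImplicit false

namespace Pool.Agent.Work.MP_80156a_loc.LIM1ns

open Pool.Agent.Work.MP_80156a_co
open Pool.Agent.Work.MP_80156a_loc
open scoped Topology
open Filter

variable {ι : Type} [Fintype ι] [DecidableEq ι]

theorem fn_form (i : ι) (σ d : ℝ) (v x : ι → ℝ) :
    fn (σ • Pi.single i 1 + d • v) x = σ * x i + d * fn v x := by
  rw [fn_add, fn_smul, fn_smul]
  have h : fn (Pi.single i (1 : ℝ) : ι → ℝ) x = x i := by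
    rw [fn_apply, Finset.sum_eq_single i]
    · simp
    · intro b _ hb
      simp [hb]
    · intro hi
      exact absurd (Finset.mem_univ i) hi
  simp only [LinearMap.add_apply, LinearMap.smul_apply, smul_eq_mul, h]

theorem tendsto_fn {U : Ultrafilter ℕ} {v x : ℕ → ι → ℝ} {u x0 : ι → ℝ}
    (hv : Tendsto v U (𝓝 u)) (hx : Tendsto x U (𝓝 x0)) :
    Tendsto (fun n => fn (v n) (x n)) U (𝓝 (fn u x0)) := by
  have h1 : (fun n => fn (v n) (x n)) = fun n => ∑ k, v n k * x n k := by
    funext n
    rw [fn_apply]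
  rw [h1, fn_apply]
  refine tendsto_finsetSum _ fun k _ => ?_
  exact ((tendsto_pi_nhds.1 hv) k).mul ((tendsto_pi_nhds.1 hx) k)

/-- part (2) -/
theorem part2 (U : Ultrafilter ℕ) (h : ℕ) (K : ℕ → Set (ι → ℝ)) (δ : ℕ → ℝ)
    (hS : Sys U h K δ) (i : ι) (σ γ : ℝ) (u : ι → ℝ) (hL : Lim U K δ i σ γ u)
    (x : ℕ → ι → ℝ) (x0 : ι → ℝ) (r : ℝ) (hxK : ∀ᶠ n in (U : Filter ℕ), x n ∈ K n)
    (hx : Tendsto x U (𝓝 x0)) (hr : ∀ᶠ n in (U : Filter ℕ), 1 - δ n * r ≤ σ * x n i) :
    γ + fn u x0 ≤ r := by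
  obtain ⟨g, v, hg, hv, hreg⟩ := hL
  have hlim : Tendsto (fun n => g n + fn (v n) (x n)) U (𝓝 (γ + fn u x0)) :=
    hg.add (tendsto_fn hv hx)
  refine le_of_tendsto hlim ?_
  filter_upwards [hxK, hr, hreg] with n h1 h2 h3
  obtain ⟨_, w, hw, hval⟩ := h3
  have h4 : fn (σ • Pi.single i 1 + δ n • v n) (x n) ≤
      fn (σ • Pi.single i 1 + δ n • v n) w := hw.2.1 (x n) h1
  rw [hval, fn_form] at h4
  have h5 : δ n * (g n + fn (v n) (x n)) ≤ δ n * r := by
    rw [mul_add]
    linarith
  exact le_of_mul_le_mul_left h5 (hS.pos n)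

end Pool.Agent.Work.MP_80156a_loc.LIM1ns

namespace Pool.Agent.Work.MP_80156a_loc

open Pool.Agent.Work.MP_80156a_co
open scoped Topology
open Filter

theorem blk_LIM1 : Stmt_LIM1 := by
  intro ι _ _ U h K δ hS i σ γ u hσ hL
  have hu : u i = 0 := by
    obtain ⟨g, v, _, hv, hreg⟩ := hL
    have h1 : Tendsto (fun n => v n i) U (𝓝 (u i)) := (tendsto_pi_nhds.1 hv) i
    have h2 : Tendsto (fun n => v n i) U (𝓝 0) := by
      refine Tendsto.congr' ?_ tendsto_const_nhds
      filter_upwards [hreg] with n hn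
      exact hn.1.symm
    exact tendsto_nhds_unique h1 h2
  refine ⟨hu, fun x x0 r h1 h2 h3 => LIM1ns.part2 U h K δ hS i σ γ u hL x x0 r h1 h2 h3, ?_⟩
  intro x hx
  have hσ2 : σ * σ = 1 := by
    rcases hσ with rfl | rfl <;> norm_num
  -- the sequence
  have hseq : ∀ n, (Function.update ((1 - δ n) • x) i (σ * (1 - δ n))) ∈ K n := by
    intro n
    refine hS.inside n _ fun k => ?_
    have hd : 0 ≤ 1 - δ n := by
      have := hS.lt_one n
      linarith
    by_cases hk : k = i
    · rw [hk, Function.update_self, abs_mul]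
      have : |σ| = 1 := by
        rcases hσ with rfl | rfl <;> norm_num
      rw [this, one_mul, abs_of_nonneg hd]
    · rw [Function.update_of_ne hk, Pi.smul_apply, smul_eq_mul, abs_mul, abs_of_nonneg hd]
      have := hx k hk
      nlinarith
  have hlim : Tendsto (fun n => Function.update ((1 - δ n) • x) i (σ * (1 - δ n))) U
      (𝓝 (Function.update x i σ)) := by
    rw [tendsto_pi_nhds]
    intro k
    have hd : Tendsto (fun n => 1 - δ n) U (𝓝 (1 - 0)) := tendsto_const_nhds.sub hS.lim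
    rw [sub_zero] at hd
    by_cases hk : k = i
    · rw [hk]
      simp only [Function.update_self]
      have := hd.const_mul σ
      rwa [mul_one] at this
    · simp only [Function.update_of_ne hk, Pi.smul_apply, smul_eq_mul]
      have := hd.mul_const (x k)
      rwa [one_mul] at this
  have h2 := LIM1ns.part2 U h K δ hS i σ γ u hL
    (fun n => Function.update ((1 - δ n) • x) i (σ * (1 - δ n))) (Function.update x i σ) 1
    (Filter.Eventually.of_forall hseq) hlim (Filter.Eventually.of_forall fun n => by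
      simp only [Function.update_self, mul_one]
      rw [← mul_assoc, hσ2, one_mul])
  have h3 : fn u (Function.update x i σ) = fn u x := by
    rw [fn_apply, fn_apply]
    refine Finset.sum_congr rfl fun k _ => ?_
    by_cases hk : k = i
    · rw [hk, hu, zero_mul, zero_mul]
    · rw [Function.update_of_ne hk]
  rwa [h3] at h2

end Pool.Agent.Work.MP_80156a_loc
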