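import Pool.Agent.Work.MP_80156a_loc.Interface
import Pool.Agent.Work.MP_80156a_loc.Ult

/-!
# MP_80156a_co, local theorem: block LIM2
-/

set_option autoImplicit false
set_option linter.unusedSectionVars false

namespace Pool.Agent.Work.MP_80156a_loc

open Pool.Agent.Work.MP_80156a_co
open scoped Topology
open Filter

namespace LIM2Aux

variable {ι : Type} [Fintype ι] [DecidableEq ι]

theorem interior_nonempty {K : Set (ι → ℝ)} {δ : ℝ} (h1 : δ < 1)
    (hin : ∀ x : ι → ℝ, (∀ i, |x i| ≤ 1 - δ) → x ∈ K) : (interior K).Nonempty := by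
  refine ⟨0, ?_⟩
  have ho : IsOpen (Set.pi Set.univ fun _ : ι => Set.Ioo (-(1 - δ)) (1 - δ)) :=
    isOpen_set_pi Set.finite_univ fun _ _ => isOpen_Ioo
  have hs : (Set.pi Set.univ fun _ : ι => Set.Ioo (-(1 - δ)) (1 - δ)) ⊆ K := by
    intro x hx
    refine hin x fun i => ?_
    have h2 := hx i (Set.mem_univ i)
    exact abs_le.2 ⟨h2.1.le, h2.2.le⟩
  refine interior_maximal hs ho ?_
  intro i _
  simp only [Pi.zero_apply, Set.mem_Ioo]
  constructor <;> linarith

theorem fn_split (a x : ι → ℝ) (i : ι) :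
    fn a x = a i * x i + ∑ k ∈ Finset.univ.erase i, a k * x k := by
  rw [fn_apply, Finset.add_sum_erase Finset.univ (fun k => a k * x k) (Finset.mem_univ i)]

theorem reg_smul {K : Set (ι → ℝ)} {w : ι → ℝ} {f : (ι → ℝ) →ₗ[ℝ] ℝ} (h : Reg K w f) {t : ℝ}
    (ht : 0 < t) : Reg K w (t • f) := by
  refine ⟨h.1, fun z hz => ?_, fun ζ hζ => h.2.2 ζ ?_⟩
  · rw [LinearMap.smul_apply, LinearMap.smul_apply, smul_eq_mul, smul_eq_mul]
    exact mul_le_mul_of_nonneg_left (h.2.1 z hz) ht.le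
  · rw [LinearMap.smul_apply, smul_eq_mul] at hζ
    exact (pos_iff_neg_of_mul_neg hζ).1 ht

theorem one_body {K : Set (ι → ℝ)} (hc : Convex ℝ K) (hK : IsCompact K) {δ : ℝ} (h0 : 0 < δ)
    (h1 : δ < 1) (hin : ∀ x : ι → ℝ, (∀ i, |x i| ≤ 1 - δ) → x ∈ K) (i : ι) {σ : ℝ}
    (hσ : σ = 1 ∨ σ = -1) (y : ι → ℝ) {r c : ℝ} (hc0 : 0 < c) (hcδ : δ ≤ c / 4)
    (hδr : δ * (1 + |r|) < 1) (hy : ∀ k, k ≠ i → |y k| ≤ 1 - c / 2)
    (hz : Function.update y i (σ * (1 - δ * r)) ∉ K) :
    ∃ (g : ℝ) (v w : ι → ℝ), v i = 0 ∧ (∀ k, |v k| ≤ 4 / c * (1 + |r|)) ∧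
      |g| ≤ |r| + 4 / c * (1 + |r|) + 1 ∧ r < g + fn v y ∧
      Reg K w (fn (σ • Pi.single i 1 + δ • v)) ∧
      fn (σ • Pi.single i 1 + δ • v) w = 1 - δ * g := by
  obtain ⟨w, f, hr, hfw⟩ := exists_reg hc hK.isClosed (interior_nonempty h1 hin) hz
  set a : ι → ℝ := fun k => f (Pi.single k 1) with ha
  have hfa : f = fn a := eq_fn f
  set A : ℝ := ∑ k ∈ Finset.univ.erase i, |a k| with hA
  have hA0 : 0 ≤ A := Finset.sum_nonneg fun k _ => abs_nonneg _
  have hσσ : σ * σ = 1 := by rcases hσ with rfl | rfl <;> norm_num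
  -- lower bound for f w
  have hlow : (1 - δ) * (|a i| + A) ≤ f w := by
    have h2 := hr.2.1 (fun k => if 0 ≤ a k then 1 - δ else -(1 - δ)) (hin _ fun k => by
      by_cases hk : 0 ≤ a k
      · simp only [hk, if_true]; rw [abs_of_nonneg (by linarith)]
      · simp only [hk, if_false]; rw [abs_neg, abs_of_nonneg (by linarith)])
    rw [hfa, fn_split a _ i, ← hfa] at h2
    have h3 : ∀ k, a k * (if 0 ≤ a k then 1 - δ else -(1 - δ)) = (1 - δ) * |a k| := by
      intro k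
      by_cases hk : 0 ≤ a k
      · rw [if_pos hk, abs_of_nonneg hk, mul_comm]
      · rw [if_neg hk, abs_of_neg (not_le.1 hk)]; ring
    simp only [h3] at h2
    rw [← Finset.mul_sum] at h2
    linarith
  -- upper bound for f z
  have hzval : f (Function.update y i (σ * (1 - δ * r))) =
      a i * (σ * (1 - δ * r)) + ∑ k ∈ Finset.univ.erase i, a k * y k := by
    conv_lhs => rw [hfa]
    rw [fn_split a _ i, Function.update_self]
    congr 1
    refine Finset.sum_congr rfl fun k hk => ?_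
    rw [Function.update_of_ne (Finset.ne_of_mem_erase hk)]
  have hyb : ∑ k ∈ Finset.univ.erase i, a k * y k ≤ (1 - c / 2) * A := by
    rw [hA, Finset.mul_sum]
    refine Finset.sum_le_sum fun k hk => ?_
    have h2 := hy k (Finset.ne_of_mem_erase hk)
    calc a k * y k ≤ |a k * y k| := le_abs_self _
      _ = |a k| * |y k| := abs_mul _ _
      _ ≤ |a k| * (1 - c / 2) := mul_le_mul_of_nonneg_left h2 (abs_nonneg _)
      _ = (1 - c / 2) * |a k| := mul_comm _ _
  rw [hzval] at hfw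
  have hrabs : -|r| ≤ r ∧ r ≤ |r| := ⟨neg_abs_le r, le_abs_self r⟩
  have hkey : (1 - δ) * (|a i| + A) < a i * σ * (1 - δ * r) + (1 - c / 2) * A := by
    have h2 : a i * (σ * (1 - δ * r)) = a i * σ * (1 - δ * r) := by ring
    linarith
  have habs : |a i * σ| = |a i| := by
    rw [abs_mul]; rcases hσ with rfl | rfl <;> simp
  have hδr' : |δ * r| < 1 := by
    rw [abs_mul, abs_of_pos h0]
    nlinarith [abs_nonneg r]
  have hpos : 0 < a i * σ := by
    by_contra hneg
    push Not at hneg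
    have h2 : a i * σ = -|a i| := by rw [← habs, abs_of_nonpos hneg, neg_neg]
    rw [h2] at hkey
    have h3 : 0 ≤ |a i| * (1 - δ * r) :=
      mul_nonneg (abs_nonneg _) (by linarith [(abs_lt.1 hδr').2])
    have h4 : 0 ≤ |a i| * (1 - δ) := mul_nonneg (abs_nonneg _) (by linarith)
    have h5 : 0 ≤ (c / 2 - δ) * A := mul_nonneg (by linarith) hA0
    nlinarith
  have haσ : a i * σ = |a i| := by rw [← habs, abs_of_pos hpos]
  have hai : 0 < |a i| := by rw [← haσ]; exact hpos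
  rw [haσ] at hkey
  have hAle : c / 4 * A ≤ |a i| * (δ * (1 + |r|)) := by
    have h2 : (c / 2 - δ) * A < |a i| * (δ * (1 - r)) := by nlinarith
    have h3 : c / 4 * A ≤ (c / 2 - δ) * A := mul_le_mul_of_nonneg_right (by linarith) hA0
    have h4 : |a i| * (δ * (1 - r)) ≤ |a i| * (δ * (1 + |r|)) :=
      mul_le_mul_of_nonneg_left (mul_le_mul_of_nonneg_left (by linarith [hrabs.1]) h0.le)
        (abs_nonneg _)
    linarith
  set M : ℝ := 4 / c * (1 + |r|) with hM
  have hAM : A ≤ |a i| * δ * M := by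
    have h2 : A = 4 / c * (c / 4 * A) := by field_simp
    rw [h2]
    calc 4 / c * (c / 4 * A) ≤ 4 / c * (|a i| * (δ * (1 + |r|))) :=
          mul_le_mul_of_nonneg_left hAle (by positivity)
      _ = |a i| * δ * M := by rw [hM]; ring
  have hM0 : 0 ≤ M := by positivity
  set v : ι → ℝ := fun k => if k = i then 0 else a k / (|a i| * δ) with hv
  have hvi : v i = 0 := by simp [hv]
  have hd : 0 < |a i| * δ := mul_pos hai h0
  have hvsum : ∑ k ∈ Finset.univ.erase i, |v k| ≤ M := by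
    have h2 : ∑ k ∈ Finset.univ.erase i, |v k| = A / (|a i| * δ) := by
      rw [hA, Finset.sum_div]
      refine Finset.sum_congr rfl fun k hk => ?_
      rw [hv]
      simp only [if_neg (Finset.ne_of_mem_erase hk)]
      rw [abs_div, abs_of_pos hd]
    rw [h2, div_le_iff₀ hd]
    linarith
  have hvk : ∀ k, |v k| ≤ M := by
    intro k
    by_cases hk : k = i
    · rw [hk, hvi, abs_zero]; exact hM0
    · exact (Finset.single_le_sum (f := fun k => |v k|) (fun _ _ => abs_nonneg _)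
        (Finset.mem_erase.2 ⟨hk, Finset.mem_univ k⟩)).trans hvsum
  have hvec : σ • (Pi.single i 1 : ι → ℝ) + δ • v = |a i|⁻¹ • a := by
    funext k
    by_cases hk : k = i
    · subst hk
      rw [Pi.add_apply, Pi.smul_apply, Pi.smul_apply, Pi.smul_apply, Pi.single_eq_same, hvi,
        smul_eq_mul, smul_eq_mul, smul_eq_mul, mul_one, mul_zero, add_zero]
      rw [eq_comm, inv_mul_eq_iff_eq_mul₀ hai.ne', ← haσ, mul_assoc, hσσ, mul_one]
    · rw [Pi.add_apply, Pi.smul_apply, Pi.smul_apply, Pi.smul_apply, Pi.single_eq_of_ne hk,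
        smul_eq_mul, smul_eq_mul, smul_eq_mul, mul_zero, zero_add, hv]
      simp only [if_neg hk]
      field_simp
  have hfn : fn (σ • (Pi.single i 1 : ι → ℝ) + δ • v) = |a i|⁻¹ • f := by
    rw [hvec, fn_smul, ← hfa]
  set g : ℝ := (1 - f w / |a i|) / δ with hg
  have hgw : |a i|⁻¹ * f w = 1 - δ * g := by
    rw [hg]; field_simp; ring
  have hfnv : fn v y = (∑ k ∈ Finset.univ.erase i, a k * y k) / (|a i| * δ) := by
    rw [fn_split v y i, hvi, zero_mul, zero_add, Finset.sum_div]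
    refine Finset.sum_congr rfl fun k hk => ?_
    rw [hv]
    simp only [if_neg (Finset.ne_of_mem_erase hk)]
    ring
  have hgr : r < g + fn v y := by
    have h2 : f w / |a i| < 1 - δ * r + δ * fn v y := by
      rw [div_lt_iff₀ hai, hfnv]
      have h3 : a i * (σ * (1 - δ * r)) = |a i| * (1 - δ * r) := by rw [← haσ]; ring
      rw [h3] at hfw
      have h4 : δ * ((∑ k ∈ Finset.univ.erase i, a k * y k) / (|a i| * δ)) * |a i| =
          ∑ k ∈ Finset.univ.erase i, a k * y k := by field_simp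
      nlinarith
    have h5 : f w / |a i| = 1 - δ * g := by rw [← hgw]; ring
    rw [h5] at h2
    have h6 : δ * r < δ * (g + fn v y) := by linarith
    exact lt_of_mul_lt_mul_left h6 h0.le
  have hfnle : fn v y ≤ M := by
    rw [fn_split v y i, hvi, zero_mul, zero_add]
    refine le_trans (Finset.sum_le_sum fun k hk => ?_) hvsum
    calc v k * y k ≤ |v k * y k| := le_abs_self _
      _ = |v k| * |y k| := abs_mul _ _
      _ ≤ |v k| * 1 := mul_le_mul_of_nonneg_left
          ((hy k (Finset.ne_of_mem_erase hk)).trans (by linarith)) (abs_nonneg _)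
      _ = |v k| := mul_one _
  have hg1 : g ≤ 1 := by
    have h2 : 1 - δ ≤ 1 - δ * g := by
      rw [← hgw, inv_mul_eq_div, le_div_iff₀ hai]
      nlinarith [mul_nonneg (by linarith : (0:ℝ) ≤ 1 - δ) hA0]
    have h3 : δ * g ≤ δ * 1 := by linarith
    exact le_of_mul_le_mul_left h3 h0
  refine ⟨g, v, w, hvi, hvk, ?_, hgr, ?_, ?_⟩
  · rw [abs_le]
    constructor
    · linarith [hrabs.1]
    · linarith [abs_nonneg r]
  · rw [hfn]
    exact reg_smul hr (inv_pos.2 hai)
  · rw [hfn, LinearMap.smul_apply, smul_eq_mul, hgw]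

end LIM2Aux

open LIM2Aux

theorem blk_LIM2 : Stmt_LIM2 := by
  intro ι _ _ U h K δ hS i σ hσ y y0 r hy hop hz
  -- the constant c
  obtain ⟨c, hc0, hc1⟩ : ∃ c : ℝ, 0 < c ∧ ∀ k, k ≠ i → |y0 k| ≤ 1 - c := by
    have h1 : ∀ k, ∃ c : ℝ, 0 < c ∧ (k ≠ i → |y0 k| ≤ 1 - c) := fun k => by
      by_cases hk : k = i
      · exact ⟨1, one_pos, fun h => absurd hk h⟩
      · exact ⟨1 - |y0 k|, by linarith [hop k hk], fun _ => by linarith⟩
    choose c h2 h3 using h1
    have : Nonempty ι := ⟨i⟩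
    obtain ⟨m, -, hm⟩ := Finset.exists_min_image Finset.univ c Finset.univ_nonempty
    exact ⟨c m, h2 m, fun k hk => (h3 k hk).trans (by linarith [hm k (Finset.mem_univ k)])⟩
  set M : ℝ := 4 / c * (1 + |r|) with hM
  have hyk : ∀ k, k ≠ i → ∀ᶠ n in (U : Filter ℕ), |y n k| ≤ 1 - c / 2 := by
    intro k hk
    have h1 : Tendsto (fun n => |y n k|) U (𝓝 |y0 k|) := (tendsto_pi_nhds.1 hy k).abs
    have h2 : |y0 k| < 1 - c / 2 := by linarith [hc1 k hk]
    filter_upwards [h1.eventually (gt_mem_nhds h2)] with n hn using hn.le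
  have hyall : ∀ᶠ n in (U : Filter ℕ), ∀ k, k ≠ i → |y n k| ≤ 1 - c / 2 := by
    rw [eventually_all]
    intro k
    by_cases hk : k = i
    · exact Eventually.of_forall fun n h => absurd hk h
    · filter_upwards [hyk k hk] with n hn _ using hn
  have hδ1 : ∀ᶠ n in (U : Filter ℕ), δ n ≤ c / 4 := by
    filter_upwards [hS.lim.eventually (gt_mem_nhds (show (0:ℝ) < c / 4 by positivity))] with n hn
      using hn.le
  have hδ2 : ∀ᶠ n in (U : Filter ℕ), δ n * (1 + |r|) < 1 := by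
    have h1 : Tendsto (fun n => δ n * (1 + |r|)) U (𝓝 (0 * (1 + |r|))) := hS.lim.mul_const _
    rw [zero_mul] at h1
    exact h1.eventually (gt_mem_nhds one_pos)
  have hgood : ∀ n, ∃ (g : ℝ) (v w : ι → ℝ), ((∀ k, k ≠ i → |y n k| ≤ 1 - c / 2) ∧ δ n ≤ c / 4 ∧
      δ n * (1 + |r|) < 1 ∧ Function.update (y n) i (σ * (1 - δ n * r)) ∉ K n) →
      v i = 0 ∧ (∀ k, |v k| ≤ M) ∧ |g| ≤ |r| + M + 1 ∧ r < g + fn v (y n) ∧
      Reg (K n) w (fn (σ • Pi.single i 1 + δ n • v)) ∧
      fn (σ • Pi.single i 1 + δ n • v) w = 1 - δ n * g := by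
    intro n
    by_cases hn : (∀ k, k ≠ i → |y n k| ≤ 1 - c / 2) ∧ δ n ≤ c / 4 ∧
      δ n * (1 + |r|) < 1 ∧ Function.update (y n) i (σ * (1 - δ n * r)) ∉ K n
    · obtain ⟨g, v, w, h1⟩ := one_body (hS.conv n) (hS.comp n) (hS.pos n) (hS.lt_one n)
        (hS.inside n) i hσ (y n) hc0 hn.2.1 hn.2.2.1 hn.1 hn.2.2.2
      exact ⟨g, v, w, fun _ => h1⟩
    · exact ⟨0, 0, 0, fun h => absurd h hn⟩
  choose g v w hgvw using hgood
  have hev : ∀ᶠ n in (U : Filter ℕ), v n i = 0 ∧ (∀ k, |v n k| ≤ M) ∧ |g n| ≤ |r| + M + 1 ∧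
      r < g n + fn (v n) (y n) ∧ Reg (K n) (w n) (fn (σ • Pi.single i 1 + δ n • v n)) ∧
      fn (σ • Pi.single i 1 + δ n • v n) (w n) = 1 - δ n * g n := by
    filter_upwards [hyall, hδ1, hδ2, hz] with n h1 h2 h3 h4 using hgvw n ⟨h1, h2, h3, h4⟩
  obtain ⟨γ, hγ, -⟩ := exists_lim_real U (x := g) (M := |r| + M + 1)
    (by filter_upwards [hev] with n hn using hn.2.2.1)
  obtain ⟨u, hu, -⟩ := exists_lim U (x := v) (M := M)
    (by filter_upwards [hev] with n hn using hn.2.1)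
  refine ⟨γ, u, ⟨g, v, hγ, hu, ?_⟩, ?_⟩
  · filter_upwards [hev] with n hn using ⟨hn.1, w n, hn.2.2.2.2.1, hn.2.2.2.2.2⟩
  · have h1 : Tendsto (fun n => g n + fn (v n) (y n)) U (𝓝 (γ + fn u y0)) := by
      refine hγ.add ?_
      simp only [fn_apply]
      exact tendsto_finsetSum _ fun k _ =>
        (tendsto_pi_nhds.1 hu k).mul (tendsto_pi_nhds.1 hy k)
    exact ge_of_tendsto h1 (by filter_upwards [hev] with n hn using hn.2.2.2.1.le)

end Pool.Agent.Work.MP_80156a_loc
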