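import Pool.Agent.Work.MP_80156a_loc.Interface

/-!
# MP_80156a_co, local theorem: block MAIN (assembly)
-/

set_option autoImplicit false

namespace Pool.Agent.Work.MP_80156a_loc

open Pool.Agent.Work.MP_80156a_co
open scoped Topology
open Filter

namespace MainAux

/-- monotonicity of `HP` in the number of translates -/
theorem hp_mono {E : Type*} [AddCommGroup E] {K : Set E} {m n : ℕ} (h : HP K m) (hmn : m ≤ n) :
    HP K n := fun T hT => h T fun S hS hc => hT S hS (hc.trans hmn)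

/-- the cube `[-1, 1] ^ ι` has Helly dimension at most one -/
theorem hp_cube {ι : Type*} [Fintype ι] {K : Set (ι → ℝ)}
    (hsub : ∀ z ∈ K, ∀ i, |z i| ≤ 1)
    (hfull : ∀ z : ι → ℝ, (∀ i, |z i| ≤ 1) → z ∈ K) : HP K 2 := by
  classical
  intro T hT
  rcases T.eq_empty_or_nonempty with rfl | hne
  · exact ⟨0, by simp⟩
  have hmax : ∀ i, ∃ t ∈ T, ∀ t' ∈ T, t' i ≤ t i := fun i =>
    T.exists_max_image (fun t => t i) hne
  choose m hm hmax using hmax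
  refine ⟨fun i => m i i - 1, fun t ht => hfull _ fun i => ?_⟩
  have h0 := hmax i t ht
  obtain ⟨y, hy⟩ := hT {m i, t} (by
    intro s hs
    rcases Finset.mem_insert.1 hs with rfl | hs
    · exact hm i
    · rw [Finset.mem_singleton.1 hs]; exact ht) Finset.card_le_two
  have h1 := abs_le.1 (hsub _ (hy (m i) (Finset.mem_insert_self _ _)) i)
  have h2 := abs_le.1 (hsub _ (hy t (Finset.mem_insert_of_mem (Finset.mem_singleton_self t))) i)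
  simp only [Pi.sub_apply] at h1 h2 ⊢
  rw [abs_le]
  constructor <;> linarith [h1.1, h1.2, h2.1, h2.2]

theorem eps_pos (n : ℕ) : (0 : ℝ) < 1 / (16 * ((n : ℝ) + 2)) := by positivity

theorem eps_le (n : ℕ) : (1 : ℝ) / (16 * ((n : ℝ) + 2)) ≤ 1 / 32 := by
  have : (0 : ℝ) ≤ n := Nat.cast_nonneg n
  exact one_div_le_one_div_of_le (by norm_num) (by linarith)

theorem tendsto_eps {U : Ultrafilter ℕ} (hU : (U : Filter ℕ) ≤ atTop) :
    Tendsto (fun n : ℕ => 8 * ((1 : ℝ) / (16 * ((n : ℝ) + 2)))) U (𝓝 0) := by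
  refine Tendsto.mono_left ?_ hU
  have h1 : Tendsto (fun n : ℕ => (1 : ℝ) / (n : ℝ)) atTop (𝓝 0) := tendsto_one_div_atTop_nhds_zero_nat
  refine squeeze_zero' (Eventually.of_forall fun n => ?_) ?_ h1
  · have := eps_pos n
    linarith
  · filter_upwards [eventually_gt_atTop 0] with n hn
    have hn' : (0 : ℝ) < n := by exact_mod_cast hn
    have h2 : 8 * ((1 : ℝ) / (16 * ((n : ℝ) + 2))) = 1 / (2 * ((n : ℝ) + 2)) := by
      field_simp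
      norm_num
    rw [h2]
    exact one_div_le_one_div_of_le hn' (by linarith)

/-- a normalised counterexample for every `n` -/
theorem normalised (hN : Stmt_NORM) (hE : Stmt_EXTR) (hT : Stmt_TRANS) (ι : Type) [Fintype ι]
    [DecidableEq ι] (h : ℕ) (K : Set (ι → ℝ)) (ε : ℝ) (hε : 0 < ε) (hε1 : ε ≤ 1 / 32)
    (hconv : Convex ℝ K) (hcomp : IsCompact K)
    (hin : ∀ x : ι → ℝ, (∀ i, |x i| ≤ 1 - ε) → x ∈ K) (hout : ∀ x ∈ K, ∀ i, |x i| ≤ 1)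
    (hhp : HP K (h + 1)) (hnhp : ¬ HP K 2) (N : ℕ) (hlit : ¬ LitBy K N) :
    ∃ (K' : Set (ι → ℝ)) (δ : ℝ), Convex ℝ K' ∧ IsCompact K' ∧ 0 < δ ∧ δ ≤ 8 * ε ∧
      (∀ x : ι → ℝ, (∀ i, |x i| ≤ 1 - δ) → x ∈ K') ∧ (∀ x ∈ K', ∀ i, |x i| ≤ 1) ∧
      (∃ s : Finset ι, ∀ η : ℝ, 0 ≤ η → η < δ → (1 - η) • vert s ∉ K') ∧
      (∀ i, ∃ p q : ι → ℝ, p ∈ K' ∧ q ∈ K' ∧ p i = -1 ∧ q i = 1 ∧
        ∀ k, k ≠ i → |q k - p k| ≤ 8 * ε) ∧ HP K' (h + 1) ∧ ¬ LitBy K' N := by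
  obtain ⟨A, o, h1, h2, h3⟩ := hN ι K ε hconv hcomp hε (by linarith) hin hout
  obtain ⟨t1, t2, t3, t4, t5⟩ := hT ι A o K
  obtain ⟨δ, d1, d2, d3, d4⟩ := hE ι {x | o + A x ∈ K} (8 * ε) (t1 hconv) (t2 hcomp) (by linarith)
    h2 h1 (fun hc => hnhp (t4 2 (hp_cube h1 hc)))
  exact ⟨{x | o + A x ∈ K}, δ, t1 hconv, t2 hcomp, d1, d2, d3, h1, d4, h3, t3 _ hhp,
    fun hc => hlit (t5 N hc)⟩

end MainAux

open MainAux in
theorem blk_MAIN (hN : Stmt_NORM) (hE : Stmt_EXTR) (hT : Stmt_TRANS) (hA : Stmt_CASEA)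
    (hB : Stmt_CASEB) : Stmt_MAIN := by
  intro ι _ _ h
  by_contra hcon
  push Not at hcon
  have h1 : ∀ n : ℕ, ∃ (K' : Set (ι → ℝ)) (δ : ℝ), Convex ℝ K' ∧ IsCompact K' ∧ 0 < δ ∧
      δ ≤ 8 * ((1 : ℝ) / (16 * ((n : ℝ) + 2))) ∧
      (∀ x : ι → ℝ, (∀ i, |x i| ≤ 1 - δ) → x ∈ K') ∧ (∀ x ∈ K', ∀ i, |x i| ≤ 1) ∧
      (∃ s : Finset ι, ∀ η : ℝ, 0 ≤ η → η < δ → (1 - η) • vert s ∉ K') ∧
      (∀ i, ∃ p q : ι → ℝ, p ∈ K' ∧ q ∈ K' ∧ p i = -1 ∧ q i = 1 ∧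
        ∀ k, k ≠ i → |q k - p k| ≤ 8 * ((1 : ℝ) / (16 * ((n : ℝ) + 2)))) ∧ HP K' (h + 1) ∧
      ¬ LitBy K' (2 ^ Fintype.card ι - 2 ^ (Fintype.card ι - h)) := by
    intro n
    obtain ⟨K, c1, c2, c3, c4, c5, c6, c7⟩ := hcon _ (eps_pos n)
    exact normalised hN hE hT ι h K _ (eps_pos n) (eps_le n) c1 c2 c3 c4 c5 c6 _ c7
  choose K δ k1 k2 k3 k4 k5 k6 k7 k8 k9 k10 using h1
  choose p q p1 p2 p3 p4 p5 using k8
  set U : Ultrafilter ℕ := hyperfilter ℕ with hUdef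
  have hU : (U : Filter ℕ) ≤ atTop := by
    rw [hUdef]; exact Nat.hyperfilter_le_atTop
  have hlim := tendsto_eps hU
  have hsys : Sys U h K δ := by
    refine ⟨k1, k2, k3, fun n => ?_, ?_, k5, k6, k7, fun i => ?_, k9⟩
    · have a1 := k4 n
      have a2 := eps_le n
      linarith
    · exact squeeze_zero (fun n => (k3 n).le) k4 hlim
    · refine ⟨fun n => p n i, fun n => q n i, fun n => p1 n i, fun n => p2 n i, fun n => p3 n i,
        fun n => p4 n i, fun k hk => ?_⟩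
      exact squeeze_zero_norm (fun n => by rw [Real.norm_eq_abs]; exact p5 n i k hk) hlim
  by_cases hrel : ∃ i γ u γ' u', Rel U K δ i γ u γ' u'
  · obtain ⟨i, hr⟩ := hrel
    obtain ⟨n, hn⟩ := (hA ι U h K δ hsys i hr).exists
    exact k10 n hn
  · push Not at hrel
    obtain ⟨n, hn⟩ := (hB ι U h K δ hsys hrel).exists
    exact k10 n hn

end Pool.Agent.Work.MP_80156a_loc
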