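import Pool.Agent.Work.MP_80156a_loc.Interface
import Pool.Agent.Work.MP_80156a_loc.Ult

/-!
# MP_80156a_co, local theorem: block MERGED (helper46)
-/

set_option autoImplicit false

namespace Pool.Agent.Work.MP_80156a_loc.MERGEDns

open Pool.Agent.Work.MP_80156a_co
open Pool.Agent.Work.MP_80156a_loc
open scoped Topology
open Filter

theorem vert_sq {ι : Type} [DecidableEq ι] (t : Finset ι) (k : ι) :
    (vert t k = 1 ∨ vert t k = -1) := by
  unfold vert
  split_ifs
  · exact Or.inl rfl
  · exact Or.inr rfl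

/-- a coordinate in `V` -/
theorem termV (b x y : ℝ) (hx : b * x = |b|) (hy : |y| < 1) (hb : b ≠ 0) : b * (y - x) < 0 := by
  have h1 : b * y ≤ |b| * |y| := by
    rw [← abs_mul]
    exact le_abs_self _
  have h2 : 0 < |b| := abs_pos.2 hb
  have h3 : |b| * |y| < |b| * 1 := mul_lt_mul_of_pos_left hy h2
  rw [mul_sub, hx]
  linarith

/-- a coordinate outside `V` -/
theorem termJ (b x v : ℝ) (hx : b * x = |b|) (hv : v = 1 ∨ v = -1) (hxv : 0 ≤ x * v)
    (hb : b ≠ 0) : b * (-v / 2) < 0 := by
  have h2 : 0 < |b| := abs_pos.2 hb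
  have h3 : 0 < b * x := by rw [hx]; exact h2
  rcases hv with rfl | rfl
  · have hx0 : 0 ≤ x := by linarith
    have hb0 : 0 < b := by
      by_contra hcon
      push Not at hcon
      have := mul_nonpos_of_nonpos_of_nonneg hcon hx0
      linarith
    linarith
  · have hx0 : x ≤ 0 := by linarith
    have hb0 : b < 0 := by
      by_contra hcon
      push Not at hcon
      have := mul_nonpos_of_nonneg_of_nonpos hcon hx0
      linarith
    linarith

theorem half_bound (x v : ℝ) (hx : |x| ≤ 1) (hv : v = 1 ∨ v = -1) (hxv : 0 ≤ x * v) :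
    |x + -v / 2| < 1 := by
  rw [abs_le] at hx
  rw [abs_lt]
  rcases hv with rfl | rfl
  · constructor <;> linarith [hx.1, hx.2]
  · constructor <;> linarith [hx.1, hx.2]

end Pool.Agent.Work.MP_80156a_loc.MERGEDns

namespace Pool.Agent.Work.MP_80156a_loc

open Pool.Agent.Work.MP_80156a_co
open scoped Topology
open Filter

theorem blk_MERGED (hN : Stmt_NRM) (hP1 : Stmt_PHI1) (hP2 : Stmt_PHI2) : Stmt_MERGED := by
  intro ι _ _ U h K δ hS i V B t hiV θ a hθ hA y hyO hy x x0 hxK hx hx0V hx0J
  rcases eventually_or_not U (fun n => Lit (K n) (x n) (fun k =>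
      if k = i then δ n * a else if k ∈ V then y k - vert B k else -vert t k / 2)) with hl | hl
  · exact hl
  exfalso
  obtain ⟨_, _, _, a4, _, _⟩ := hP1 ι U h K δ hS i 1 (Or.inl rfl)
  obtain ⟨_, _, _, b4, _, _⟩ := hP1 ι U h K δ hS i (-1) (Or.inr rfl)
  obtain ⟨p1, p2, _⟩ := hP2 ι U h K δ hS i
  -- bounds for the limit point
  have hx0 : ∀ k, |x0 k| ≤ 1 := by
    intro k
    have h1 : Tendsto (fun n => |x n k|) U (𝓝 |x0 k|) := ((tendsto_pi_nhds.1 hx) k).abs
    exact le_of_tendsto h1 (Filter.Eventually.of_forall fun n => hS.outside n (x n) (hxK n) k)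
  have hCl : Cl i x0 := fun k _ => hx0 k
  have hD : Tendsto (fun (n : ℕ) (k : ι) =>
      if k = i then δ n * a else if k ∈ V then y k - vert B k else -vert t k / 2) U
      (𝓝 (fun k => if k = i then 0 else if k ∈ V then y k - vert B k else -vert t k / 2)) := by
    rw [tendsto_pi_nhds]
    intro k
    by_cases hk : k = i
    · simp only [hk, if_true]
      have := hS.lim.mul_const a
      rwa [zero_mul] at this
    · simp only [hk, if_false]
      exact tendsto_const_nhds
  obtain ⟨b, b0, hb, hsum, hbx, hbD, hev⟩ := hN ι U h K δ hS x _ x0 _ hxK hx hD hl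
  -- the limit normal is supported on i
  have hneg : ∀ k, k ≠ i → b0 k ≠ 0 → b0 k * (if k = i then 0 else if k ∈ V then y k - vert B k
      else -vert t k / 2) < 0 := by
    intro k hk hbk
    rw [if_neg hk]
    by_cases hkV : k ∈ V
    · rw [if_pos hkV, ← hx0V k hkV]
      exact MERGEDns.termV _ _ _ (hbx k) (hyO k hk) hbk
    · rw [if_neg hkV]
      exact MERGEDns.termJ _ _ _ (hbx k) (MERGEDns.vert_sq t k) (hx0J k hkV hk) hbk
  have hnonpos : ∀ k ∈ (Finset.univ : Finset ι), b0 k * (if k = i then 0 else if k ∈ V then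
      y k - vert B k else -vert t k / 2) ≤ 0 := by
    intro k _
    by_cases hk : k = i
    · rw [if_pos hk, mul_zero]
    · by_cases hbk : b0 k = 0
      · rw [hbk, zero_mul]
      · exact (hneg k hk hbk).le
  have hzero : ∀ k, k ≠ i → b0 k = 0 := by
    intro k hk
    by_contra hbk
    have h1 := Finset.sum_lt_sum (s := (Finset.univ : Finset ι)) (g := fun _ => (0 : ℝ)) hnonpos
      ⟨k, Finset.mem_univ k, hneg k hk hbk⟩
    rw [Finset.sum_const_zero] at h1
    linarith
  have habs : |b0 i| = 1 := by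
    rw [← hsum]
    symm
    refine Finset.sum_eq_single i (fun k _ hk => ?_) (fun hi => absurd (Finset.mem_univ i) hi)
    rw [hzero k hk, abs_zero]
  have hσ : b0 i = 1 ∨ b0 i = -1 := by
    rcases abs_choice (b0 i) with hc | hc
    · left; rw [hc] at habs; exact habs
    · right; rw [hc] at habs; linarith
  set σ := b0 i with hσdef
  have hσ2 : σ * σ = 1 := by
    rcases hσ with h1 | h1 <;> rw [h1] <;> norm_num
  -- low bound
  have hlow := p1 σ hσ x x0 (Phi U K δ i σ x0 - θ / 100) (Filter.Eventually.of_forall hxK) hx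
    (by linarith)
  -- up bound
  have hYlim : Tendsto (fun n => x n + fun k => if k = i then δ n * a else if k ∈ V then
      y k - vert B k else -vert t k / 2) U
      (𝓝 (x0 + fun k => if k = i then 0 else if k ∈ V then y k - vert B k else -vert t k / 2)) :=
    hx.add hD
  have hYO : Op i (x0 + fun k => if k = i then 0 else if k ∈ V then y k - vert B k
      else -vert t k / 2) := by
    intro k hk
    rw [Pi.add_apply, if_neg hk]
    by_cases hkV : k ∈ V
    · rw [if_pos hkV, hx0V k hkV]
      have h1 : vert B k + (y k - vert B k) = y k := by ring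
      rw [h1]
      exact hyO k hk
    · rw [if_neg hkV]
      exact MERGEDns.half_bound _ _ (hx0 k) (MERGEDns.vert_sq t k) (hx0J k hkV hk)
  have hYC : Cl i (x0 + fun k => if k = i then 0 else if k ∈ V then y k - vert B k
      else -vert t k / 2) := fun k hk => (hYO k hk).le
  have hYsum := hy _ hYC (fun k hk => by
    have hki : k ≠ i := fun hki => hiV (hki ▸ hk)
    rw [Pi.add_apply, if_neg hki, if_pos hk, hx0V k hk]
    ring)
  have hYphi : Phi U K δ i σ (x0 + fun k => if k = i then 0 else if k ∈ V then y k - vert B k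
      else -vert t k / 2) < θ / 100 := by
    have h1 := a4 _ hYC
    have h2 := b4 _ hYC
    rcases hσ with h3 | h3
    · rw [h3]; linarith
    · rw [h3]; linarith
  have hup := p2 σ hσ _ _ (θ / 100) hYlim hYO hYphi
  -- positivity of beta
  have hβ : Tendsto (fun n => σ * b n i) U (𝓝 (σ * σ)) := ((tendsto_pi_nhds.1 hb) i).const_mul σ
  rw [hσ2] at hβ
  have hβpos : ∀ᶠ n in (U : Filter ℕ), 0 < σ * b n i := hβ.eventually_const_lt one_pos
  obtain ⟨n, hn1, hn2, hn3, hn4⟩ := (hlow.and (hup.and (hβpos.and hev))).exists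
  obtain ⟨hn5, hn6⟩ := hn4
  have hz := hn5 _ hn2
  rw [← Finset.add_sum_erase _ _ (Finset.mem_univ i)] at hz
  rw [← Finset.add_sum_erase _ (fun k => b n k * x n k) (Finset.mem_univ i)] at hz
  rw [← Finset.add_sum_erase _ _ (Finset.mem_univ i)] at hn6
  rw [Function.update_self] at hz
  rw [if_pos rfl] at hn6
  have he : ∑ k ∈ Finset.univ.erase i, b n k * (Function.update (x n + fun k => if k = i then
      δ n * a else if k ∈ V then y k - vert B k else -vert t k / 2) i
      (σ * (1 - δ n * (θ / 100)))) k =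
      ∑ k ∈ Finset.univ.erase i, b n k * x n k +
      ∑ k ∈ Finset.univ.erase i, b n k * (if k = i then δ n * a else if k ∈ V then
        y k - vert B k else -vert t k / 2) := by
    rw [← Finset.sum_add_distrib]
    refine Finset.sum_congr rfl fun k hk => ?_
    rw [Function.update_of_ne (Finset.ne_of_mem_erase hk), Pi.add_apply, mul_add]
  rw [he] at hz
  set S := ∑ k ∈ Finset.univ.erase i, b n k * (if k = i then δ n * a else if k ∈ V then
        y k - vert B k else -vert t k / 2) with hSdef
  set X := ∑ k ∈ Finset.univ.erase i, b n k * x n k with hXdef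
  have hdp := hS.pos n
  have hzz : b n i * (σ * (1 - δ n * (θ / 100))) + S ≤ b n i * x n i := by linarith
  set β := σ * b n i with hβdef
  have hbi : b n i = σ * β := by
    rw [hβdef, ← mul_assoc, hσ2, one_mul]
  have e1 : b n i * (σ * (1 - δ n * (θ / 100))) = β * (1 - δ n * (θ / 100)) := by
    rw [hβdef]; ring
  have e2 : b n i * x n i = β * (σ * x n i) := by
    rw [hbi]; ring
  have e3 : b n i * (δ n * a) = (β * δ n) * (σ * a) := by
    rw [hbi]; ring
  rw [e1, e2] at hzz
  rw [e3] at hn6
  have h5 : β * (σ * x n i) < β * (1 - δ n * (Phi U K δ i σ x0 - θ / 100)) :=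
    mul_lt_mul_of_pos_left hn1 hn3
  have h6 : 0 < β * δ n := mul_pos hn3 hdp
  have h7 : (β * δ n) * (-(σ * a)) < (β * δ n) * (θ / 50 - Phi U K δ i σ x0) := by
    have e4 : (β * δ n) * (θ / 50 - Phi U K δ i σ x0) =
        β * (1 - δ n * (Phi U K δ i σ x0 - θ / 100)) - β * (1 - δ n * (θ / 100)) := by ring
    rw [e4, mul_neg]
    linarith
  have h8 : -(σ * a) < θ / 50 - Phi U K δ i σ x0 := lt_of_mul_lt_mul_left h7 h6.le
  obtain ⟨hA1, hA2⟩ := hA x0 hCl hx0V hx0J
  rcases hσ with h9 | h9
  · rw [h9] at h8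
    linarith
  · rw [h9] at h8
    linarith

end Pool.Agent.Work.MP_80156a_loc
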