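import Pool.Agent.Work.MP_80156a_loc.Interface

/-!
# MP_80156a_co, local theorem: block NORM
-/

set_option autoImplicit false
set_option linter.unusedSectionVars false

namespace Pool.Agent.Work.MP_80156a_loc

open Pool.Agent.Work.MP_80156a_co
open scoped Topology
open Filter

namespace NORMAux

variable {ι : Type} [Fintype ι] [DecidableEq ι]

theorem fn_split (a x : ι → ℝ) (i : ι) :
    fn a x = a i * x i + ∑ k ∈ Finset.univ.erase i, a k * x k := by
  rw [fn_apply, Finset.add_sum_erase Finset.univ (fun k => a k * x k) (Finset.mem_univ i)]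

/-- dominance -/
theorem dom (f x : ι → ℝ) (m : ι) {ε : ℝ} (h1 : f m = 1)
    (hs : ∑ k ∈ Finset.univ.erase m, |f k| ≤ 2 * ε) (hm : ∀ k, |x k| ≤ |x m|) :
    (1 - 2 * ε) * |x m| ≤ |fn f x| := by
  have h2 : |∑ k ∈ Finset.univ.erase m, f k * x k| ≤ 2 * ε * |x m| := by
    refine (Finset.abs_sum_le_sum_abs _ _).trans ?_
    refine le_trans (Finset.sum_le_sum (g := fun k => |f k| * |x m|) fun k _ => ?_) ?_
    · rw [abs_mul]
      exact mul_le_mul_of_nonneg_left (hm k) (abs_nonneg _)
    · rw [← Finset.sum_mul]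
      exact mul_le_mul_of_nonneg_right hs (abs_nonneg _)
  rw [fn_split f x m, h1, one_mul]
  have h3 : |x m| ≤ |x m + ∑ k ∈ Finset.univ.erase m, f k * x k| +
      |∑ k ∈ Finset.univ.erase m, f k * x k| := by
    calc |x m| = |(x m + ∑ k ∈ Finset.univ.erase m, f k * x k) -
          ∑ k ∈ Finset.univ.erase m, f k * x k| := by rw [add_sub_cancel_right]
      _ ≤ _ := abs_sub _ _
  linarith

theorem exists_max [Nonempty ι] (x : ι → ℝ) : ∃ m, ∀ k, |x k| ≤ |x m| := by
  obtain ⟨m, -, hm⟩ := Finset.exists_max_image Finset.univ (fun k => |x k|) Finset.univ_nonempty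
  exact ⟨m, fun k => hm k (Finset.mem_univ k)⟩

end NORMAux

open NORMAux

theorem blk_NORM (hCHORD : Stmt_CHORD) : Stmt_NORM := by
  intro ι _ _ K ε hc hK h0 h1 hin hout
  choose f p lam hf1 hp hpl hl1 hl2 hrange hsum using
    hCHORD ι K ε hc hK h0 (by linarith) hin hout
  have hlam : ∀ i, 0 < lam i := fun i => by nlinarith [hl1 i]
  have h2l : ∀ i, 1 ≤ 2 / lam i := fun i => by rw [le_div_iff₀ (hlam i)]; linarith [hl2 i]
  have h2l' : ∀ i, (1 - ε) * (2 / lam i) ≤ 1 := fun i => by
    rw [mul_div_assoc', div_le_one (hlam i)]; linarith [hl1 i]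
  set M : (ι → ℝ) →ₗ[ℝ] (ι → ℝ) := LinearMap.pi fun i => (2 / lam i) • fn (f i) with hM
  have hMa : ∀ x i, M x i = 2 / lam i * fn (f i) x := fun x i => by
    rw [hM, LinearMap.pi_apply, LinearMap.smul_apply, smul_eq_mul]
  have hMdom : ∀ x m, (∀ k, |x k| ≤ |x m|) → (1 - 2 * ε) * |x m| ≤ |M x m| := by
    intro x m hm
    rw [hMa, abs_mul, abs_of_pos (show (0 : ℝ) < 2 / lam m by linarith [h2l m])]
    have h2 := dom (f m) x m (hf1 m) (hsum m) hm
    have h3 : 1 * |fn (f m) x| ≤ 2 / lam m * |fn (f m) x| :=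
      mul_le_mul_of_nonneg_right (h2l m) (abs_nonneg _)
    linarith
  have hinj : Function.Injective M := by
    rw [injective_iff_map_eq_zero]
    intro x hx
    by_contra hne
    obtain ⟨j, hj⟩ : ∃ j, x j ≠ 0 := by
      by_contra hcon
      push Not at hcon
      exact hne (funext hcon)
    have : Nonempty ι := ⟨j⟩
    obtain ⟨m, hm⟩ := exists_max x
    have h2 := hMdom x m hm
    rw [hx, Pi.zero_apply, abs_zero] at h2
    have h3 : 0 < |x m| := lt_of_lt_of_le (abs_pos.2 hj) (hm j)
    nlinarith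
  set E := LinearEquiv.ofInjectiveEndo M hinj with hE
  have hEa : ∀ x, E x = M x := fun x => by
    rw [hE, LinearEquiv.coe_ofInjectiveEndo]
  set b : ι → ℝ := fun i => 2 / lam i * fn (f i) (p i) + 1 with hb
  have hME : ∀ x, M (E.symm b + E.symm x) = b + x := fun x => by
    rw [← hEa, map_add, LinearEquiv.apply_symm_apply, LinearEquiv.apply_symm_apply]
  have hsol : ∀ z, E.symm b + E.symm (M z - b) = z := fun z => by
    rw [← map_add, add_sub_cancel, ← hEa, LinearEquiv.symm_apply_apply]
  -- the shift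
  have hbb : ∀ i, |b i| * (1 - ε) ≤ ε := by
    intro i
    have hfc : ∀ s : ℝ, (s = 1 - ε ∨ s = -(1 - ε)) → fn (f i) (p i) ≤ s * ∑ k, |f i k| ∧
        s * ∑ k, |f i k| ≤ fn (f i) (p i) + lam i := by
      intro s hs
      have hsa : |s| ≤ 1 - ε := by
        rcases hs with rfl | rfl
        · rw [abs_of_nonneg (by linarith)]
        · rw [abs_neg, abs_of_nonneg (by linarith)]
      have h2 := hrange i (fun k => if 0 ≤ f i k then s else -s) (hin _ fun k => by
        by_cases hk : 0 ≤ f i k
        · simp only [hk, if_true]; exact hsa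
        · simp only [hk, if_false]; rw [abs_neg]; exact hsa)
      have h3 : fn (f i) (fun k => if 0 ≤ f i k then s else -s) = s * ∑ k, |f i k| := by
        rw [fn_apply, Finset.mul_sum]
        refine Finset.sum_congr rfl fun k _ => ?_
        by_cases hk : 0 ≤ f i k
        · rw [if_pos hk, abs_of_nonneg hk, mul_comm]
        · rw [if_neg hk, abs_of_neg (not_le.1 hk)]; ring
      rw [h3] at h2
      exact h2
    have hge : 1 ≤ ∑ k, |f i k| := by
      have h2 := Finset.single_le_sum (f := fun k => |f i k|) (fun k _ => abs_nonneg _)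
        (Finset.mem_univ i)
      rw [hf1 i, abs_one] at h2
      exact h2
    have h3 := (hfc (1 - ε) (Or.inl rfl)).2
    have h4 := (hfc (-(1 - ε)) (Or.inr rfl)).1
    have h5 : 1 - ε ≤ (1 - ε) * ∑ k, |f i k| := by nlinarith
    have h6 : |fn (f i) (p i) + lam i / 2| ≤ ε := by
      rw [abs_le]
      constructor
      · linarith [hl2 i]
      · linarith [hl2 i]
    have h7 : b i = 2 / lam i * (fn (f i) (p i) + lam i / 2) := by
      rw [hb]; field_simp [(hlam i).ne']
    rw [h7, abs_mul, abs_of_pos (show (0 : ℝ) < 2 / lam i by linarith [h2l i])]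
    calc 2 / lam i * |fn (f i) (p i) + lam i / 2| * (1 - ε)
        = ((1 - ε) * (2 / lam i)) * |fn (f i) (p i) + lam i / 2| := by ring
      _ ≤ 1 * ε := mul_le_mul (h2l' i) h6 (abs_nonneg _) zero_le_one
      _ = ε := one_mul _
  refine ⟨E.symm, E.symm b, ?_, ?_, ?_⟩
  · intro x hx i
    have h2 := hrange i _ hx
    have h3 : b i + x i = 2 / lam i * fn (f i) (E.symm b + E.symm x) := by
      rw [← hMa, hME, Pi.add_apply]
    have h4 : x i = 2 / lam i * (fn (f i) (E.symm b + E.symm x) - fn (f i) (p i)) - 1 := by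
      rw [mul_sub, ← h3, hb]; ring
    have h5 : 2 / lam i * (fn (f i) (E.symm b + E.symm x) - fn (f i) (p i)) ≤
        2 / lam i * lam i := mul_le_mul_of_nonneg_left (by linarith [h2.2]) (by linarith [h2l i])
    have h6 : 0 ≤ 2 / lam i * (fn (f i) (E.symm b + E.symm x) - fn (f i) (p i)) :=
      mul_nonneg (by linarith [h2l i]) (by linarith [h2.1])
    rw [div_mul_cancel₀ _ (hlam i).ne'] at h5
    rw [abs_le]
    constructor <;> linarith
  · intro x hx
    refine hin _ fun j => ?_
    have : Nonempty ι := ⟨j⟩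
    obtain ⟨m, hm⟩ := exists_max (E.symm b + E.symm x)
    refine (hm j).trans ?_
    have h2 := hMdom _ m hm
    rw [hME, show (b + x) m = b m + x m from rfl] at h2
    have h3 : |b m + x m| ≤ |b m| + |x m| := abs_add_le _ _
    have h4 := hx m
    have h5 := hbb m
    have h6 : |b m| ≤ 2 * ε := by
      have h7 : |b m| * (1 / 2) ≤ |b m| * (1 - ε) :=
        mul_le_mul_of_nonneg_left (by linarith) (abs_nonneg _)
      linarith
    have h8 : (1 - 2 * ε) * |(E.symm b + E.symm x) m| ≤ 1 - 6 * ε := by linarith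
    by_contra hcon
    push Not at hcon
    have h9 : (1 - 2 * ε) * (1 - ε) < (1 - 2 * ε) * |(E.symm b + E.symm x) m| :=
      mul_lt_mul_of_pos_left hcon (by linarith)
    nlinarith
  · intro i
    refine ⟨M (p i) - b, M (p i + lam i • Pi.single i 1) - b, ?_, ?_, ?_, ?_, ?_⟩
    · rw [hsol]; exact hp i
    · rw [hsol]; exact hpl i
    · rw [Pi.sub_apply, hMa, hb]; ring
    · rw [Pi.sub_apply, map_add, Pi.add_apply, hMa, hMa, hb, map_smul, smul_eq_mul]
      have h2 : fn (f i) (Pi.single i 1) = 1 := by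
        rw [fn_apply, Finset.sum_eq_single i]
        · rw [hf1 i, Pi.single_eq_same, mul_one]
        · intro k _ hk
          rw [Pi.single_eq_of_ne hk, mul_zero]
        · intro h; exact absurd (Finset.mem_univ i) h
      rw [h2]
      have h3 := (hlam i).ne'
      field_simp
      ring
    · intro k hk
      have h2 : fn (f k) (Pi.single i 1) = f k i := by
        rw [fn_apply, Finset.sum_eq_single i]
        · rw [Pi.single_eq_same, mul_one]
        · intro l _ hl
          rw [Pi.single_eq_of_ne hl, mul_zero]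
        · intro h; exact absurd (Finset.mem_univ i) h
      have h3 : (M (p i + lam i • Pi.single i 1) - b) k - (M (p i) - b) k =
          2 / lam k * (lam i * f k i) := by
        rw [Pi.sub_apply, Pi.sub_apply, map_add, Pi.add_apply, hMa, hMa, map_smul, smul_eq_mul, h2]
        ring
      rw [h3, abs_mul, abs_mul, abs_of_pos (show (0 : ℝ) < 2 / lam k by linarith [h2l k]),
        abs_of_pos (hlam i)]
      have h4 : |f k i| ≤ 2 * ε :=
        (Finset.single_le_sum (f := fun l => |f k l|) (fun _ _ => abs_nonneg _)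
          (Finset.mem_erase.2 ⟨Ne.symm hk, Finset.mem_univ i⟩)).trans (hsum k)
      have h5 : 2 / lam k ≤ 2 := by
        rw [div_le_iff₀ (hlam k)]
        nlinarith [hl1 k]
      calc 2 / lam k * (lam i * |f k i|) ≤ 2 * (2 * (2 * ε)) := by
            refine mul_le_mul h5 (mul_le_mul (hl2 i) h4 (abs_nonneg _) (by norm_num)) ?_
              (by norm_num)
            exact mul_nonneg (hlam i).le (abs_nonneg _)
        _ = 8 * ε := by ring

end Pool.Agent.Work.MP_80156a_loc
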