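import Pool.Agent.Work.MP_80156a_loc.Interface
import Pool.Agent.Work.MP_80156a_loc.Ult

/-!
# MP_80156a_co, local theorem: block NRM
-/

set_option autoImplicit false

namespace Pool.Agent.Work.MP_80156a_loc

open Pool.Agent.Work.MP_80156a_co
open scoped Topology
open Filter

namespace NRM

theorem interior_nonempty {ι : Type} [Fintype ι] {K : Set (ι → ℝ)} {δ : ℝ} (hδ : δ < 1)
    (h : ∀ x : ι → ℝ, (∀ i, |x i| ≤ 1 - δ) → x ∈ K) : (interior K).Nonempty := by
  have h0 : 0 < 1 - δ := by linarith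
  refine ⟨0, interior_maximal (s := K) (t := Metric.ball (0 : ι → ℝ) (1 - δ)) ?_ Metric.isOpen_ball
    (Metric.mem_ball_self h0)⟩
  intro x hx
  rw [mem_ball_zero_iff] at hx
  refine h x fun i => ?_
  have h1 : ‖x i‖ ≤ ‖x‖ := norm_le_pi_norm x i
  rw [Real.norm_eq_abs] at h1
  linarith

theorem normal {ι : Type} [Fintype ι] {K : Set (ι → ℝ)} (hc : Convex ℝ K)
    (hi : (interior K).Nonempty) {z v : ι → ℝ} (hz : z ∈ K) (hl : ¬ Lit K z v) :
    ∃ b : ι → ℝ, (∑ k, |b k| = 1) ∧ (∀ z' ∈ K, ∑ k, b k * z' k ≤ ∑ k, b k * z k) ∧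
      0 ≤ ∑ k, b k * v k := by
  obtain ⟨a, ha0, ha1, ha2⟩ := exists_normal hc hi hz hl
  have hs : 0 < ∑ k, |a k| := by
    obtain ⟨k, hk⟩ := Function.ne_iff.1 ha0
    exact lt_of_lt_of_le (abs_pos.2 hk)
      (Finset.single_le_sum (f := fun k => |a k|) (fun i _ => abs_nonneg _) (Finset.mem_univ k))
  set s := ∑ k, |a k| with hsdef
  have hmul : ∀ y : ι → ℝ, ∑ k, s⁻¹ * a k * y k = s⁻¹ * ∑ k, a k * y k := fun y => by
    rw [Finset.mul_sum]
    exact Finset.sum_congr rfl fun k _ => by ring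
  refine ⟨fun k => s⁻¹ * a k, ?_, fun z' hz' => ?_, ?_⟩
  · have h1 : ∀ k, |s⁻¹ * a k| = s⁻¹ * |a k| := fun k => by
      rw [abs_mul, abs_of_pos (inv_pos.2 hs)]
    rw [Finset.sum_congr rfl fun k _ => h1 k, ← Finset.mul_sum, ← hsdef, inv_mul_cancel₀ hs.ne']
  · rw [hmul, hmul]
    exact mul_le_mul_of_nonneg_left (ha1 z' hz') (inv_pos.2 hs).le
  · rw [hmul]
    exact mul_nonneg (inv_pos.2 hs).le ha2

end NRM

theorem blk_NRM : Stmt_NRM := by
  intro ι _ _ U h K δ hS x D x0 D0 hx hx0 hD0 hl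
  have hex : ∀ n, ∃ b : ι → ℝ, (∀ k, |b k| ≤ 1) ∧ (¬ Lit (K n) (x n) (D n) →
      (∑ k, |b k| = 1) ∧ (∀ z ∈ K n, ∑ k, b k * z k ≤ ∑ k, b k * x n k) ∧
        0 ≤ ∑ k, b k * D n k) := by
    intro n
    by_cases hn : Lit (K n) (x n) (D n)
    · exact ⟨0, fun k => by simp, fun h => absurd hn h⟩
    · obtain ⟨b, h1, h2, h3⟩ := NRM.normal (hS.conv n)
        (NRM.interior_nonempty (hS.lt_one n) (hS.inside n)) (hx n) hn
      refine ⟨b, fun k => ?_, fun _ => ⟨h1, h2, h3⟩⟩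
      rw [← h1]
      exact Finset.single_le_sum (f := fun k => |b k|) (fun i _ => abs_nonneg _)
        (Finset.mem_univ k)
  choose b hb1 hb using hex
  obtain ⟨b0, hb0, -⟩ := exists_lim U (x := b) (M := 1) (Filter.Eventually.of_forall hb1)
  have hev : ∀ᶠ n in (U : Filter ℕ), (∑ k, |b n k| = 1) ∧
      (∀ z ∈ K n, ∑ k, b n k * z k ≤ ∑ k, b n k * x n k) ∧ 0 ≤ ∑ k, b n k * D n k := by
    filter_upwards [hl] with n hn using hb n hn
  have hbk : ∀ k, Tendsto (fun n => b n k) U (𝓝 (b0 k)) := fun k => (tendsto_pi_nhds.1 hb0) k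
  have hxk : ∀ k, Tendsto (fun n => x n k) U (𝓝 (x0 k)) := fun k => (tendsto_pi_nhds.1 hx0) k
  have hDk : ∀ k, Tendsto (fun n => D n k) U (𝓝 (D0 k)) := fun k => (tendsto_pi_nhds.1 hD0) k
  have hsum : ∑ k, |b0 k| = 1 := by
    have h1 : Tendsto (fun n => ∑ k, |b n k|) U (𝓝 (∑ k, |b0 k|)) :=
      tendsto_finsetSum _ fun k _ => (hbk k).abs
    have h2 : Tendsto (fun n => ∑ k, |b n k|) U (𝓝 1) :=
      tendsto_const_nhds.congr' (by filter_upwards [hev] with n hn using hn.1.symm)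
    exact tendsto_nhds_unique h1 h2
  have hx1 : ∀ k, |x0 k| ≤ 1 := fun k =>
    le_of_tendsto (hxk k).abs (Filter.Eventually.of_forall fun n => hS.outside n _ (hx n) k)
  have hterm : ∀ k, b0 k * x0 k ≤ |b0 k| := fun k => by
    calc b0 k * x0 k ≤ |b0 k * x0 k| := le_abs_self _
      _ = |b0 k| * |x0 k| := abs_mul _ _
      _ ≤ |b0 k| * 1 := mul_le_mul_of_nonneg_left (hx1 k) (abs_nonneg _)
      _ = |b0 k| := mul_one _
  set sg : ι → ℝ := fun k => if 0 ≤ b0 k then 1 else -1 with hsg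
  have hsg1 : ∀ k, |sg k| = 1 := fun k => by
    simp only [hsg]; split_ifs <;> simp
  have hsg2 : ∀ k, b0 k * sg k = |b0 k| := fun k => by
    simp only [hsg]
    split_ifs with h1
    · rw [abs_of_nonneg h1, mul_one]
    · rw [abs_of_neg (not_le.1 h1)]; ring
  have hle : ∑ k, |b0 k| ≤ ∑ k, b0 k * x0 k := by
    have h1 : Tendsto (fun n => ∑ k, b n k * ((1 - δ n) * sg k)) U
        (𝓝 (∑ k, b0 k * ((1 - 0) * sg k))) := by
      refine tendsto_finsetSum _ fun k _ => (hbk k).mul ?_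
      exact (tendsto_const_nhds.sub hS.lim).mul tendsto_const_nhds
    have h2 : Tendsto (fun n => ∑ k, b n k * x n k) U (𝓝 (∑ k, b0 k * x0 k)) :=
      tendsto_finsetSum _ fun k _ => (hbk k).mul (hxk k)
    have h3 : ∑ k, b0 k * ((1 - 0) * sg k) = ∑ k, |b0 k| := by
      refine Finset.sum_congr rfl fun k _ => ?_
      rw [sub_zero, one_mul, hsg2]
    rw [h3] at h1
    refine le_of_tendsto_of_tendsto h1 h2 ?_
    filter_upwards [hev] with n hn
    refine hn.2.1 (fun k => (1 - δ n) * sg k) (hS.inside n _ fun k => ?_)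
    rw [abs_mul, hsg1, mul_one, abs_of_pos (by linarith [hS.lt_one n])]
  refine ⟨b, b0, hb0, hsum, ?_, ?_, ?_⟩
  · have heq : ∑ k, b0 k * x0 k = ∑ k, |b0 k| :=
      le_antisymm (Finset.sum_le_sum fun k _ => hterm k) hle
    have := (Finset.sum_eq_sum_iff_of_le fun k (_ : k ∈ Finset.univ) => hterm k).1 heq
    exact fun k => this k (Finset.mem_univ k)
  · have h1 : Tendsto (fun n => ∑ k, b n k * D n k) U (𝓝 (∑ k, b0 k * D0 k)) :=
      tendsto_finsetSum _ fun k _ => (hbk k).mul (hDk k)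
    exact ge_of_tendsto h1 (by filter_upwards [hev] with n hn using hn.2.2)
  · filter_upwards [hev] with n hn using hn.2

end Pool.Agent.Work.MP_80156a_loc
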