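import Pool.Agent.Work.MP_80156a_loc.Interface
import Pool.Agent.Work.MP_80156a_loc.Ult

/-!
# MP_80156a_co, local theorem: block PHI1
-/

set_option autoImplicit false

namespace Pool.Agent.Work.MP_80156a_loc

open Pool.Agent.Work.MP_80156a_co
open scoped Topology
open Filter

namespace PHI1Aux

variable {ι : Type} [Fintype ι] [DecidableEq ι] {U : Ultrafilter ℕ} {h : ℕ}
  {K : ℕ → Set (ι → ℝ)} {δ : ℕ → ℝ} {i : ι} {σ : ℝ}

theorem near_neg (hLIM2 : Stmt_LIM2) (hS : Sys U h K δ) (hσ : σ = 1 ∨ σ = -1) {x : ι → ℝ}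
    (hx : Op i x) {ρ : ℝ} (hρ : 0 < ρ) : ∃ γ u, Lim U K δ i σ γ u ∧ -ρ ≤ γ + fn u x := by
  refine hLIM2 ι U h K δ hS i σ hσ (fun _ => x) x (-ρ) tendsto_const_nhds hx ?_
  refine Filter.Eventually.of_forall fun n hmem => ?_
  have h1 := hS.outside n _ hmem i
  rw [Function.update_self, abs_mul] at h1
  have h2 : |σ| = 1 := by rcases hσ with rfl | rfl <;> norm_num
  have h3 : 0 < δ n * ρ := mul_pos (hS.pos n) hρ
  rw [h2, one_mul, mul_neg, sub_neg_eq_add, abs_of_pos (by linarith)] at h1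
  linarith

end PHI1Aux

open PHI1Aux

theorem blk_PHI1 (hLIM1 : Stmt_LIM1) (hLIM2 : Stmt_LIM2) : Stmt_PHI1 := by
  intro ι _ _ U h K δ hS i σ hσ
  have hex : ∃ γ u, Lim U K δ i σ γ u := by
    obtain ⟨γ, u, hL, -⟩ := near_neg hLIM2 hS hσ (x := fun _ => 0) (i := i)
      (fun k _ => by simp) one_pos
    exact ⟨γ, u, hL⟩
  have hbdd : ∀ x, Cl i x → BddAbove {r | ∃ γ u, Lim U K δ i σ γ u ∧ r = γ + fn u x} := by
    intro x hx
    refine ⟨1, ?_⟩
    rintro r ⟨γ, u, hL, rfl⟩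
    exact (hLIM1 ι U h K δ hS i σ γ u hσ hL).2.2 x hx
  have hle : ∀ γ u x, Lim U K δ i σ γ u → Cl i x → γ + fn u x ≤ Phi U K δ i σ x :=
    fun γ u x hL hx => le_csSup (hbdd x hx) ⟨γ, u, hL, rfl⟩
  have hPle : ∀ x r, (∀ γ u, Lim U K δ i σ γ u → γ + fn u x ≤ r) → Phi U K δ i σ x ≤ r := by
    intro x r H
    obtain ⟨γ, u, hL⟩ := hex
    refine csSup_le ⟨_, γ, u, hL, rfl⟩ ?_
    rintro r' ⟨γ', u', hL', rfl⟩
    exact H γ' u' hL'
  refine ⟨hex, hle, hPle, fun x hx => ?_, fun x hx => ?_, fun x y a b hx hy ha hb hab => ?_⟩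
  · -- nonnegative
    by_contra hneg
    push Not at hneg
    set P := Phi U K δ i σ x with hP
    -- choose `t` close to `1`
    set e : ℝ := min (-P / 8) (1 / 2) with he
    have he0 : 0 < e := lt_min (by linarith) (by norm_num)
    have he1 : e ≤ 1 / 2 := min_le_right _ _
    have he2 : e ≤ -P / 8 := min_le_left _ _
    have hop : Op i ((1 - e) • x) := by
      intro k hk
      rw [Pi.smul_apply, smul_eq_mul, abs_mul, abs_of_pos (by linarith)]
      have h1 := hx k hk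
      have h2 := abs_nonneg (x k)
      nlinarith
    obtain ⟨γ, u, hL, h1⟩ := near_neg hLIM2 hS hσ hop he0
    have h2 := hle γ u x hL hx
    have h3 := (hLIM1 ι U h K δ hS i σ γ u hσ hL).2.2 (fun _ => 0) (fun k _ => by simp)
    have h4 : fn u (fun _ : ι => (0 : ℝ)) = 0 := by rw [fn_apply]; simp
    rw [h4, add_zero] at h3
    rw [map_smul, smul_eq_mul] at h1
    -- `-e ≤ γ + (1 - e) fn u x`
    have h5 : -e ≤ e * γ + (1 - e) * (γ + fn u x) := by linarith
    have h6 : e * γ ≤ e * 1 := mul_le_mul_of_nonneg_left h3 he0.le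
    have h7 : (1 - e) * (γ + fn u x) ≤ (1 - e) * P :=
      mul_le_mul_of_nonneg_left h2 (by linarith)
    have h8 : (1 - e) * P ≤ (1 / 2) * P := by nlinarith
    linarith
  · exact hPle x 1 fun γ u hL => (hLIM1 ι U h K δ hS i σ γ u hσ hL).2.2 x hx
  · refine hPle _ _ fun γ u hL => ?_
    have h1 := hle γ u x hL hx
    have h2 := hle γ u y hL hy
    rw [map_add, map_smul, map_smul, smul_eq_mul, smul_eq_mul]
    have h3 : γ = a * γ + b * γ := by rw [← add_mul, hab, one_mul]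
    have h4 := mul_le_mul_of_nonneg_left h1 ha
    have h5 := mul_le_mul_of_nonneg_left h2 hb
    linarith

end Pool.Agent.Work.MP_80156a_loc
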