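import Pool.Agent.Work.MP_80156a_loc.Interface

/-!
# MP_80156a_co, local theorem: block SHA
-/

set_option autoImplicit false

namespace Pool.Agent.Work.MP_80156a_loc

open Pool.Agent.Work.MP_80156a_co
open scoped Topology
open Filter

theorem blk_SHA : Stmt_SHA := by
  intro ι _ _ S c hS T hT
  classical
  rcases T.eq_empty_or_nonempty with rfl | hne
  · exact ⟨0, by simp⟩
  have hmax : ∀ k : ι, ∃ t ∈ T, ∀ t' ∈ T, t' k ≤ t k := fun k =>
    T.exists_max_image (fun t => t k) hne
  choose m hm hmax using hmax
  have hS1 : 1 ≤ S.card := Finset.card_pos.2 hS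
  refine ⟨fun k => m k k - 1, fun t ht => ⟨fun k => ?_, ?_⟩⟩
  · obtain ⟨y, hy⟩ := hT {m k, t} (by
      intro s hs
      rcases Finset.mem_insert.1 hs with rfl | hs
      · exact hm k
      · rw [Finset.mem_singleton.1 hs]; exact ht)
      (Finset.card_le_two.trans (by omega))
    have h1 := (hy (m k) (Finset.mem_insert_self _ _)).1 k
    have h2 := (hy t (Finset.mem_insert_of_mem (Finset.mem_singleton_self t))).1 k
    have h3 := hmax k t ht
    simp only [Pi.sub_apply, abs_le] at h1 h2 ⊢
    constructor <;> linarith
  · obtain ⟨y, hy⟩ := hT (insert t (S.image m)) (by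
      intro s hs
      rcases Finset.mem_insert.1 hs with rfl | hs
      · exact ht
      · obtain ⟨k, -, rfl⟩ := Finset.mem_image.1 hs
        exact hm k)
      ((Finset.card_insert_le _ _).trans (Nat.succ_le_succ Finset.card_image_le))
    have h1 := (hy t (Finset.mem_insert_self _ _)).2
    refine le_trans (Finset.sum_le_sum fun k hk => ?_) h1
    have h2 := (hy (m k) (Finset.mem_insert_of_mem (Finset.mem_image_of_mem m hk))).1 k
    simp only [Pi.sub_apply, abs_le] at h2 ⊢
    linarith

end Pool.Agent.Work.MP_80156a_loc
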