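import Pool.Agent.Work.MP_80156a_loc.Interface

/-!
# MP_80156a_co, local theorem: block SHB (the cut cube has Helly dimension at least `|S|`)
-/

set_option autoImplicit false
set_option linter.unusedSectionVars false

namespace Pool.Agent.Work.MP_80156a_loc

open Pool.Agent.Work.MP_80156a_co
open scoped Topology
open Filter

namespace SHBAux

variable {ι : Type} [Fintype ι] [DecidableEq ι]

/-- the functionals -/
noncomputable def ff (S : Finset ι) : Option {k // k ∈ S} → (ι → ℝ) →ₗ[ℝ] ℝ
  | none => ∑ k ∈ S, LinearMap.proj (R := ℝ) (φ := fun _ : ι => ℝ) k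
  | some k => -LinearMap.proj (R := ℝ) (φ := fun _ : ι => ℝ) k.1

/-- the regular points -/
noncomputable def ww (S : Finset ι) (ε : ℝ) : Option {k // k ∈ S} → ι → ℝ
  | none => fun k => if k ∈ S then 1 - ε / S.card else 0
  | some k => fun l => if l = k.1 then -1 else 0

/-- the vectors -/
noncomputable def zz (S : Finset ι) : Option {k // k ∈ S} → ι → ℝ
  | none => fun _ => 1
  | some k => fun l => if l = k.1 then -(S.card : ℝ) else 1

theorem ff_none (S : Finset ι) (x : ι → ℝ) : ff S none x = ∑ k ∈ S, x k := by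
  simp [ff, LinearMap.sum_apply]

theorem ff_some (S : Finset ι) (k : {k // k ∈ S}) (x : ι → ℝ) : ff S (some k) x = -x k.1 := by
  simp [ff]

theorem abs_le_sum (ζ : ι → ℝ) (k : ι) : |ζ k| ≤ ∑ l, |ζ l| :=
  Finset.single_le_sum (f := fun l => |ζ l|) (fun l _ => abs_nonneg (ζ l)) (Finset.mem_univ k)

theorem sum_le_sum_abs (S : Finset ι) (ζ : ι → ℝ) : ∑ k ∈ S, ζ k ≤ ∑ l, |ζ l| :=
  (Finset.sum_le_sum fun k _ => le_abs_self (ζ k)).trans
    (Finset.sum_le_sum_of_subset_of_nonneg (Finset.subset_univ S) fun l _ _ => abs_nonneg (ζ l))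

theorem reg (S : Finset ι) (ε : ℝ) (hS : 2 ≤ S.card) (h0 : 0 < ε) (h1 : ε ≤ 1)
    (a : Option {k // k ∈ S}) : Reg (cutCube S (S.card - ε)) (ww S ε a) (ff S a) := by
  have hn : (2 : ℝ) ≤ S.card := by exact_mod_cast hS
  have hn0 : (0 : ℝ) < S.card := by linarith
  have hη0 : 0 < ε / S.card := by positivity
  have hη1 : ε / S.card ≤ 1 / 2 := by
    rw [div_le_iff₀ hn0]
    linarith
  cases a with
  | none =>
    have hsum : ∑ k ∈ S, ww S ε none k = S.card - ε := by
      have h2 : ∑ k ∈ S, ww S ε none k = ∑ _k ∈ S, (1 - ε / S.card) :=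
        Finset.sum_congr rfl fun k hk => by simp [ww, hk]
      rw [h2, Finset.sum_const, nsmul_eq_mul]
      field_simp
    have hval : ∀ i, 0 ≤ ww S ε none i ∧ ww S ε none i ≤ 1 - ε / S.card := by
      intro i
      by_cases hi : i ∈ S
      · simp only [ww, hi, if_true]
        exact ⟨by linarith, le_rfl⟩
      · simp only [ww, hi, if_false]
        exact ⟨le_rfl, by linarith⟩
    refine ⟨⟨fun i => ?_, hsum.le⟩, fun z hz => ?_, fun ζ hζ => ?_⟩
    · rw [abs_le]
      constructor <;> linarith [(hval i).1, (hval i).2]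
    · rw [ff_none, ff_none, hsum]
      exact hz.2
    · rw [ff_none] at hζ
      set M := ∑ l, |ζ l| + 1 with hM
      have hM0 : 0 < M := by
        have : 0 ≤ ∑ l, |ζ l| := Finset.sum_nonneg fun l _ => abs_nonneg (ζ l)
        linarith
      refine ⟨ε / S.card / M, by positivity, fun t ht0 ht => ⟨fun i => ?_, ?_⟩⟩
      · have h3 : t * |ζ i| ≤ ε / S.card := by
          have h4 : |ζ i| ≤ M := (abs_le_sum ζ i).trans (by linarith)
          calc t * |ζ i| ≤ ε / S.card / M * M := mul_le_mul ht h4 (abs_nonneg _) (by positivity)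
            _ = ε / S.card := by field_simp
        have h5 := neg_abs_le (ζ i)
        have h6 := le_abs_self (ζ i)
        have h7 := mul_le_mul_of_nonneg_left h6 ht0.le
        have h8 := mul_le_mul_of_nonneg_left h5 ht0.le
        rw [Pi.add_apply, Pi.smul_apply, smul_eq_mul, abs_le]
        constructor <;> nlinarith [(hval i).1, (hval i).2]
      · have h9 : ∑ k ∈ S, (ww S ε none + t • ζ) k = (S.card - ε) + t * ∑ k ∈ S, ζ k := by
          rw [← hsum, Finset.mul_sum, ← Finset.sum_add_distrib]
          rfl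
        rw [h9]
        nlinarith
  | some k =>
    have hval : ∀ i, |ww S ε (some k) i| ≤ 1 ∧ (i ≠ k.1 → ww S ε (some k) i = 0) := by
      intro i
      by_cases hi : i = k.1
      · simp only [ww, hi, if_true]
        exact ⟨by norm_num, fun h => absurd rfl h⟩
      · simp only [ww, hi, if_false]
        exact ⟨by norm_num, fun _ => trivial⟩
    have hk : ww S ε (some k) k.1 = -1 := by simp [ww]
    have hsum : ∑ l ∈ S, ww S ε (some k) l = -1 := by
      rw [Finset.sum_eq_single k.1 (fun l _ hl => (hval l).2 hl) fun h => absurd k.2 h, hk]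
    refine ⟨⟨fun i => (hval i).1, by rw [hsum]; linarith⟩, fun z hz => ?_, fun ζ hζ => ?_⟩
    · rw [ff_some, ff_some, hk]
      linarith [(abs_le.1 (hz.1 k.1)).1]
    · rw [ff_some] at hζ
      set M := ∑ l, |ζ l| + 1 with hM
      have hM0 : 0 < M := by
        have : 0 ≤ ∑ l, |ζ l| := Finset.sum_nonneg fun l _ => abs_nonneg (ζ l)
        linarith
      refine ⟨1 / M, by positivity, fun t ht0 ht => ⟨fun i => ?_, ?_⟩⟩
      · have h3 : t * |ζ i| ≤ 1 := by
          have h4 : |ζ i| ≤ M := (abs_le_sum ζ i).trans (by linarith)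
          calc t * |ζ i| ≤ 1 / M * M := mul_le_mul ht h4 (abs_nonneg _) (by positivity)
            _ = 1 := by field_simp
        rw [Pi.add_apply, Pi.smul_apply, smul_eq_mul]
        by_cases hi : i = k.1
        · rw [hi] at h3 ⊢
          rw [hk]
          have h6 : 0 < t * ζ k.1 := by nlinarith
          have h7 := mul_le_mul_of_nonneg_left (le_abs_self (ζ k.1)) ht0.le
          rw [abs_le]
          constructor <;> linarith
        · rw [(hval i).2 hi, zero_add, abs_mul, abs_of_pos ht0]
          exact h3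
      · have h9 : ∑ l ∈ S, (ww S ε (some k) + t • ζ) l = -1 + t * ∑ l ∈ S, ζ l := by
          rw [← hsum, Finset.mul_sum, ← Finset.sum_add_distrib]
          rfl
        have h10 : t * ∑ l ∈ S, ζ l ≤ 1 := by
          have h4 : ∑ l ∈ S, ζ l ≤ M := (sum_le_sum_abs S ζ).trans (by linarith)
          calc t * ∑ l ∈ S, ζ l ≤ t * M := mul_le_mul_of_nonneg_left h4 ht0.le
            _ ≤ 1 / M * M := mul_le_mul_of_nonneg_right ht hM0.le
            _ = 1 := by field_simp
        rw [h9]
        linarith

theorem neg_vec (S : Finset ι) (hS : 2 ≤ S.card) (a b : Option {k // k ∈ S}) (hab : b ≠ a) :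
    ff S b (zz S a) < 0 := by
  cases a with
  | none =>
    cases b with
    | none => exact absurd rfl hab
    | some l =>
      rw [ff_some]
      simp [zz]
  | some k =>
    cases b with
    | none =>
      rw [ff_none]
      have h1 : ∑ l ∈ S, zz S (some k) l = -(S.card : ℝ) + ∑ l ∈ S.erase k.1, (1 : ℝ) := by
        rw [← Finset.add_sum_erase S _ k.2]
        congr 1
        · simp [zz]
        · refine Finset.sum_congr rfl fun l hl => ?_
          simp [zz, Finset.ne_of_mem_erase hl]
      rw [h1, Finset.sum_const, nsmul_eq_mul, mul_one, Finset.card_erase_of_mem k.2,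
        Nat.cast_sub (by omega)]
      push_cast
      linarith
    | some l =>
      rw [ff_some]
      have h1 : l.1 ≠ k.1 := fun h => hab (by rw [Subtype.ext h])
      simp [zz, h1]

end SHBAux

open SHBAux

theorem blk_SHB : Stmt_SHB := by
  intro ι _ _ S ε hS h0 h1 hP
  have hne : S.Nonempty := Finset.card_pos.1 (by omega)
  obtain ⟨k, hk⟩ := hne
  have h := circuit hP (ww S ε) (ff S) (reg S ε hS h0 h1) (fun _ => 1) (fun _ => one_pos) ?_ (zz S)
    (neg_vec S hS) none (some ⟨k, hk⟩) (by simp)
  · rw [Fintype.card_option, Fintype.card_coe] at h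
    omega
  · intro x
    simp only [one_mul]
    rw [Fintype.sum_option, ff_none]
    simp only [ff_some]
    rw [Finset.sum_neg_distrib, Finset.sum_coe_sort S x]
    ring

end Pool.Agent.Work.MP_80156a_loc
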