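import Pool.Agent.Work.MP_80156a_loc.Interface

/-! Block SHC: lower bound for the number of directions lighting the cut cube. -/

set_option autoImplicit false

namespace Pool.Agent.Work.MP_80156a_loc

open Pool.Agent.Work.MP_80156a_co
open scoped Topology
open Filter

namespace SHCAux

variable {ι : Type} [Fintype ι] [DecidableEq ι]

omit [Fintype ι] [DecidableEq ι] in
theorem interior_lt {A : Set (ι → ℝ)} (hA : ∀ x ∈ A, ∀ i, |x i| ≤ 1) {x : ι → ℝ}
    (hx : x ∈ interior A) (i : ι) : |x i| < 1 := by
  have h1 : A ⊆ (fun y : ι → ℝ => y i) ⁻¹' (Set.Icc (-1) 1) := fun y hy => abs_le.1 (hA y hy i)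
  have h2 : x ∈ interior ((fun y : ι → ℝ => y i) ⁻¹' (Set.Icc (-1 : ℝ) 1)) := interior_mono h1 hx
  have h3 : IsOpenMap (fun y : ι → ℝ => y i) := isOpenMap_eval i
  rw [← h3.preimage_interior_eq_interior_preimage (continuous_apply i), interior_Icc] at h2
  exact abs_lt.2 h2

omit [Fintype ι] in
theorem vert_abs (t : Finset ι) (i : ι) : |vert t i| = 1 := by
  unfold vert
  split_ifs <;> simp

omit [Fintype ι] in
theorem vert_sum (S t : Finset ι) (h : ¬ S ⊆ t) : ∑ k ∈ S, vert t k ≤ S.card - 2 := by
  obtain ⟨k, hk, hkt⟩ := Finset.not_subset.1 h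
  rw [← Finset.add_sum_erase S _ hk]
  have h1 : vert t k = -1 := by
    unfold vert
    rw [if_neg hkt]
  have h2 : ∑ l ∈ S.erase k, vert t l ≤ ∑ l ∈ S.erase k, (1 : ℝ) := by
    refine Finset.sum_le_sum fun l _ => ?_
    have := vert_abs t l
    exact (abs_le.1 this.le).2
  rw [Finset.sum_const, Finset.card_erase_of_mem hk, nsmul_eq_mul, mul_one] at h2
  have h3 : 1 ≤ S.card := Finset.card_pos.2 ⟨k, hk⟩
  rw [Nat.cast_sub h3] at h2
  rw [h1]
  push_cast at h2
  linarith

theorem vert_mem (S t : Finset ι) (h : ¬ S ⊆ t) {ε : ℝ} (hε : ε ≤ 1) :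
    vert t ∈ cutCube S (S.card - ε) := by
  refine ⟨fun i => (vert_abs t i).le, ?_⟩
  have := vert_sum S t h
  linarith

end SHCAux

open SHCAux

theorem blk_SHC : Stmt_SHC := by
  intro ι _ _ S ε _ hε1 L hL
  classical
  have h1 : ∀ t : Finset ι, ¬ S ⊆ t → ∃ v ∈ L, t = Finset.univ.filter fun k => v k < 0 := by
    intro t ht
    obtain ⟨v, hv, τ, hτ, hint⟩ := hL (vert t) (vert_mem S t ht hε1)
    refine ⟨v, hv, ?_⟩
    have h2 := interior_lt (A := cutCube S (S.card - ε)) (fun x hx => hx.1) hint
    ext k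
    have h3 := abs_lt.1 (h2 k)
    rw [Pi.add_apply, Pi.smul_apply, smul_eq_mul] at h3
    rw [Finset.mem_filter]
    constructor
    · intro hk
      refine ⟨Finset.mem_univ k, ?_⟩
      have h4 : vert t k = 1 := by
        unfold vert
        rw [if_pos hk]
      rw [h4] at h3
      by_contra hcon
      push Not at hcon
      have : 0 ≤ τ * v k := by positivity
      linarith
    · rintro ⟨_, hk⟩
      by_contra hcon
      have h4 : vert t k = -1 := by
        unfold vert
        rw [if_neg hcon]
      rw [h4] at h3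
      have : τ * v k < 0 := mul_neg_of_pos_of_neg hτ hk
      linarith
  have h2 : (Finset.univ.filter fun t : Finset ι => ¬ S ⊆ t).card ≤ L.card := by
    have h3 : (Finset.univ.filter fun t : Finset ι => ¬ S ⊆ t) ⊆
        L.image fun v => Finset.univ.filter fun k => v k < 0 := by
      intro t ht
      obtain ⟨v, hv, hvt⟩ := h1 t (Finset.mem_filter.1 ht).2
      exact Finset.mem_image.2 ⟨v, hv, hvt.symm⟩
    exact (Finset.card_le_card h3).trans Finset.card_image_le
  have h3 : (Finset.univ.filter fun t : Finset ι => S ⊆ t).card =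
      2 ^ (Fintype.card ι - S.card) := by
    have h4 : (Finset.univ.filter fun t : Finset ι => S ⊆ t) = Finset.Icc S Finset.univ := by
      ext t
      simp
    rw [h4, Finset.card_Icc_finset (Finset.subset_univ S), Finset.card_univ]
  have h4 : (Finset.univ.filter fun t : Finset ι => S ⊆ t).card +
      (Finset.univ.filter fun t : Finset ι => ¬ S ⊆ t).card = 2 ^ Fintype.card ι := by
    rw [Finset.card_filter_add_card_filter_not, Finset.card_univ, Fintype.card_finset]
  omega

end Pool.Agent.Work.MP_80156a_loc
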