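import Pool.Agent.Work.MP_80156a_loc.Interface
import Pool.Agent.Work.MP_80156a_loc.Ult

/-! Block SIMPLE. -/

set_option autoImplicit false

namespace Pool.Agent.Work.MP_80156a_loc

open Pool.Agent.Work.MP_80156a_co
open scoped Topology
open Filter

theorem blk_SIMPLE (hN : Stmt_NRM) : Stmt_SIMPLE := by
  intro ι _ _ U h K δ hS x x0 hx hlim t ht
  rcases eventually_or_not U (fun n => Lit (K n) (x n) (-vert t)) with h1 | h1
  · exact h1
  exfalso
  obtain ⟨b, b0, _, hb1, hb2, hb3, _⟩ := hN ι U h K δ hS x (fun _ => -vert t) x0 (-vert t) hx hlim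
    tendsto_const_nhds h1
  have h2 : ∀ k, b0 k * (-vert t) k = -|b0 k| := by
    intro k
    rcases lt_trichotomy (b0 k) 0 with h3 | h3 | h3
    · have h4 : x0 k = -1 := by
        have h5 := hb2 k
        rw [abs_of_neg h3] at h5
        have h6 : b0 k * (x0 k + 1) = 0 := by linarith
        rcases mul_eq_zero.1 h6 with h7 | h7
        · exact absurd h7 h3.ne
        · linarith
      have h5 : vert t k = -1 := by
        unfold vert
        rw [if_neg ((ht k).2 h4)]
      rw [Pi.neg_apply, h5, abs_of_neg h3]
      ring
    · rw [h3]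
      simp
    · have h4 : x0 k = 1 := by
        have h5 := hb2 k
        rw [abs_of_pos h3] at h5
        have h6 : b0 k * (x0 k - 1) = 0 := by linarith
        rcases mul_eq_zero.1 h6 with h7 | h7
        · exact absurd h7 h3.ne'
        · linarith
      have h5 : vert t k = 1 := by
        unfold vert
        rw [if_pos ((ht k).1 h4)]
      rw [Pi.neg_apply, h5, abs_of_pos h3]
      ring
  rw [Finset.sum_congr rfl fun k _ => h2 k, Finset.sum_neg_distrib, hb1] at hb3
  linarith

end Pool.Agent.Work.MP_80156a_loc
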