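import Pool.Agent.Work.MP_80156a_loc.Interface

/-!
# MP_80156a_co, local theorem: block SLICE (helper46)
-/

set_option autoImplicit false

namespace Pool.Agent.Work.MP_80156a_loc.SLICEns

open Pool.Agent.Work.MP_80156a_co
open Pool.Agent.Work.MP_80156a_loc
open scoped Topology
open Filter

/-- a relevant pair only depends on the used coordinates -/
theorem rel_eq {ι : Type} [Fintype ι] [DecidableEq ι] {U : Ultrafilter ℕ} {K : ℕ → Set (ι → ℝ)}
    {δ : ℕ → ℝ} {i : ι} {γ : ℝ} {u : ι → ℝ} {γ' : ℝ} {u' : ι → ℝ} (h : Rel U K δ i γ u γ' u')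
    {x y : ι → ℝ} (hxy : ∀ k ∈ Used U K δ i, x k = y k) :
    fn (u + u') x = fn (u + u') y := by
  classical
  rw [fn_apply, fn_apply]
  refine Finset.sum_congr rfl fun k _ => ?_
  by_cases hk : k ∈ Used U K δ i
  · rw [hxy k hk]
  · have h0 : (u + u') k = 0 := by
      by_contra hne
      apply hk
      unfold Used
      rw [Finset.mem_filter]
      exact ⟨Finset.mem_univ k, γ, u, γ', u', h, hne⟩
    rw [h0, zero_mul, zero_mul]

/-- the sum of the two functions is at most `r` if all pairs are -/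
theorem sum_le (hP1 : Stmt_PHI1) {ι : Type} [Fintype ι] [DecidableEq ι] {U : Ultrafilter ℕ}
    {h : ℕ} {K : ℕ → Set (ι → ℝ)} {δ : ℕ → ℝ} (hS : Sys U h K δ) (i : ι) (x : ι → ℝ) (r : ℝ)
    (hr : ∀ γ u γ' u', Lim U K δ i 1 γ u → Lim U K δ i (-1) γ' u' →
      γ + γ' + fn (u + u') x ≤ r) :
    Phi U K δ i 1 x + Phi U K δ i (-1) x ≤ r := by
  obtain ⟨_, _, a3, _, _, _⟩ := hP1 ι U h K δ hS i 1 (Or.inl rfl)
  obtain ⟨_, _, b3, _, _, _⟩ := hP1 ι U h K δ hS i (-1) (Or.inr rfl)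
  have h1 : Phi U K δ i (-1) x ≤ r - Phi U K δ i 1 x := by
    refine b3 x _ fun γ' u' hL' => ?_
    have h2 : Phi U K δ i 1 x ≤ r - (γ' + fn u' x) := by
      refine a3 x _ fun γ u hL => ?_
      have h3 := hr γ u γ' u' hL hL'
      rw [fn_add, LinearMap.add_apply] at h3
      linarith
    linarith
  linarith

/-- the sum only depends on the used coordinates -/
theorem cmp (hP1 : Stmt_PHI1) {ι : Type} [Fintype ι] [DecidableEq ι] {U : Ultrafilter ℕ}
    {h : ℕ} {K : ℕ → Set (ι → ℝ)} {δ : ℕ → ℝ} (hS : Sys U h K δ) (i : ι) (x y : ι → ℝ)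
    (hx : Cl i x) (hy : Cl i y) (hxy : ∀ k ∈ Used U K δ i, x k = y k) :
    Phi U K δ i 1 x + Phi U K δ i (-1) x ≤ Phi U K δ i 1 y + Phi U K δ i (-1) y := by
  obtain ⟨_, a2, _, a4, _, _⟩ := hP1 ι U h K δ hS i 1 (Or.inl rfl)
  obtain ⟨_, b2, _, b4, _, _⟩ := hP1 ι U h K δ hS i (-1) (Or.inr rfl)
  refine sum_le hP1 hS i x _ fun γ u γ' u' hL hL' => ?_
  by_cases hR : Rel U K δ i γ u γ' u'
  · rw [rel_eq hR hxy]
    have h1 := a2 γ u y hL hy
    have h2 := b2 γ' u' y hL' hy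
    rw [fn_add, LinearMap.add_apply]
    linarith
  · have h3 : γ + γ' + fn (u + u') x ≤ 0 := by
      by_contra hcon
      push Not at hcon
      exact hR ⟨hL, hL', x, hx, hcon⟩
    have h4 := a4 y hy
    have h5 := b4 y hy
    linarith

end Pool.Agent.Work.MP_80156a_loc.SLICEns

namespace Pool.Agent.Work.MP_80156a_loc

open Pool.Agent.Work.MP_80156a_co
open scoped Topology
open Filter

theorem blk_SLICE (hL1 : Stmt_LIM1) (hP1 : Stmt_PHI1) (hP2 : Stmt_PHI2) : Stmt_SLICE := by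
  intro ι _ _ U h K δ hS i
  obtain ⟨_, a2, _, a4, a5, a6⟩ := hP1 ι U h K δ hS i 1 (Or.inl rfl)
  obtain ⟨_, b2, _, b4, b5, b6⟩ := hP1 ι U h K δ hS i (-1) (Or.inr rfl)
  refine ⟨?_, ?_, ?_⟩
  · intro hi
    classical
    unfold Used at hi
    rw [Finset.mem_filter] at hi
    obtain ⟨_, γ, u, γ', u', hR, hne⟩ := hi
    have h1 := (hL1 ι U h K δ hS i 1 γ u (Or.inl rfl) hR.1).1
    have h2 := (hL1 ι U h K δ hS i (-1) γ' u' (Or.inr rfl) hR.2.1).1
    exact hne (by rw [h1, h2, add_zero])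
  · rintro B ⟨γ, u, γ', u', hR, hpos⟩
    have hB : Cl i (vert B : ι → ℝ) := by
      intro k _
      unfold vert
      split_ifs <;> simp
    refine ⟨Phi U K δ i 1 (vert B) + Phi U K δ i (-1) (vert B), ?_, ?_⟩
    · have h1 := a2 γ u (vert B) hR.1 hB
      have h2 := b2 γ' u' (vert B) hR.2.1 hB
      rw [fn_add, LinearMap.add_apply] at hpos
      linarith
    · intro x hx hxB
      exact le_antisymm (SLICEns.cmp hP1 hS i x (vert B) hx hB hxB)
        (SLICEns.cmp hP1 hS i (vert B) x hB hx fun k hk => (hxB k hk).symm)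
  · intro η hη
    obtain ⟨_, _, ys, hys, h1, h2⟩ := hP2 ι U h K δ hS i
    have ht1 : 0 < min (1 / 2) (η / 4) := lt_min (by norm_num) (by linarith)
    have ht2 : min (1 / 2) (η / 4) ≤ 1 / 2 := min_le_left _ _
    have ht3 : min (1 / 2) (η / 4) ≤ η / 4 := min_le_right _ _
    set t := min (1 / 2) (η / 4) with ht
    have h0 : Cl i (0 : ι → ℝ) := by
      intro k _
      simp
    have hOp : Op i ((1 - t) • ys + t • (0 : ι → ℝ)) := by
      intro k hk
      simp only [Pi.add_apply, Pi.smul_apply, smul_eq_mul, Pi.zero_apply, mul_zero, add_zero]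
      rw [abs_mul, abs_of_nonneg (by linarith : (0 : ℝ) ≤ 1 - t)]
      have := hys k hk
      nlinarith
    have hCl : Cl i ((1 - t) • ys + t • (0 : ι → ℝ)) := fun k hk => (hOp k hk).le
    refine ⟨(1 - t) • ys + t • (0 : ι → ℝ), hOp, fun x hx hxy => ?_⟩
    have h3 := SLICEns.cmp hP1 hS i x _ hx hCl hxy
    have h4 := a6 ys 0 (1 - t) t hys h0 (by linarith) ht1.le (by ring)
    have h5 := b6 ys 0 (1 - t) t hys h0 (by linarith) ht1.le (by ring)
    have h6 := a5 0 h0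
    have h7 := b5 0 h0
    rw [h1, mul_zero, zero_add] at h4
    rw [h2, mul_zero, zero_add] at h5
    have h8 : t * Phi U K δ i 1 0 ≤ t * 1 := mul_le_mul_of_nonneg_left h6 ht1.le
    have h9 : t * Phi U K δ i (-1) 0 ≤ t * 1 := mul_le_mul_of_nonneg_left h7 ht1.le
    linarith

end Pool.Agent.Work.MP_80156a_loc
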