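import Pool.Agent.Work.MP_80156a_loc.Interface

/-!
# MP_80156a_co, local theorem: block SMALL
-/

set_option autoImplicit false

namespace Pool.Agent.Work.MP_80156a_loc

open Pool.Agent.Work.MP_80156a_co
open scoped Topology
open Filter

theorem blk_SMALL (_hA : Stmt_LIM1) (hB : Stmt_LIM2) (hC : Stmt_PHI1) : Stmt_SMALL := by
  intro ι _ _ U h K δ hS hR i σ hσ
  have hzero : ∀ σ : ℝ, σ = 1 ∨ σ = -1 → ∀ x, Cl i x → Phi U K δ i σ x = 0 := by
    intro σ hσ x hx
    obtain ⟨-, -, h13, h14, -, -⟩ := hC ι U h K δ hS i 1 (Or.inl rfl)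
    obtain ⟨-, -, h23, h24, -, -⟩ := hC ι U h K δ hS i (-1) (Or.inr rfl)
    have hsum : Phi U K δ i 1 x ≤ -Phi U K δ i (-1) x := by
      refine h13 x _ fun γ u hl => ?_
      have h2 : Phi U K δ i (-1) x ≤ -(γ + fn u x) := by
        refine h23 x _ fun γ' u' hl' => ?_
        by_contra hcon
        refine hR i γ u γ' u' ⟨hl, hl', x, hx, ?_⟩
        rw [fn_add, LinearMap.add_apply]
        linarith
      linarith
    have ha := h14 x hx
    have hb := h24 x hx
    rcases hσ with rfl | rfl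
    · linarith
    · linarith
  refine ⟨hzero σ hσ, fun ρ hρ => ?_⟩
  have hout : ∀ᶠ n in (U : Filter ℕ),
      Function.update ((fun _ _ => 0 : ℕ → ι → ℝ) n) i (σ * (1 - δ n * (-(ρ / 2)))) ∉ K n := by
    refine Filter.Eventually.of_forall fun n hn => ?_
    have h1 := hS.outside n _ hn i
    rw [Function.update_self] at h1
    have h2 := hS.pos n
    have h3 : 0 < δ n * (ρ / 2) := by positivity
    rw [abs_mul] at h1
    have h4 : |σ| = 1 := by rcases hσ with rfl | rfl <;> simp
    rw [h4, one_mul] at h1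
    have h5 := le_abs_self (1 - δ n * (-(ρ / 2)))
    linarith
  obtain ⟨γ, u, hl, hγ⟩ := hB ι U h K δ hS i σ hσ (fun _ _ => 0) (fun _ => 0) (-(ρ / 2))
    tendsto_const_nhds (fun k _ => by simp) hout
  have hγ0 : -(ρ / 2) ≤ γ := by
    have : fn u (fun _ => 0) = 0 := by
      rw [fn_apply]; simp
    linarith
  have hsum : ∑ k, |u k| ≤ ρ / 2 := by
    set x : ι → ℝ := fun k => if 0 ≤ u k then 1 else -1 with hx
    have hcl : Cl i x := by
      intro k _
      simp only [hx]
      split_ifs <;> simp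
    have h1 := (hC ι U h K δ hS i σ hσ).2.1 γ u x hl hcl
    rw [hzero σ hσ x hcl] at h1
    have h2 : fn u x = ∑ k, |u k| := by
      rw [fn_apply]
      refine Finset.sum_congr rfl fun k _ => ?_
      simp only [hx]
      split_ifs with hk
      · rw [abs_of_nonneg hk, mul_one]
      · rw [abs_of_neg (not_le.1 hk)]; ring
    linarith
  obtain ⟨g, v, hg, hv, hev⟩ := hl
  refine ⟨v, ?_⟩
  have hlim : Tendsto (fun n => ∑ k, |v n k|) U (𝓝 (∑ k, |u k|)) := by
    refine tendsto_finsetSum _ fun k _ => ?_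
    exact (((continuous_apply k).tendsto u).comp hv).abs
  have hle : ∀ᶠ n in (U : Filter ℕ), ∑ k, |v n k| < ρ :=
    hlim.eventually (gt_mem_nhds (by linarith))
  filter_upwards [hev, hle] with n hn hn2
  obtain ⟨h1, w, h2, -⟩ := hn
  exact ⟨h1, hn2.le, w, h2⟩

end Pool.Agent.Work.MP_80156a_loc
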