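import Pool.Agent.Work.MP_80156a_loc.Interface

/-! Block SUPP (helper41) -/

set_option autoImplicit false

namespace Pool.Agent.Work.MP_80156a_loc

open Pool.Agent.Work.MP_80156a_co
open scoped Topology
open Filter

namespace SUPP

theorem alg {ι : Type} [Fintype ι] [DecidableEq ι] (P N : ι → ι → ℝ) (κ : ℝ) (hκ0 : 0 ≤ κ)
    (hκ : κ ≤ 1 / 4) (hP : ∀ k, ∑ l, |P k l - (Pi.single k 1 : ι → ℝ) l| ≤ κ)
    (hN : ∀ k, ∑ l, |N k l + (Pi.single k 1 : ι → ℝ) l| ≤ κ)
    (hPd : ∀ k, P k k = 1) (i : ι) (c : ι → ℝ)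
    (hc : ∀ l, -P i l = ∑ k, (max (c k) 0 * P k l + max (-c k) 0 * N k l))
    (hs : ∑ l, |P i l + c l| ≤ κ * ∑ k, |c k|) :
    c i < 0 ∧ ∀ l, l ≠ i → c l = 0 → |P i l + N i l| ≤ (3 + 4 * Fintype.card ι) * κ ^ 2 := by
  have hPe : ∀ k l, |P k l - (Pi.single k 1 : ι → ℝ) l| ≤ κ := fun k l =>
    le_trans (Finset.single_le_sum (f := fun l => |P k l - (Pi.single k 1 : ι → ℝ) l|)
      (fun _ _ => abs_nonneg _) (Finset.mem_univ l)) (hP k)
  have hNe : ∀ k l, |N k l + (Pi.single k 1 : ι → ℝ) l| ≤ κ := fun k l =>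
    le_trans (Finset.single_le_sum (f := fun l => |N k l + (Pi.single k 1 : ι → ℝ) l|)
      (fun _ _ => abs_nonneg _) (Finset.mem_univ l)) (hN k)
  have hP' : ∀ k l, k ≠ l → |P k l| ≤ κ := by
    intro k l hkl
    have h := hPe k l
    rwa [Pi.single_eq_of_ne (Ne.symm hkl), sub_zero] at h
  have hN' : ∀ k l, k ≠ l → |N k l| ≤ κ := by
    intro k l hkl
    have h := hNe k l
    rwa [Pi.single_eq_of_ne (Ne.symm hkl), add_zero] at h
  -- the norm of c
  set S : ℝ := ∑ k, |c k| with hS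
  have hSle : S ≤ 3 := by
    have h1 : S ≤ ∑ k, (|P i k + c k| + (|P i k - (Pi.single i 1 : ι → ℝ) k| +
        |(Pi.single i 1 : ι → ℝ) k|)) := by
      refine Finset.sum_le_sum fun k _ => ?_
      have h2 : c k = (P i k + c k) - ((P i k - (Pi.single i 1 : ι → ℝ) k) +
        (Pi.single i 1 : ι → ℝ) k) := by ring
      calc |c k| = |(P i k + c k) - ((P i k - (Pi.single i 1 : ι → ℝ) k) +
        (Pi.single i 1 : ι → ℝ) k)| := by rw [← h2]
        _ ≤ |P i k + c k| + |(P i k - (Pi.single i 1 : ι → ℝ) k) +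
            (Pi.single i 1 : ι → ℝ) k| := abs_sub _ _
        _ ≤ _ := by
            have := abs_add_le (P i k - (Pi.single i 1 : ι → ℝ) k) ((Pi.single i 1 : ι → ℝ) k)
            linarith
    rw [Finset.sum_add_distrib, Finset.sum_add_distrib] at h1
    have h3 : ∑ k, |(Pi.single i 1 : ι → ℝ) k| = 1 := by
      rw [Finset.sum_eq_single i]
      · simp
      · intro b _ hb
        rw [Pi.single_eq_of_ne hb, abs_zero]
      · intro h
        exact absurd (Finset.mem_univ i) h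
    have h4 := hP i
    have h5 : κ * S ≤ 1 / 4 * S :=
      mul_le_mul_of_nonneg_right hκ (Finset.sum_nonneg fun _ _ => abs_nonneg _)
    linarith
  have hPc : ∀ l, |P i l + c l| ≤ 3 * κ := by
    intro l
    have h1 : |P i l + c l| ≤ ∑ l, |P i l + c l| :=
      Finset.single_le_sum (f := fun l => |P i l + c l|) (fun _ _ => abs_nonneg _)
        (Finset.mem_univ l)
    have h2 : κ * S ≤ κ * 3 := mul_le_mul_of_nonneg_left hSle hκ0
    linarith
  have hci : |1 + c i| ≤ 3 * κ := by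
    have := hPc i
    rwa [hPd i] at this
  have hcneg : c i < 0 := by
    have h1 := (abs_le.1 hci).2
    linarith
  refine ⟨hcneg, fun l hl hcl => ?_⟩
  have hck : ∀ k, k ≠ i → |c k| ≤ 4 * κ := by
    intro k hk
    have h1 := hPc k
    have h2 := hP' i k (Ne.symm hk)
    have h3 : c k = (P i k + c k) - P i k := by ring
    calc |c k| = |(P i k + c k) - P i k| := by rw [← h3]
      _ ≤ |P i k + c k| + |P i k| := abs_sub _ _
      _ ≤ 4 * κ := by linarith
  have hT : ∀ k, k ≠ i → |max (c k) 0 * P k l + max (-c k) 0 * N k l| ≤ 4 * κ ^ 2 := by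
    intro k hk
    by_cases hkl : k = l
    · rw [hkl, hcl]
      simp
      positivity
    · have h1 := hP' k l hkl
      have h2 := hN' k l hkl
      have h3 := hck k hk
      rcases le_total 0 (c k) with h4 | h4
      · rw [max_eq_left h4, max_eq_right (by linarith : -c k ≤ 0), zero_mul, add_zero, abs_mul]
        calc |c k| * |P k l| ≤ (4 * κ) * κ := mul_le_mul h3 h1 (abs_nonneg _) (by positivity)
          _ = 4 * κ ^ 2 := by ring
      · rw [max_eq_right h4, max_eq_left (by linarith : 0 ≤ -c k), zero_mul, zero_add, abs_mul,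
          abs_neg]
        calc |c k| * |N k l| ≤ (4 * κ) * κ := mul_le_mul h3 h2 (abs_nonneg _) (by positivity)
          _ = 4 * κ ^ 2 := by ring
  have h1 := hc l
  rw [← Finset.add_sum_erase _ _ (Finset.mem_univ i), max_eq_right hcneg.le,
    max_eq_left (by linarith : 0 ≤ -c i), zero_mul, zero_add] at h1
  set R : ℝ := ∑ k ∈ Finset.univ.erase i, (max (c k) 0 * P k l + max (-c k) 0 * N k l) with hR
  have hRle : |R| ≤ 4 * Fintype.card ι * κ ^ 2 := by
    calc |R| ≤ ∑ k ∈ Finset.univ.erase i, |max (c k) 0 * P k l + max (-c k) 0 * N k l| :=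
          Finset.abs_sum_le_sum_abs _ _
      _ ≤ ∑ k ∈ Finset.univ.erase i, 4 * κ ^ 2 :=
          Finset.sum_le_sum fun k hk => hT k (Finset.ne_of_mem_erase hk)
      _ = ((Finset.univ.erase i).card : ℝ) * (4 * κ ^ 2) := by
          rw [Finset.sum_const, nsmul_eq_mul]
      _ ≤ (Fintype.card ι : ℝ) * (4 * κ ^ 2) := by
          refine mul_le_mul_of_nonneg_right ?_ (by positivity)
          exact_mod_cast Finset.card_le_univ _
      _ = 4 * Fintype.card ι * κ ^ 2 := by ring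
  have h2 : P i l + N i l = (1 + c i) * N i l - R := by linarith
  rw [h2]
  have h3 : |(1 + c i) * N i l| ≤ 3 * κ ^ 2 := by
    rw [abs_mul]
    calc |1 + c i| * |N i l| ≤ (3 * κ) * κ :=
          mul_le_mul hci (hN' i l (Ne.symm hl)) (abs_nonneg _) (by positivity)
      _ = 3 * κ ^ 2 := by ring
  calc |(1 + c i) * N i l - R| ≤ |(1 + c i) * N i l| + |R| := abs_sub _ _
    _ ≤ 3 * κ ^ 2 + 4 * Fintype.card ι * κ ^ 2 := add_le_add h3 hRle
    _ = (3 + 4 * Fintype.card ι) * κ ^ 2 := by ring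

theorem sum_bdd {ι : Type} [Fintype ι] (U : Ultrafilter ℕ) (v : ℕ → ι → ℝ) (u : ι → ℝ)
    (hv : Tendsto v U (𝓝 u)) : ∀ᶠ n in (U : Filter ℕ), ∑ l, |v n l| ≤ ∑ l, |u l| + 1 := by
  have h1 : Tendsto (fun n => ∑ l, |v n l|) U (𝓝 (∑ l, |u l|)) := by
    refine tendsto_finsetSum _ fun l _ => ?_
    exact ((tendsto_pi_nhds.1 hv) l).abs
  filter_upwards [h1.eventually_lt_const (lt_add_one _)] with n hn using hn.le

theorem lim_zero {ι : Type} (U : Ultrafilter ℕ) (v : ℕ → ι → ℝ) (u : ι → ℝ) (i : ι)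
    (hv : Tendsto v U (𝓝 u)) (h : ∀ᶠ n in (U : Filter ℕ), v n i = 0) : u i = 0 := by
  have h1 : Tendsto (fun n => v n i) U (𝓝 (u i)) := (tendsto_pi_nhds.1 hv) i
  have h2 : Tendsto (fun n => v n i) U (𝓝 0) := by
    refine (tendsto_const_nhds (x := (0 : ℝ))).congr' ?_
    filter_upwards [h] with n hn
    exact hn.symm
  exact tendsto_nhds_unique h1 h2

end SUPP

theorem blk_SUPP (hCIRC : Stmt_CIRC) (hLIM2 : Stmt_LIM2) : Stmt_SUPP := by
  intro ι _ _ U h K δ hS i γ γ' u u' h1 h2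
  classical
  -- near axis normals
  have hax : ∀ σ : ℝ, σ = 1 ∨ σ = -1 → ∀ k : ι, ∃ γ u, Lim U K δ k σ γ u := by
    intro σ hσ k
    obtain ⟨g, w, hw, -⟩ := hLIM2 ι U h K δ hS k σ hσ (fun _ => 0) 0 (-1) tendsto_const_nhds
      (fun l _ => by simp) (by
        refine Filter.Eventually.of_forall fun n hn => ?_
        have h3 := hS.outside n _ hn k
        rw [Function.update_self] at h3
        have h4 := hS.pos n
        have h5 : |σ| = 1 := by
          rcases hσ with rfl | rfl <;> simp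
        rw [abs_mul, h5, one_mul, abs_of_pos (by linarith)] at h3
        linarith)
    exact ⟨g, w, hw⟩
  obtain ⟨g1, v1, hg1, hv1, hr1⟩ := h1
  obtain ⟨g2, v2, hg2, hv2, hr2⟩ := h2
  have hp : ∀ k : ι, ∃ (v : ℕ → ι → ℝ) (u0 : ι → ℝ), Tendsto v U (𝓝 u0) ∧
      (∀ᶠ n in (U : Filter ℕ), v n k = 0 ∧
        ∃ w, Reg (K n) w (fn ((1 : ℝ) • Pi.single k 1 + δ n • v n))) ∧ (k = i → v = v1) := by
    intro k
    by_cases hk : k = i
    · refine ⟨v1, u, hv1, ?_, fun _ => rfl⟩
      filter_upwards [hr1] with n hn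
      rw [hk]
      exact ⟨hn.1, hn.2.choose, hn.2.choose_spec.1⟩
    · obtain ⟨γk, uk, gk, vk, -, hvk, hrk⟩ := hax 1 (Or.inl rfl) k
      refine ⟨vk, uk, hvk, ?_, fun h => absurd h hk⟩
      filter_upwards [hrk] with n hn
      exact ⟨hn.1, hn.2.choose, hn.2.choose_spec.1⟩
  have hm : ∀ k : ι, ∃ (v : ℕ → ι → ℝ) (u0 : ι → ℝ), Tendsto v U (𝓝 u0) ∧
      (∀ᶠ n in (U : Filter ℕ), v n k = 0 ∧
        ∃ w, Reg (K n) w (fn ((-1 : ℝ) • Pi.single k 1 + δ n • v n))) ∧ (k = i → v = v2) := by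
    intro k
    by_cases hk : k = i
    · refine ⟨v2, u', hv2, ?_, fun _ => rfl⟩
      filter_upwards [hr2] with n hn
      rw [hk]
      exact ⟨hn.1, hn.2.choose, hn.2.choose_spec.1⟩
    · obtain ⟨γk, uk, gk, vk, -, hvk, hrk⟩ := hax (-1) (Or.inr rfl) k
      refine ⟨vk, uk, hvk, ?_, fun h => absurd h hk⟩
      filter_upwards [hrk] with n hn
      exact ⟨hn.1, hn.2.choose, hn.2.choose_spec.1⟩
  choose vp up hvp hrp hvpi using hp
  choose vm um hvm hrm hvmi using hm
  set C : ℝ := 1 + ∑ k, ((∑ l, |up k l| + 1) + (∑ l, |um k l| + 1)) with hC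
  have hterm : ∀ k, 0 ≤ (∑ l, |up k l| + 1) + (∑ l, |um k l| + 1) := fun k => by positivity
  have hCk : ∀ k, (∑ l, |up k l| + 1) + (∑ l, |um k l| + 1) ≤ C := by
    intro k
    have := Finset.single_le_sum (f := fun k => (∑ l, |up k l| + 1) + (∑ l, |um k l| + 1))
      (fun k _ => hterm k) (Finset.mem_univ k)
    linarith
  have hC1 : 1 ≤ C := by
    have := Finset.sum_nonneg (fun k (_ : k ∈ (Finset.univ : Finset ι)) => hterm k)
    linarith
  -- the eventual conditions
  have e1 : ∀ᶠ n in (U : Filter ℕ), ∀ k, vp k n k = 0 ∧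
      ∃ w, Reg (K n) w (fn ((1 : ℝ) • Pi.single k 1 + δ n • vp k n)) :=
    Filter.eventually_all.2 hrp
  have e2 : ∀ᶠ n in (U : Filter ℕ), ∀ k, vm k n k = 0 ∧
      ∃ w, Reg (K n) w (fn ((-1 : ℝ) • Pi.single k 1 + δ n • vm k n)) :=
    Filter.eventually_all.2 hrm
  have e3 : ∀ᶠ n in (U : Filter ℕ), ∀ k, ∑ l, |vp k n l| ≤ C := by
    refine Filter.eventually_all.2 fun k => ?_
    filter_upwards [SUPP.sum_bdd U (vp k) (up k) (hvp k)] with n hn
    have := hCk k
    have h3 : 0 ≤ ∑ l, |um k l| := Finset.sum_nonneg fun _ _ => abs_nonneg _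
    linarith
  have e4 : ∀ᶠ n in (U : Filter ℕ), ∀ k, ∑ l, |vm k n l| ≤ C := by
    refine Filter.eventually_all.2 fun k => ?_
    filter_upwards [SUPP.sum_bdd U (vm k) (um k) (hvm k)] with n hn
    have := hCk k
    have h3 : 0 ≤ ∑ l, |up k l| := Finset.sum_nonneg fun _ _ => abs_nonneg _
    linarith
  have hlim : ∀ a : ℝ, Tendsto (fun n => a * δ n) U (𝓝 0) := by
    intro a
    have := hS.lim.const_mul a
    rwa [mul_zero] at this
  have e5 : ∀ᶠ n in (U : Filter ℕ), C * δ n < 1 / 4 :=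
    (hlim C).eventually_lt_const (by norm_num)
  have e6 : ∀ᶠ n in (U : Filter ℕ), (2 * C * Fintype.card ι) * δ n < 1 :=
    (hlim _).eventually_lt_const (by norm_num)
  have e7 : ∀ᶠ n in (U : Filter ℕ), ∀ l, u l + u' l ≠ 0 →
      ((3 + 4 * Fintype.card ι) * C ^ 2) * δ n < |v1 n l + v2 n l| := by
    refine Filter.eventually_all.2 fun l => ?_
    by_cases hl : u l + u' l = 0
    · exact Filter.Eventually.of_forall fun n h => absurd hl h
    · have h3 : Tendsto (fun n => |v1 n l + v2 n l|) U (𝓝 |u l + u' l|) :=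
        (((tendsto_pi_nhds.1 hv1) l).add ((tendsto_pi_nhds.1 hv2) l)).abs
      have h4 : 0 < |u l + u' l| := abs_pos.2 hl
      filter_upwards [h3.eventually_const_lt (half_lt_self h4),
        (hlim ((3 + 4 * Fintype.card ι) * C ^ 2)).eventually_lt_const (half_pos h4)]
        with n hn1 hn2 _
      linarith
  obtain ⟨n, hn1, hn2, hn3, hn4, hn5, hn6, hn7⟩ :=
    (e1.and (e2.and (e3.and (e4.and (e5.and (e6.and e7)))))).exists
  have hδ := hS.pos n
  set P : ι → ι → ℝ := fun k => (1 : ℝ) • Pi.single k 1 + δ n • vp k n with hPdef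
  set N : ι → ι → ℝ := fun k => (-1 : ℝ) • Pi.single k 1 + δ n • vm k n with hNdef
  have hPsum : ∀ k, ∑ l, |P k l - (Pi.single k 1 : ι → ℝ) l| ≤ C * δ n := by
    intro k
    have h3 : ∀ l, |P k l - (Pi.single k 1 : ι → ℝ) l| = δ n * |vp k n l| := by
      intro l
      simp only [hPdef, Pi.add_apply, Pi.smul_apply, smul_eq_mul]
      rw [one_mul, add_sub_cancel_left, abs_mul, abs_of_pos hδ]
    rw [Finset.sum_congr rfl fun l _ => h3 l, ← Finset.mul_sum, mul_comm C]
    exact mul_le_mul_of_nonneg_left (hn3 k) hδ.le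
  have hNsum : ∀ k, ∑ l, |N k l + (Pi.single k 1 : ι → ℝ) l| ≤ C * δ n := by
    intro k
    have h3 : ∀ l, |N k l + (Pi.single k 1 : ι → ℝ) l| = δ n * |vm k n l| := by
      intro l
      simp only [hNdef, Pi.add_apply, Pi.smul_apply, smul_eq_mul]
      rw [show -1 * (Pi.single k 1 : ι → ℝ) l + δ n * vm k n l + (Pi.single k 1 : ι → ℝ) l =
        δ n * vm k n l by ring, abs_mul, abs_of_pos hδ]
    rw [Finset.sum_congr rfl fun l _ => h3 l, ← Finset.mul_sum, mul_comm C]
    exact mul_le_mul_of_nonneg_left (hn4 k) hδ.le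
  have hPd : ∀ k, P k k = 1 := by
    intro k
    simp only [hPdef, Pi.add_apply, Pi.smul_apply, smul_eq_mul, Pi.single_eq_same]
    rw [(hn1 k).1]
    ring
  have hf0 : P i ≠ 0 := by
    intro h3
    have h4 := hPd i
    rw [h3] at h4
    simp at h4
  obtain ⟨c, hc1, hc2, hc3⟩ := hCIRC ι (K n) h (hS.hp n) P N (fun k => (hn1 k).2.choose)
    (fun k => (hn2 k).2.choose) (C * δ n) (fun k => (hn1 k).2.choose_spec)
    (fun k => (hn2 k).2.choose_spec) (by nlinarith) hPsum hNsum ((hn1 i).2.choose) (P i)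
    (hn1 i).2.choose_spec hf0
  obtain ⟨hci, hcl⟩ := SUPP.alg P N (C * δ n) (by positivity) hn5.le hPsum hNsum hPd i c hc1 hc2
  have hui : u i + u' i = 0 := by
    rw [SUPP.lim_zero U v1 u i hv1 (by filter_upwards [hr1] with n hn using hn.1),
      SUPP.lim_zero U v2 u' i hv2 (by filter_upwards [hr2] with n hn using hn.1), add_zero]
  have hsub : insert i (Finset.univ.filter fun k => u k + u' k ≠ 0) ⊆
      Finset.univ.filter fun k => c k ≠ 0 := by
    intro l hl
    rw [Finset.mem_insert] at hl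
    rw [Finset.mem_filter]
    refine ⟨Finset.mem_univ _, ?_⟩
    rcases hl with rfl | hl
    · exact hci.ne
    · rw [Finset.mem_filter] at hl
      intro h0
      have hli : l ≠ i := by
        rintro rfl
        exact hl.2 hui
      have h3 := hcl l hli h0
      have h4 : P i l + N i l = δ n * (v1 n l + v2 n l) := by
        simp only [hPdef, hNdef, Pi.add_apply, Pi.smul_apply, smul_eq_mul]
        rw [hvpi i rfl, hvmi i rfl, Pi.single_eq_of_ne hli]
        ring
      rw [h4, abs_mul, abs_of_pos hδ] at h3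
      have h5 := hn7 l hl.2
      have h6 : δ n * |v1 n l + v2 n l| ≤ δ n * (((3 + 4 * Fintype.card ι) * C ^ 2) * δ n) := by
        calc δ n * |v1 n l + v2 n l| ≤ (3 + 4 * Fintype.card ι) * (C * δ n) ^ 2 := h3
          _ = δ n * (((3 + 4 * Fintype.card ι) * C ^ 2) * δ n) := by ring
      exact absurd (le_of_mul_le_mul_left h6 hδ) (not_le.2 h5)
  have hcard := Finset.card_le_card hsub
  rw [Finset.card_insert_of_notMem (by
    rw [Finset.mem_filter]
    rintro ⟨-, h3⟩
    exact h3 hui)] at hcard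
  refine le_trans (Nat.succ_le_succ (Finset.card_le_card (fun k hk => ?_)))
    (le_trans hcard hc3)
  rw [Finset.mem_filter] at hk ⊢
  exact hk

end Pool.Agent.Work.MP_80156a_loc
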