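import Pool.Agent.Work.MP_80156a_loc.Interface

/-!
# MP_80156a_co, local theorem: block TRANS
-/

set_option autoImplicit false

namespace Pool.Agent.Work.MP_80156a_loc

open Pool.Agent.Work.MP_80156a_co
open scoped Topology
open Filter

namespace TRANSAux

theorem hp_transfer {E F : Type*} [AddCommGroup E] [AddCommGroup F] {K : Set F} {n : ℕ}
    (hK : HP K n) (e : E ≃+ F) (o : F) : HP {x : E | o + e x ∈ K} n := by
  classical
  intro T hT
  obtain ⟨x, hx⟩ := hK (T.image e) fun S hS hc => by
    obtain ⟨y, hy⟩ := hT (T.filter fun t => e t ∈ S) (Finset.filter_subset _ _) (by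
      refine le_trans ?_ hc
      rw [← Finset.card_image_of_injective (T.filter fun t => e t ∈ S) e.injective]
      refine Finset.card_le_card fun s hs => ?_
      obtain ⟨t, ht, rfl⟩ := Finset.mem_image.1 hs
      exact (Finset.mem_filter.1 ht).2)
    refine ⟨o + e y, fun s hs => ?_⟩
    obtain ⟨t, ht, rfl⟩ := Finset.mem_image.1 (hS hs)
    have := hy t (Finset.mem_filter.2 ⟨ht, hs⟩)
    rw [Set.mem_ofPred_eq, map_sub] at this
    rwa [add_sub_assoc]
  refine ⟨e.symm (x - o), fun t ht => ?_⟩
  have := hx (e t) (Finset.mem_image_of_mem e ht)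
  rw [Set.mem_ofPred_eq, map_sub, AddEquiv.apply_symm_apply]
  have h2 : o + (x - o - e t) = x - e t := by abel
  rwa [h2]

end TRANSAux

theorem blk_TRANS : Stmt_TRANS := by
  intro ι _ _ A o K
  classical
  let e : (ι → ℝ) ≃L[ℝ] (ι → ℝ) := A.toContinuousLinearEquiv
  let g : (ι → ℝ) ≃ₜ (ι → ℝ) := e.toHomeomorph.trans (Homeomorph.addLeft o)
  have hgx : ∀ x, g x = o + A x := fun x => rfl
  have hK'g : {x | o + A x ∈ K} = g ⁻¹' K := rfl
  have hint' : interior {x | o + A x ∈ K} = g ⁻¹' interior K := by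
    rw [hK'g, g.preimage_interior]
  refine ⟨?_, ?_, ?_, ?_, ?_⟩
  · intro hconv x hx y hy α β hα hβ hαβ
    have h1 := hconv hx hy hα hβ hαβ
    have h2 : α • (o + A x) + β • (o + A y) = o + A (α • x + β • y) := by
      rw [map_add, map_smul, map_smul, smul_add, smul_add]
      have : o = α • o + β • o := by rw [← add_smul, hαβ, one_smul]
      conv_rhs => rw [this]
      abel
    rw [h2] at h1
    exact h1
  · intro hcomp
    rw [hK'g]
    exact g.isCompact_preimage.2 hcomp
  · intro n hK
    exact TRANSAux.hp_transfer hK A.toAddEquiv o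
  · intro n hK
    have h2 := TRANSAux.hp_transfer hK A.symm.toAddEquiv (-A.symm o)
    have h3 : {x : ι → ℝ | -A.symm o + A.symm.toAddEquiv x ∈ {x | o + A x ∈ K}} = K := by
      ext x
      change o + A (-A.symm o + A.symm x) ∈ K ↔ x ∈ K
      have : o + A (-A.symm o + A.symm x) = x := by simp
      rw [this]
    rw [h3] at h2
    exact h2
  · rintro N ⟨L, hL, hLit⟩
    refine ⟨L.image A, Finset.card_image_le.trans hL, fun z hz => ?_⟩
    have hz' : A.symm (z - o) ∈ {x | o + A x ∈ K} := by
      change o + A (A.symm (z - o)) ∈ K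
      rwa [A.apply_symm_apply, add_sub_cancel]
    obtain ⟨v, hv, t, ht, h7⟩ := hLit _ hz'
    refine ⟨A v, Finset.mem_image_of_mem A hv, t, ht, ?_⟩
    rw [hint'] at h7
    have h8 : g (A.symm (z - o) + t • v) = z + t • A v := by
      rw [hgx, map_add, map_smul, A.apply_symm_apply]
      abel
    rw [Set.mem_preimage, h8] at h7
    exact h7

end Pool.Agent.Work.MP_80156a_loc
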