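import Pool.Agent.Work.MP_80156a_loc.FAN
import Pool.Agent.Work.MP_80156a_loc.DUAL
import Pool.Agent.Work.MP_80156a_loc.CIRC
import Pool.Agent.Work.MP_80156a_loc.CHORD
import Pool.Agent.Work.MP_80156a_loc.NORM
import Pool.Agent.Work.MP_80156a_loc.EXTR
import Pool.Agent.Work.MP_80156a_loc.TRANS
import Pool.Agent.Work.MP_80156a_loc.LIM1
import Pool.Agent.Work.MP_80156a_loc.LIM2
import Pool.Agent.Work.MP_80156a_loc.PHI1
import Pool.Agent.Work.MP_80156a_loc.PHI2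
import Pool.Agent.Work.MP_80156a_loc.SUPP
import Pool.Agent.Work.MP_80156a_loc.NRM
import Pool.Agent.Work.MP_80156a_loc.SIMPLE
import Pool.Agent.Work.MP_80156a_loc.SLICE
import Pool.Agent.Work.MP_80156a_loc.COMB
import Pool.Agent.Work.MP_80156a_loc.CHOICE
import Pool.Agent.Work.MP_80156a_loc.MERGED
import Pool.Agent.Work.MP_80156a_loc.CASEA
import Pool.Agent.Work.MP_80156a_loc.SMALL
import Pool.Agent.Work.MP_80156a_loc.CUT
import Pool.Agent.Work.MP_80156a_loc.PERT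
import Pool.Agent.Work.MP_80156a_loc.CASEB
import Pool.Agent.Work.MP_80156a_loc.MAIN
import Pool.Agent.Work.MP_80156a_loc.SHA
import Pool.Agent.Work.MP_80156a_loc.SHB
import Pool.Agent.Work.MP_80156a_loc.SHC
import Pool.Agent.Work.MP_80156a_loc.FIN

/-!
# MP_80156a_co, local theorem: assembly of the blocks
-/

set_option autoImplicit false

namespace Pool.Agent.Work.MP_80156a_loc

theorem all_CIRC : Stmt_CIRC := blk_CIRC blk_FAN blk_DUAL

theorem all_PHI1 : Stmt_PHI1 := blk_PHI1 blk_LIM1 blk_LIM2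

theorem all_PHI2 : Stmt_PHI2 := blk_PHI2 blk_LIM1 blk_LIM2 all_PHI1

theorem all_SUPP : Stmt_SUPP := blk_SUPP all_CIRC blk_LIM2

theorem all_SIMPLE : Stmt_SIMPLE := blk_SIMPLE blk_NRM

theorem all_CASEA : Stmt_CASEA :=
  blk_CASEA all_SIMPLE (blk_SLICE blk_LIM1 all_PHI1 all_PHI2) (blk_COMB all_SUPP blk_LIM1)
    (blk_CHOICE all_PHI1) (blk_MERGED blk_NRM all_PHI1 all_PHI2)

theorem all_SMALL : Stmt_SMALL := blk_SMALL blk_LIM1 blk_LIM2 all_PHI1

theorem all_CASEB : Stmt_CASEB :=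
  blk_CASEB all_SIMPLE (blk_CUT all_CIRC all_SMALL) (blk_PERT blk_NRM all_PHI2 all_SMALL)

theorem all_MAIN : Stmt_MAIN :=
  blk_MAIN (blk_NORM blk_CHORD) blk_EXTR blk_TRANS all_CASEA all_CASEB

theorem all_SHA : Stmt_SHA := blk_SHA

theorem all_SHB : Stmt_SHB := blk_SHB

theorem all_SHC : Stmt_SHC := blk_SHC

end Pool.Agent.Work.MP_80156a_loc
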