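import Pool.Agent.Work.MP_80156a_co.Main

/-!
# MP_80156a_co, local theorem: definitions

`fn u` is the functional with coefficient vector `u`; `vert s` is the vertex of the cube
`[-1, 1] ^ ι` with pattern `s`; `Sys U h K δ` collects the hypotheses on a sequence of bodies
between `(1 - δ n) Q` and `Q`; `Lim U K δ i σ γ u` says that `γ + ⟨u, ·⟩` is a limit of regular
affine minorants of the depth function `(1 - σ x i) / δ n`; `Phi` is the supremum of these.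
-/

set_option autoImplicit false

namespace Pool.Agent.Work.MP_80156a_loc

open Pool.Agent.Work.MP_80156a_co
open scoped Topology
open Filter

variable {ι : Type*} [Fintype ι] [DecidableEq ι]

/-- the functional with coefficient vector `u` -/
noncomputable def fn {ι : Type*} [Fintype ι] (u : ι → ℝ) : (ι → ℝ) →ₗ[ℝ] ℝ :=
  ∑ k, u k • LinearMap.proj (R := ℝ) (φ := fun _ : ι => ℝ) k

theorem fn_apply {ι : Type*} [Fintype ι] (u x : ι → ℝ) : fn u x = ∑ k, u k * x k := by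
  simp [fn, LinearMap.sum_apply]

theorem eq_fn (f : (ι → ℝ) →ₗ[ℝ] ℝ) : f = fn (fun k => f (Pi.single k 1)) := by
  refine LinearMap.ext fun x => ?_
  rw [fn_apply]
  conv_lhs => rw [← Finset.univ_sum_single x]
  rw [map_sum]
  refine Finset.sum_congr rfl fun k _ => ?_
  have : (Pi.single k (x k) : ι → ℝ) = x k • Pi.single k 1 := by
    rw [← Pi.single_smul, smul_eq_mul, mul_one]
  rw [this, map_smul, smul_eq_mul, mul_comm]

omit [DecidableEq ι] in
theorem fn_add (u v : ι → ℝ) : fn (u + v) = fn u + fn v := by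
  refine LinearMap.ext fun x => ?_
  simp only [LinearMap.add_apply, fn_apply, Pi.add_apply, add_mul, Finset.sum_add_distrib]

omit [DecidableEq ι] in
theorem fn_smul (c : ℝ) (u : ι → ℝ) : fn (c • u) = c • fn u := by
  refine LinearMap.ext fun x => ?_
  simp only [LinearMap.smul_apply, fn_apply, Pi.smul_apply, smul_eq_mul, mul_assoc,
    Finset.mul_sum]

/-- the vertex of the cube with pattern `s` -/
noncomputable def vert {ι : Type*} [DecidableEq ι] (s : Finset ι) : ι → ℝ :=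
  fun i => if i ∈ s then 1 else -1

/-- closed cube, the coordinate `i` is free -/
def Cl {ι : Type*} (i : ι) (x : ι → ℝ) : Prop := ∀ k, k ≠ i → |x k| ≤ 1

/-- open cube, the coordinate `i` is free -/
def Op {ι : Type*} (i : ι) (x : ι → ℝ) : Prop := ∀ k, k ≠ i → |x k| < 1

/-- a sequence of bodies close to the cube -/
structure Sys {ι : Type*} [Fintype ι] [DecidableEq ι] (U : Ultrafilter ℕ) (h : ℕ)
    (K : ℕ → Set (ι → ℝ)) (δ : ℕ → ℝ) : Prop where
  conv : ∀ n, Convex ℝ (K n)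
  comp : ∀ n, IsCompact (K n)
  pos : ∀ n, 0 < δ n
  lt_one : ∀ n, δ n < 1
  lim : Tendsto δ U (𝓝 0)
  inside : ∀ n, ∀ x : ι → ℝ, (∀ i, |x i| ≤ 1 - δ n) → x ∈ K n
  outside : ∀ n, ∀ x ∈ K n, ∀ i, |x i| ≤ 1
  extremal : ∀ n, ∃ s : Finset ι, ∀ η : ℝ, 0 ≤ η → η < δ n → (1 - η) • vert s ∉ K n
  chord : ∀ i, ∃ p q : ℕ → ι → ℝ, (∀ n, p n ∈ K n) ∧ (∀ n, q n ∈ K n) ∧ (∀ n, p n i = -1) ∧
    (∀ n, q n i = 1) ∧ ∀ k, k ≠ i → Tendsto (fun n => q n k - p n k) U (𝓝 0)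
  hp : ∀ n, HP (K n) (h + 1)

/-- `γ + ⟨u, ·⟩` is a limit of regular affine minorants of the depth function
`(1 - σ x i) / δ n` on `K n` -/
def Lim {ι : Type*} [Fintype ι] [DecidableEq ι] (U : Ultrafilter ℕ) (K : ℕ → Set (ι → ℝ))
    (δ : ℕ → ℝ) (i : ι) (σ : ℝ) (γ : ℝ) (u : ι → ℝ) : Prop :=
  ∃ (g : ℕ → ℝ) (v : ℕ → ι → ℝ), Tendsto g U (𝓝 γ) ∧ Tendsto v U (𝓝 u) ∧
    ∀ᶠ n in (U : Filter ℕ), v n i = 0 ∧ ∃ w, Reg (K n) w (fn (σ • Pi.single i 1 + δ n • v n)) ∧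
      fn (σ • Pi.single i 1 + δ n • v n) w = 1 - δ n * g n

/-- the supremum of the limit minorants -/
noncomputable def Phi {ι : Type*} [Fintype ι] [DecidableEq ι] (U : Ultrafilter ℕ)
    (K : ℕ → Set (ι → ℝ)) (δ : ℕ → ℝ) (i : ι) (σ : ℝ) (x : ι → ℝ) : ℝ :=
  sSup {r | ∃ γ u, Lim U K δ i σ γ u ∧ r = γ + fn u x}

/-- the body `K` is lit by at most `N` directions -/
def LitBy {ι : Type*} [Fintype ι] (K : Set (ι → ℝ)) (N : ℕ) : Prop :=
  ∃ L : Finset (ι → ℝ), L.card ≤ N ∧ ∀ z ∈ K, ∃ v ∈ L, Lit K z v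

end Pool.Agent.Work.MP_80156a_loc
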