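import Pool.Agent.Work.MP_80156a_loc.Interface

/-!
# MP_80156a_co, local theorem: block FAN

Banach's fixed point theorem for a small perturbation of the identity.
-/

set_option autoImplicit false

namespace Pool.Agent.Work.MP_80156a_loc

namespace FanAux

theorem pos_diff (a b : ℝ) : |max a 0 - max b 0| ≤ |a - b| :=
  abs_max_sub_max_le_abs a b 0

theorem neg_diff (a b : ℝ) : |max (-a) 0 - max (-b) 0| ≤ |a - b| := by
  have h := abs_max_sub_max_le_abs (-a) (-b) 0
  have h2 : -a - -b = -(a - b) := by ring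
  rwa [h2, abs_neg] at h

theorem pos_add_neg (a : ℝ) : max a 0 + max (-a) 0 = |a| := by
  rcases le_total 0 a with h | h
  · rw [max_eq_left h, max_eq_right (by linarith), abs_of_nonneg h, add_zero]
  · rw [max_eq_right h, max_eq_left (by linarith), abs_of_nonpos h, zero_add]

theorem pos_sub_neg (a : ℝ) : max a 0 - max (-a) 0 = a := by
  rcases le_total 0 a with h | h
  · rw [max_eq_left h, max_eq_right (by linarith), sub_zero]
  · rw [max_eq_right h, max_eq_left (by linarith)]; ring

variable {ι : Type} [Fintype ι] [DecidableEq ι]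

/-- the perturbation, `S c - c` -/
noncomputable def pert (P N : ι → ι → ℝ) (c : ι → ℝ) (l : ι) : ℝ :=
  ∑ k, (max (c k) 0 * (P k l - (Pi.single k 1 : ι → ℝ) l) +
    max (-c k) 0 * (N k l + (Pi.single k 1 : ι → ℝ) l))

theorem pert_eq (P N : ι → ι → ℝ) (c : ι → ℝ) (l : ι) :
    pert P N c l + c l = ∑ k, (max (c k) 0 * P k l + max (-c k) 0 * N k l) := by
  have h1 : ∑ k, (max (c k) 0 - max (-c k) 0) * (Pi.single k 1 : ι → ℝ) l = c l := by
    rw [Finset.sum_eq_single l]
    · rw [Pi.single_eq_same, mul_one, pos_sub_neg]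
    · intro k _ hk
      rw [Pi.single_eq_of_ne (Ne.symm hk), mul_zero]
    · intro h
      exact absurd (Finset.mem_univ l) h
  rw [← h1, pert, ← Finset.sum_add_distrib]
  refine Finset.sum_congr rfl fun k _ => ?_
  ring

theorem pert_lip (P N : ι → ι → ℝ) (κ : ℝ)
    (hP : ∀ k, ∑ l, |P k l - (Pi.single k 1 : ι → ℝ) l| ≤ κ)
    (hN : ∀ k, ∑ l, |N k l + (Pi.single k 1 : ι → ℝ) l| ≤ κ) (c c' : ι → ℝ) (l : ι) :
    |pert P N c l - pert P N c' l| ≤ 2 * κ * Fintype.card ι * dist c c' := by
  have hP1 : ∀ k, |P k l - (Pi.single k 1 : ι → ℝ) l| ≤ κ := fun k =>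
    le_trans (Finset.single_le_sum (f := fun l => |P k l - (Pi.single k 1 : ι → ℝ) l|)
      (fun _ _ => abs_nonneg _) (Finset.mem_univ l)) (hP k)
  have hN1 : ∀ k, |N k l + (Pi.single k 1 : ι → ℝ) l| ≤ κ := fun k =>
    le_trans (Finset.single_le_sum (f := fun l => |N k l + (Pi.single k 1 : ι → ℝ) l|)
      (fun _ _ => abs_nonneg _) (Finset.mem_univ l)) (hN k)
  have hκ : 0 ≤ κ := le_trans (abs_nonneg _) (hP1 l)
  have h1 : pert P N c l - pert P N c' l =
      ∑ k, ((max (c k) 0 - max (c' k) 0) * (P k l - (Pi.single k 1 : ι → ℝ) l) +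
        (max (-c k) 0 - max (-c' k) 0) * (N k l + (Pi.single k 1 : ι → ℝ) l)) := by
    rw [pert, pert, ← Finset.sum_sub_distrib]
    refine Finset.sum_congr rfl fun k _ => ?_
    ring
  rw [h1]
  have h2 : ∀ k ∈ (Finset.univ : Finset ι),
      |(max (c k) 0 - max (c' k) 0) * (P k l - (Pi.single k 1 : ι → ℝ) l) +
        (max (-c k) 0 - max (-c' k) 0) * (N k l + (Pi.single k 1 : ι → ℝ) l)| ≤
        2 * κ * dist c c' := by
    intro k _
    have hd : |c k - c' k| ≤ dist c c' := by
      rw [← Real.dist_eq]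
      exact dist_le_pi_dist c c' k
    have ha := mul_le_mul (le_trans (pos_diff (c k) (c' k)) hd) (hP1 k) (abs_nonneg _)
      dist_nonneg
    have hb := mul_le_mul (le_trans (neg_diff (c k) (c' k)) hd) (hN1 k) (abs_nonneg _)
      dist_nonneg
    rw [← abs_mul] at ha hb
    have hc := abs_add_le ((max (c k) 0 - max (c' k) 0) * (P k l - (Pi.single k 1 : ι → ℝ) l))
      ((max (-c k) 0 - max (-c' k) 0) * (N k l + (Pi.single k 1 : ι → ℝ) l))
    linarith
  refine le_trans (Finset.abs_sum_le_sum_abs _ _) ?_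
  refine le_trans (Finset.sum_le_sum h2) ?_
  rw [Finset.sum_const, Finset.card_univ, nsmul_eq_mul]
  refine le_of_eq ?_
  ring

end FanAux

open FanAux in
theorem blk_FAN : Stmt_FAN := by
  intro ι _ _ P N κ hκ hP hN g
  have hlip : LipschitzWith (Real.toNNReal (2 * κ * Fintype.card ι))
      (fun c : ι → ℝ => fun l => g l - pert P N c l) := by
    refine LipschitzWith.of_dist_le_mul fun c c' => ?_
    refine (dist_pi_le_iff (mul_nonneg (NNReal.coe_nonneg _) dist_nonneg)).2 fun l => ?_
    rw [Real.dist_eq]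
    have h1 : g l - pert P N c l - (g l - pert P N c' l) = -(pert P N c l - pert P N c' l) := by
      ring
    rw [h1, abs_neg]
    refine le_trans (pert_lip P N κ hP hN c c' l) ?_
    exact mul_le_mul_of_nonneg_right (Real.le_coe_toNNReal _) dist_nonneg
  have hcon : ContractingWith (Real.toNNReal (2 * κ * Fintype.card ι))
      (fun c : ι → ℝ => fun l => g l - pert P N c l) := by
    refine ⟨?_, hlip⟩
    rw [← NNReal.coe_lt_coe, NNReal.coe_one, Real.coe_toNNReal']
    exact max_lt hκ zero_lt_one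
  obtain ⟨c, hc⟩ : ∃ c : ι → ℝ, (fun l => g l - pert P N c l) = c :=
    ⟨ContractingWith.fixedPoint _ hcon, ContractingWith.fixedPoint_isFixedPt hcon⟩
  have hc' : ∀ l, g l - pert P N c l = c l := fun l => congrFun hc l
  refine ⟨c, fun l => ?_, ?_⟩
  · rw [← pert_eq]
    linarith [hc' l]
  · have h1 : ∀ l ∈ (Finset.univ : Finset ι), |g l - c l| ≤
        ∑ k, (max (c k) 0 * |P k l - (Pi.single k 1 : ι → ℝ) l| +
          max (-c k) 0 * |N k l + (Pi.single k 1 : ι → ℝ) l|) := by
      intro l _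
      have h2 : g l - c l = pert P N c l := by linarith [hc' l]
      rw [h2, pert]
      refine le_trans (Finset.abs_sum_le_sum_abs _ _) (Finset.sum_le_sum fun k _ => ?_)
      refine le_trans (abs_add_le _ _) ?_
      rw [abs_mul, abs_mul, abs_of_nonneg (le_max_right (c k) 0),
        abs_of_nonneg (le_max_right (-c k) 0)]
    refine le_trans (Finset.sum_le_sum h1) ?_
    rw [Finset.sum_comm, Finset.mul_sum]
    refine Finset.sum_le_sum fun k _ => ?_
    rw [Finset.sum_add_distrib, ← Finset.mul_sum, ← Finset.mul_sum]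
    have ha := mul_le_mul_of_nonneg_left (hP k) (le_max_right (c k) 0)
    have hb := mul_le_mul_of_nonneg_left (hN k) (le_max_right (-c k) 0)
    have hd := pos_add_neg (c k)
    calc max (c k) 0 * ∑ l, |P k l - (Pi.single k 1 : ι → ℝ) l| +
          max (-c k) 0 * ∑ l, |N k l + (Pi.single k 1 : ι → ℝ) l|
        ≤ max (c k) 0 * κ + max (-c k) 0 * κ := add_le_add ha hb
      _ = κ * |c k| := by rw [← hd]; ring

end Pool.Agent.Work.MP_80156a_loc
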