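import Pool.Agent.Work.MP_80156a_loc.Defs

/-!
# MP_80156a_co, local theorem: the blocks

Block `X`: file `Pool/Agent/Work/MP_80156a_loc/X.lean`, namespace `Pool.Agent.Work.MP_80156a_loc`,
importing only this file, with the theorem `blk_X : Stmt_X` or, if `X` depends on `A`, `B`,
`blk_X (hA : Stmt_A) (hB : Stmt_B) : Stmt_X`. Paper proof: note 1931 (table notes).
`Reg`, `HP`, `circuit`, `exists_reg`, `Lit`, `exists_normal`, `exists_indep`, `final_count` are in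
`Pool.Agent.Work.MP_80156a_co` (files Helly, Light, Comb, Main; all imported and opened).
-/

set_option autoImplicit false

namespace Pool.Agent.Work.MP_80156a_loc

open Pool.Agent.Work.MP_80156a_co
open scoped Topology
open Filter

/-! ## Ultrafilters (proved in `Ult.lean`, see there) -/

/-! ## Circuits -/

/-- FAN. The map `c ↦ ∑ k, (c_k⁺ P k + c_k⁻ N k)` is the identity plus a map with Lipschitz constant
`κ * card ι < 1/2` for the sup norm (`|a⁺ - b⁺| + |a⁻ - b⁻| = |a - b|`), so it is onto: Banach's fixed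
point theorem (`ContractingWith`) for `c ↦ g - (S c - c)`, or `ApproximatesLinearOn.surjective` with
the identity. The estimate: `g - c = ∑ (c_k⁺ (P k - e_k) + c_k⁻ (N k + e_k))`, `c⁺ + c⁻ = |c|`. -/
def Stmt_FAN : Prop :=
  ∀ (ι : Type) [Fintype ι] [DecidableEq ι] (P N : ι → ι → ℝ) (κ : ℝ),
    2 * κ * Fintype.card ι < 1 → (∀ k, ∑ l, |P k l - (Pi.single k 1 : ι → ℝ) l| ≤ κ) →
    (∀ k, ∑ l, |N k l + (Pi.single k 1 : ι → ℝ) l| ≤ κ) → ∀ g : ι → ℝ,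
    ∃ c : ι → ℝ, (∀ l, g l = ∑ k, (max (c k) 0 * P k l + max (-c k) 0 * N k l)) ∧
      ∑ l, |g l - c l| ≤ κ * ∑ k, |c k|

/-- DUAL. The matrix `G` is strictly diagonally dominant (`|G k k| ≥ 1 - a`, rest of the row
`≤ κ - a`, `a = |G k k - s k|`), so invertible (`det_ne_zero_of_sum_row_lt_diag`); `ζ l` is the
column `l` of the inverse matrix. -/
def Stmt_DUAL : Prop :=
  ∀ (ι : Type) [Fintype ι] [DecidableEq ι] (G : ι → ι → ℝ) (s : ι → ℝ) (κ : ℝ),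
    (∀ k, s k = 1 ∨ s k = -1) → κ < 1 →
    (∀ k, ∑ l, |G k l - s k * (Pi.single k 1 : ι → ℝ) l| ≤ κ) →
    ∃ ζ : ι → ι → ℝ, ∀ k l, fn (G k) (ζ l) = if k = l then 1 else 0

/-- CIRC (uses FAN, DUAL). FAN for `g = -f`; `G k = P k` if `0 ≤ c k`, `N k` otherwise, dual vectors
`ζ` of DUAL. Apply `circuit` with `n = h + 1` to the index type `Option {k // c k ≠ 0}`: functionals
`fn f`, `fn (G k)`, coefficients `1`, `|c k|` (sum zero). The vectors: for `none` `-∑_l ζ l` (over the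
support), for `some k` `R • ζ k - ∑_{l ≠ k} ζ l` with `R` large: `fn (G l)` is `-1`, and
`fn f = -∑ |c l| fn (G l)` is `-|c k| R + ∑_{l ≠ k} |c l| < 0`. The support is nonempty as
`f ≠ 0`. -/
def Stmt_CIRC : Prop :=
  ∀ (ι : Type) [Fintype ι] [DecidableEq ι] (K : Set (ι → ℝ)) (h : ℕ), HP K (h + 1) →
    ∀ (P N wP wN : ι → ι → ℝ) (κ : ℝ),
    (∀ k, Reg K (wP k) (fn (P k))) → (∀ k, Reg K (wN k) (fn (N k))) →
    2 * κ * Fintype.card ι < 1 → (∀ k, ∑ l, |P k l - (Pi.single k 1 : ι → ℝ) l| ≤ κ) →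
    (∀ k, ∑ l, |N k l + (Pi.single k 1 : ι → ℝ) l| ≤ κ) →
    ∀ w f : ι → ℝ, Reg K w (fn f) → f ≠ 0 →
    ∃ c : ι → ℝ, (∀ l, -f l = ∑ k, (max (c k) 0 * P k l + max (-c k) 0 * N k l)) ∧
      ∑ l, |f l + c l| ≤ κ * ∑ k, |c k| ∧ (Finset.univ.filter fun k => c k ≠ 0).card ≤ h

/-! ## Normalisation of one body -/

/-- CHORD. Longest chord in direction `e_i`: maximise `t` over the compact set of `(p, t)`,
`0 ≤ t ≤ 2`, `p ∈ K`, `p + t e_i ∈ K`; `lam ≥ 2 (1 - ε)` (take `p = -(1 - ε) e_i`), `lam ≤ 2`. The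
open convex sets `interior K` and `interior K + lam e_i` are disjoint (otherwise there is a longer
chord), so there is `f ≠ 0` with `f a ≤ f (b + lam e_i)` for `a, b ∈ K` (closure of the interior).
With `b = p` resp. `a = p + lam e_i`: `f p ≤ f x ≤ f p + lam f (e_i)` on `K`. As `K ⊇ (1 - ε) Q`,
`2 (1 - ε) |f|_1 ≤ lam f (e_i)`, so `f (e_i) > 0`; normalise `f (e_i) = 1`:
`|f|_1 ≤ 1 / (1 - ε) ≤ 1 + 2 ε`. -/
def Stmt_CHORD : Prop :=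
  ∀ (ι : Type) [Fintype ι] [DecidableEq ι] (K : Set (ι → ℝ)) (ε : ℝ), Convex ℝ K → IsCompact K →
    0 < ε → ε ≤ 1 / 2 → (∀ x : ι → ℝ, (∀ i, |x i| ≤ 1 - ε) → x ∈ K) →
    (∀ x ∈ K, ∀ i, |x i| ≤ 1) → ∀ i : ι,
    ∃ (f p : ι → ℝ) (lam : ℝ), f i = 1 ∧ p ∈ K ∧ p + lam • (Pi.single i 1 : ι → ℝ) ∈ K ∧
      2 * (1 - ε) ≤ lam ∧ lam ≤ 2 ∧ (∀ x ∈ K, fn f p ≤ fn f x ∧ fn f x ≤ fn f p + lam) ∧
      ∑ k ∈ Finset.univ.erase i, |f k| ≤ 2 * ε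

/-- NORM (uses CHORD). New coordinates `y_i = (2 / lam_i) (f_i(x) - f_i(p_i)) - 1`, so `y_i(K)`
lies in `[-1, 1]`, `y_i(p_i) = -1`, `y_i(p_i + lam_i e_i) = 1`, and for `k ≠ i`
`|y_k(p_i + lam_i e_i) - y_k(p_i)| = (2 / lam_k) lam_i |f_k(e_i)| ≤ 8 ε`. The linear part `M` has
`M_ii = 2 / lam_i ∈ [1, 1 / (1 - ε)]` and off-diagonal row sums `≤ 2 ε / (1 - ε)` (better:
`ε / (1 - ε) ^ 2`), so it is injective, `A = M⁻¹`; the midpoint of the range of `f_i` on `K` is at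
most `ε` in absolute value (as `(1 - ε) Q ⊆ K ⊆ Q`, it is in `[-ε |f_i|_1 / 2, ε |f_i|_1 / 2]`). If
`|z| ≤ 1 - 8 ε` and `y(x) = z`, then at the index `m` with `|x m|` maximal
`1 - 8 ε + |shift| ≥ |(M x)_m| ≥ (1 - 2 ε / (1 - ε)) |x m|`, so `|x| ≤ 1 - ε` and `x ∈ K`. -/
def Stmt_NORM : Prop :=
  ∀ (ι : Type) [Fintype ι] [DecidableEq ι] (K : Set (ι → ℝ)) (ε : ℝ), Convex ℝ K → IsCompact K →
    0 < ε → ε ≤ 1 / 16 → (∀ x : ι → ℝ, (∀ i, |x i| ≤ 1 - ε) → x ∈ K) →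
    (∀ x ∈ K, ∀ i, |x i| ≤ 1) →
    ∃ (A : (ι → ℝ) ≃ₗ[ℝ] (ι → ℝ)) (o : ι → ℝ),
      (∀ x, o + A x ∈ K → ∀ i, |x i| ≤ 1) ∧
      (∀ x : ι → ℝ, (∀ i, |x i| ≤ 1 - 8 * ε) → o + A x ∈ K) ∧
      ∀ i, ∃ p q : ι → ℝ, o + A p ∈ K ∧ o + A q ∈ K ∧ p i = -1 ∧ q i = 1 ∧
        ∀ k, k ≠ i → |q k - p k| ≤ 8 * ε

/-- EXTR. For a vertex `s` let `δ_s` be the least `η ∈ [0, ε]` with `(1 - η) • vert s ∈ K` (closed
nonempty set of `η`), `δ = max δ_s`, attained at `s`. For `η < δ` minimality gives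
`(1 - η) • vert s ∉ K`. `(1 - δ) • vert t ∈ K` for all `t` (it is between `0 ∈ K` and
`(1 - δ_t) • vert t`). If `|x i| ≤ 1 - δ` and `x ∉ K`, `exists_reg` gives `f` with
`f x > f ((1 - δ) • vert t) = (1 - δ) ∑ |f_k| ≥ f x` for `t = {k | 0 ≤ f_k}`, contradiction. `δ > 0`
by the last hypothesis. (`interior K` is nonempty: it contains `0`.) -/
def Stmt_EXTR : Prop :=
  ∀ (ι : Type) [Fintype ι] [DecidableEq ι] (K : Set (ι → ℝ)) (ε : ℝ), Convex ℝ K → IsCompact K →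
    ε < 1 → (∀ x : ι → ℝ, (∀ i, |x i| ≤ 1 - ε) → x ∈ K) → (∀ x ∈ K, ∀ i, |x i| ≤ 1) →
    (¬ ∀ x : ι → ℝ, (∀ i, |x i| ≤ 1) → x ∈ K) →
    ∃ δ : ℝ, 0 < δ ∧ δ ≤ ε ∧ (∀ x : ι → ℝ, (∀ i, |x i| ≤ 1 - δ) → x ∈ K) ∧
      ∃ s : Finset ι, ∀ η : ℝ, 0 ≤ η → η < δ → (1 - η) • vert s ∉ K

/-- TRANS. Affine invariance (compare `Transfer.lean`, `main_of_basis`, of MP_80156a_co). -/
def Stmt_TRANS : Prop :=
  ∀ (ι : Type) [Fintype ι] [DecidableEq ι] (A : (ι → ℝ) ≃ₗ[ℝ] (ι → ℝ)) (o : ι → ℝ)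
    (K : Set (ι → ℝ)), (Convex ℝ K → Convex ℝ {x | o + A x ∈ K}) ∧
    (IsCompact K → IsCompact {x | o + A x ∈ K}) ∧
    (∀ n, HP K n → HP {x | o + A x ∈ K} n) ∧ (∀ n, HP {x | o + A x ∈ K} n → HP K n) ∧
    ∀ N, LitBy {x | o + A x ∈ K} N → LitBy K N

/-! ## Limit minorants -/

/-- LIM1. (1) `v n i = 0` eventually. (2) `fn (σ e_i + δ v) (x n) ≤ 1 - δ g` (Reg, value at `w`), i.e.
`σ x_i + δ ⟨v, x⟩ ≤ 1 - δ g`; with `1 - δ r ≤ σ x_i` divide by `δ > 0`: `g + ⟨v, x n⟩ ≤ r`, take the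
limit. (3) (2) for `x n = (1 - δ n) x` off `i`, `σ (1 - δ n)` at `i` (in `K n` by `inside`), `r = 1`;
`u i = 0`. -/
def Stmt_LIM1 : Prop :=
  ∀ (ι : Type) [Fintype ι] [DecidableEq ι] (U : Ultrafilter ℕ) (h : ℕ) (K : ℕ → Set (ι → ℝ))
    (δ : ℕ → ℝ), Sys U h K δ → ∀ (i : ι) (σ γ : ℝ) (u : ι → ℝ), σ = 1 ∨ σ = -1 →
    Lim U K δ i σ γ u →
    u i = 0 ∧
    (∀ (x : ℕ → ι → ℝ) (x0 : ι → ℝ) (r : ℝ), (∀ᶠ n in (U : Filter ℕ), x n ∈ K n) →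
      Tendsto x U (𝓝 x0) → (∀ᶠ n in (U : Filter ℕ), 1 - δ n * r ≤ σ * x n i) →
      γ + fn u x0 ≤ r) ∧
    ∀ x : ι → ℝ, Cl i x → γ + fn u x ≤ 1

/-- LIM2. `c = 1 - max_{k ≠ i} |y0 k|`. Eventually `|y n k| ≤ 1 - c / 2`, `δ n` is small.
`exists_reg` for the point `z` gives `w`, `f` regular, `f w < f z`; `a` = coefficients (`eq_fn`).
`(1 - δ) ∑ |a_k| ≤ f w` (the point `(1 - δ) sgn a` is in `K n`), so
`(1 - δ) (|a_i| + A') < a_i σ (1 - δ r) + (1 - c / 2) A'`, `A' = ∑_{k ≠ i} |a_k|`. If `a_i σ ≤ 0` this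
is impossible for `δ` small. So `a_i σ = |a_i| > 0` and `A' ≤ |a_i| δ (4 / c) (1 + |r|)`. Put
`v n k = a_k / (|a_i| δ)` (`0` at `i`), `g n = (1 - f w / |a_i|) / δ`. Then
`g n + ⟨v n, y n⟩ > r`, `g n ≤ 1`, all bounded; take ultralimits (`exists_lim`, `exists_lim_real` of
`Ult.lean`: you may import that file). `Reg` is invariant under positive multiples of the
functional. `σ * σ = 1`. -/
def Stmt_LIM2 : Prop :=
  ∀ (ι : Type) [Fintype ι] [DecidableEq ι] (U : Ultrafilter ℕ) (h : ℕ) (K : ℕ → Set (ι → ℝ))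
    (δ : ℕ → ℝ), Sys U h K δ → ∀ (i : ι) (σ : ℝ), σ = 1 ∨ σ = -1 →
    ∀ (y : ℕ → ι → ℝ) (y0 : ι → ℝ) (r : ℝ), Tendsto y U (𝓝 y0) → Op i y0 →
    (∀ᶠ n in (U : Filter ℕ), Function.update (y n) i (σ * (1 - δ n * r)) ∉ K n) →
    ∃ γ u, Lim U K δ i σ γ u ∧ r ≤ γ + fn u y0

/-- PHI1 (uses LIM1, LIM2). (1) there are limit minorants: LIM2 with `y = 0`, `r = -1`. (2) bounded
above by LIM1 (3). (3) `csSup_le`. (4) `x` in the open cube: LIM2 with `y n = x`, `r = -ρ` (the point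
has `|z i| = 1 + δ ρ > 1`) gives a minorant `≥ -ρ` at `x`. `x ∈ Cl`: for `0 < t < 1` take a
minorant `ℓ` with `ℓ (t x) ≥ -ρ`; `ℓ (t x) = (1 - t) ℓ 0 + t ℓ x`, `ℓ 0 ≤ 1`, so
`t ℓ x ≥ -ρ - (1 - t)`. (5), (6) from (2), (3). -/
def Stmt_PHI1 : Prop :=
  ∀ (ι : Type) [Fintype ι] [DecidableEq ι] (U : Ultrafilter ℕ) (h : ℕ) (K : ℕ → Set (ι → ℝ))
    (δ : ℕ → ℝ), Sys U h K δ → ∀ (i : ι) (σ : ℝ), σ = 1 ∨ σ = -1 →
    (∃ γ u, Lim U K δ i σ γ u) ∧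
    (∀ γ u x, Lim U K δ i σ γ u → Cl i x → γ + fn u x ≤ Phi U K δ i σ x) ∧
    (∀ x r, (∀ γ u, Lim U K δ i σ γ u → γ + fn u x ≤ r) → Phi U K δ i σ x ≤ r) ∧
    (∀ x, Cl i x → 0 ≤ Phi U K δ i σ x) ∧
    (∀ x, Cl i x → Phi U K δ i σ x ≤ 1) ∧
    ∀ (x y : ι → ℝ) (a b : ℝ), Cl i x → Cl i y → 0 ≤ a → 0 ≤ b → a + b = 1 →
      Phi U K δ i σ (a • x + b • y) ≤ a * Phi U K δ i σ x + b * Phi U K δ i σ y

/-- PHI2 (uses LIM1, LIM2, PHI1). (1) Otherwise eventually (ultrafilter!) `1 - δ r ≤ σ x_i`, and LIM1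
(2) gives `ℓ x0 ≤ r` for all minorants. (2) Otherwise eventually not in `K n`, LIM2 gives a
minorant `≥ r` at `y0`. (3) the sequences `q` (`σ = 1`) and `p` (`σ = -1`) of `Sys.chord` with `r = 0`
in LIM1 (2); `y = lim q`, `lim p` agrees with it off `i`, and `u i = 0`. With PHI1 (4). -/
def Stmt_PHI2 : Prop :=
  ∀ (ι : Type) [Fintype ι] [DecidableEq ι] (U : Ultrafilter ℕ) (h : ℕ) (K : ℕ → Set (ι → ℝ))
    (δ : ℕ → ℝ), Sys U h K δ → ∀ i : ι,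
    (∀ σ : ℝ, σ = 1 ∨ σ = -1 → ∀ (x : ℕ → ι → ℝ) (x0 : ι → ℝ) (r : ℝ),
      (∀ᶠ n in (U : Filter ℕ), x n ∈ K n) → Tendsto x U (𝓝 x0) → r < Phi U K δ i σ x0 →
      ∀ᶠ n in (U : Filter ℕ), σ * x n i < 1 - δ n * r) ∧
    (∀ σ : ℝ, σ = 1 ∨ σ = -1 → ∀ (y : ℕ → ι → ℝ) (y0 : ι → ℝ) (r : ℝ), Tendsto y U (𝓝 y0) →
      Op i y0 → Phi U K δ i σ y0 < r →
      ∀ᶠ n in (U : Filter ℕ), Function.update (y n) i (σ * (1 - δ n * r)) ∈ K n) ∧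
    ∃ y : ι → ℝ, Cl i y ∧ Phi U K δ i 1 y = 0 ∧ Phi U K δ i (-1) y = 0

/-- SUPP (uses CIRC, LIM2). For `k ≠ i` and both signs LIM2 with `y = 0`, `r = -1` gives bounded
`v` with `± e_k + δ n • v n` regular. Apply CIRC for `U`-most `n` to
`f = P i = e_i + δ v n` (from `h1`), `N i = -e_i + δ v' n` (from `h2`), `κ = C δ n`. `|c|_1 ≤ 3`;
`c_i < 0`; coordinate `k ≠ i`: `-δ v_k = |c_i| δ v'_k + c_k + O(δ ^ 2)`, `|c_i| = 1 + O(δ)`, so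
`c_k / δ → -(u_k + u'_k)`, and `c_k ≠ 0` eventually if `u_k + u'_k ≠ 0`. `c_i ≠ 0` too. -/
def Stmt_SUPP : Prop :=
  ∀ (ι : Type) [Fintype ι] [DecidableEq ι] (U : Ultrafilter ℕ) (h : ℕ) (K : ℕ → Set (ι → ℝ))
    (δ : ℕ → ℝ), Sys U h K δ → ∀ (i : ι) (γ γ' : ℝ) (u u' : ι → ℝ), Lim U K δ i 1 γ u →
    Lim U K δ i (-1) γ' u' → (Finset.univ.filter fun k => u k + u' k ≠ 0).card + 1 ≤ h

/-! ## Normals of unlit points -/

/-- NRM. `exists_normal` (interior is nonempty by `inside`, `lt_one`) gives `a ≠ 0`; normalise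
`∑ |b n k| = 1`; `b0` = ultralimit (`exists_lim` of `Ult.lean`). The points `(1 - δ n) sgn b0` are in
`K n`: in the limit `∑ |b0 k| ≤ ∑ b0 k * x0 k ≤ ∑ |b0 k|` (`|x0 k| ≤ 1`), so equality in every term. -/
def Stmt_NRM : Prop :=
  ∀ (ι : Type) [Fintype ι] [DecidableEq ι] (U : Ultrafilter ℕ) (h : ℕ) (K : ℕ → Set (ι → ℝ))
    (δ : ℕ → ℝ), Sys U h K δ → ∀ (x D : ℕ → ι → ℝ) (x0 D0 : ι → ℝ), (∀ n, x n ∈ K n) →
    Tendsto x U (𝓝 x0) → Tendsto D U (𝓝 D0) →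
    (∀ᶠ n in (U : Filter ℕ), ¬ Lit (K n) (x n) (D n)) →
    ∃ (b : ℕ → ι → ℝ) (b0 : ι → ℝ), Tendsto b U (𝓝 b0) ∧ ∑ k, |b0 k| = 1 ∧
      (∀ k, b0 k * x0 k = |b0 k|) ∧ 0 ≤ ∑ k, b0 k * D0 k ∧
      ∀ᶠ n in (U : Filter ℕ), (∀ z ∈ K n, ∑ k, b n k * z k ≤ ∑ k, b n k * x n k) ∧
        0 ≤ ∑ k, b n k * D n k

/-- SIMPLE (uses NRM). Otherwise NRM with constant `D = -vert t`: if `b0 k ≠ 0` then `|x0 k| = 1` and
`vert t k = x0 k`, so `∑ b0 k * D0 k = -∑ |b0 k| = -1`. -/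
def Stmt_SIMPLE : Prop :=
  ∀ (ι : Type) [Fintype ι] [DecidableEq ι] (U : Ultrafilter ℕ) (h : ℕ) (K : ℕ → Set (ι → ℝ))
    (δ : ℕ → ℝ), Sys U h K δ → ∀ (x : ℕ → ι → ℝ) (x0 : ι → ℝ), (∀ n, x n ∈ K n) →
    Tendsto x U (𝓝 x0) → ∀ t : Finset ι, (∀ k, (x0 k = 1 → k ∈ t) ∧ (x0 k = -1 → k ∉ t)) →
    ∀ᶠ n in (U : Filter ℕ), Lit (K n) (x n) (-vert t)

/-! ## Case A -/

/-- a relevant pair -/
def Rel {ι : Type} [Fintype ι] [DecidableEq ι] (U : Ultrafilter ℕ) (K : ℕ → Set (ι → ℝ))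
    (δ : ℕ → ℝ) (i : ι) (γ : ℝ) (u : ι → ℝ) (γ' : ℝ) (u' : ι → ℝ) : Prop :=
  Lim U K δ i 1 γ u ∧ Lim U K δ i (-1) γ' u' ∧ ∃ x, Cl i x ∧ 0 < γ + γ' + fn (u + u') x

open scoped Classical in
/-- the coordinates used by relevant pairs -/
noncomputable def Used {ι : Type} [Fintype ι] [DecidableEq ι] (U : Ultrafilter ℕ)
    (K : ℕ → Set (ι → ℝ)) (δ : ℕ → ℝ) (i : ι) : Finset ι :=
  Finset.univ.filter fun k => ∃ γ u γ' u', Rel U K δ i γ u γ' u' ∧ u k + u' k ≠ 0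

/-- SLICE (uses LIM1, PHI1, PHI2). (1) LIM1 (1). The sum `Phi 1 x + Phi (-1) x` is `≤ r` as soon as
all pairs have `γ + γ' + fn (u + u') x ≤ r` (PHI1 (3) twice), and `≥` each such value. Relevant
pairs depend only on the coordinates in `Used`; irrelevant pairs are `≤ 0` on `Cl`. (2)
`θ` = the sum at `vert B`; compare `x` and `vert B`. (3) `y = (1 - t) y*`, `y*` of PHI2 (3), `t` small,
`Phi (y) ≤ (1 - t) Phi y* + t Phi 0 ≤ t` (PHI1 (5), (6)); compare `x` and `y`. -/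
def Stmt_SLICE : Prop :=
  ∀ (ι : Type) [Fintype ι] [DecidableEq ι] (U : Ultrafilter ℕ) (h : ℕ) (K : ℕ → Set (ι → ℝ))
    (δ : ℕ → ℝ), Sys U h K δ → ∀ i : ι,
    i ∉ Used U K δ i ∧
    (∀ B : Finset ι,
      (∃ γ u γ' u', Rel U K δ i γ u γ' u' ∧ 0 < γ + γ' + fn (u + u') (vert B)) →
      ∃ θ : ℝ, 0 < θ ∧ ∀ x, Cl i x → (∀ k ∈ Used U K δ i, x k = vert B k) →
        Phi U K δ i 1 x + Phi U K δ i (-1) x = θ) ∧
    ∀ η : ℝ, 0 < η → ∃ y, Op i y ∧ ∀ x, Cl i x → (∀ k ∈ Used U K δ i, x k = y k) →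
      Phi U K δ i 1 x + Phi U K δ i (-1) x < η

/-- COMB (uses SUPP, LIM1). `V = Used`, `W` = the `B ⊆ V` with a relevant pair positive at `vert B`.
A relevant pair (positive at `x ∈ Cl`) has `T = supp (u + u') ⊆ V`, `|T| ≤ h - 1` (SUPP); with
`g = {k ∈ T | 0 < u k + u' k}` all `B ⊆ V` with `B ∩ T = g` are in `W` (the value at `vert B` is
`γ + γ' + ∑_T |u k + u' k| ≥` the value at `x`; `i ∉ T` by LIM1 (1)). `exists_indep` (file Comb) with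
`t = h - 1`; `C` = the parity class. -/
def Stmt_COMB : Prop :=
  ∀ (ι : Type) [Fintype ι] [DecidableEq ι] (U : Ultrafilter ℕ) (h : ℕ) (K : ℕ → Set (ι → ℝ))
    (δ : ℕ → ℝ), Sys U h K δ → ∀ i : ι, (∃ γ u γ' u', Rel U K δ i γ u γ' u') →
    ∃ C : Finset (Finset ι), (∀ B ∈ C, B ⊆ Used U K δ i) ∧
      2 ^ ((Used U K δ i).card + 1) ≤ C.card * 2 ^ h ∧
      (∀ B ∈ C, ∀ k ∈ Used U K δ i, ∀ B' ⊆ Used U K δ i, (∀ l, l ≠ k → (l ∈ B' ↔ l ∈ B)) →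
        (k ∈ B' ↔ k ∉ B) → B' ∉ C) ∧
      ∀ B ∈ C, ∃ γ u γ' u', Rel U K δ i γ u γ' u' ∧ 0 < γ + γ' + fn (u + u') (vert B)

/-- CHOICE (uses PHI1). `X` = the set of the `x` in the conclusion (nonempty: `vert B` on `V`, `0`
elsewhere; call this point `c0`). On the slice `{x ∈ Cl | x = vert B on V}` both `Phi`s are convex with
constant sum `θ`, so `2 Phi 1 ((x + x') / 2) = Phi 1 x + Phi 1 x'`. For `p, q ∈ X`:
`e = q - p + c0`, `e' = 2 c0 - e` are in the slice, `q + c0 = p + e`, `e + e' = 2 c0`, so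
`Phi 1 q - Phi 1 p = Phi 1 e - Phi 1 c0 = (Phi 1 e - Phi 1 e') / 2 ≤ θ / 2`. Take
`a = sInf (Phi 1 '' X) - θ / 8`. -/
def Stmt_CHOICE : Prop :=
  ∀ (ι : Type) [Fintype ι] [DecidableEq ι] (U : Ultrafilter ℕ) (h : ℕ) (K : ℕ → Set (ι → ℝ))
    (δ : ℕ → ℝ), Sys U h K δ → ∀ (i : ι) (V B : Finset ι) (θ : ℝ), 0 < θ →
    (∀ x, Cl i x → (∀ k ∈ V, x k = vert B k) →
      Phi U K δ i 1 x + Phi U K δ i (-1) x = θ) →
    ∀ t : Finset ι, ∃ a : ℝ, ∀ x, Cl i x → (∀ k ∈ V, x k = vert B k) →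
      (∀ k, k ∉ V → k ≠ i → 0 ≤ x k * vert t k) →
      a ≤ Phi U K δ i 1 x - θ / 8 ∧ θ / 8 - Phi U K δ i (-1) x ≤ a

/-- MERGED (uses NRM, PHI1, PHI2). Note 1931, Step 4 (b). Otherwise NRM: for `k ∈ V`
`D0 k = y k - x0 k`, for the other `k ≠ i` `D0 k = -vert t k / 2`; all `b0 k * D0 k ≤ 0` with equality
only for `b0 k = 0`, and `D0 i = 0`; so `b0 k = 0` for `k ≠ i`, `σ := b0 i = ± 1`, `σ x0 i = 1`. Put
`β = σ b n i → 1`, `S = ∑_{k ≠ i} b n k * D n k`. (I1) `σ β δ a + S ≥ 0`. (I2) the point `x n + D n`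
updated at `i` by `σ (1 - δ r)`, `r = θ / 100`, is in `K n` (PHI2 (2); the limit point agrees with `y`
on `V` and has `|x0 k - vert t k / 2| ≤ 1 / 2` elsewhere, so both `Phi`s are `< θ / 100` there), so
`β (1 - δ r) + S ≤ b n i * x n i < β (1 - δ r')`, `r' = Phi σ x0 - θ / 100` (PHI2 (1)). Hence
`-σ a < θ / 50 - Phi σ x0`, contradiction to `ha` at `x0`, for `σ = 1` and for `σ = -1`. -/
def Stmt_MERGED : Prop :=
  ∀ (ι : Type) [Fintype ι] [DecidableEq ι] (U : Ultrafilter ℕ) (h : ℕ) (K : ℕ → Set (ι → ℝ))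
    (δ : ℕ → ℝ), Sys U h K δ → ∀ (i : ι) (V B t : Finset ι), i ∉ V → ∀ θ a : ℝ, 0 < θ →
    (∀ x, Cl i x → (∀ k ∈ V, x k = vert B k) →
      (∀ k, k ∉ V → k ≠ i → 0 ≤ x k * vert t k) →
      a ≤ Phi U K δ i 1 x - θ / 8 ∧ θ / 8 - Phi U K δ i (-1) x ≤ a) →
    ∀ y : ι → ℝ, Op i y →
    (∀ x, Cl i x → (∀ k ∈ V, x k = y k) →
      Phi U K δ i 1 x + Phi U K δ i (-1) x < θ / 100) →
    ∀ (x : ℕ → ι → ℝ) (x0 : ι → ℝ), (∀ n, x n ∈ K n) → Tendsto x U (𝓝 x0) →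
    (∀ k ∈ V, x0 k = vert B k) → (∀ k, k ∉ V → k ≠ i → 0 ≤ x0 k * vert t k) →
    ∀ᶠ n in (U : Filter ℕ), Lit (K n) (x n) (fun k =>
      if k = i then δ n * a else if k ∈ V then y k - vert B k else -vert t k / 2)

/-- CASEA (uses SIMPLE, SLICE, COMB, CHOICE, MERGED). For `B ∈ C` choose `θ`, `y` (SLICE (3) with
`η = θ / 100`), for each `s` with `s ∩ Used ∈ C` choose `a` (CHOICE with `t = s`). `L n` = image of
`{s | ¬ (s ∩ Used ∈ C ∧ i ∈ s)}` under `s ↦` merged direction (with `B = s ∩ Used`, `t = s`) if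
`s ∩ Used ∈ C`, `-vert s` otherwise; `final_count` (file Main) with `V = Used`, `S = {i}` bounds the
cardinality. If `L n` does not light `K n` for `U`-most `n`, choose unlit `x n`, `x0` = ultralimit,
`t0 = {k | 0 ≤ x0 k}`, `B = t0 ∩ Used`. If some `t` compatible with `x0` has `t ∩ Used ∉ C`: SIMPLE.
Otherwise `x0 k = vert B k` on `Used` (else flip `k` in `t0`), use MERGED with `s = t0.erase i`. -/
def Stmt_CASEA : Prop :=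
  ∀ (ι : Type) [Fintype ι] [DecidableEq ι] (U : Ultrafilter ℕ) (h : ℕ) (K : ℕ → Set (ι → ℝ))
    (δ : ℕ → ℝ), Sys U h K δ → ∀ i : ι, (∃ γ u γ' u', Rel U K δ i γ u γ' u') →
    ∀ᶠ n in (U : Filter ℕ), LitBy (K n) (2 ^ Fintype.card ι - 2 ^ (Fintype.card ι - h))

/-! ## Case B -/

/-- SMALL (uses LIM1, LIM2, PHI1). (1) `Phi 1 x + Phi (-1) x ≤ 0` (PHI1 (3) twice), both are `≥ 0`.
(2) LIM2 with `y = 0`, `r = -ρ / 2`: minorant with `γ ≥ -ρ / 2`; `γ + fn u x ≤ Phi = 0` at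
`x = sgn u`, so `∑ |u k| ≤ ρ / 2`; the sequence `v` of `Lim` has `∑ |v n k| ≤ ρ` eventually. -/
def Stmt_SMALL : Prop :=
  ∀ (ι : Type) [Fintype ι] [DecidableEq ι] (U : Ultrafilter ℕ) (h : ℕ) (K : ℕ → Set (ι → ℝ))
    (δ : ℕ → ℝ), Sys U h K δ → (∀ i γ u γ' u', ¬ Rel U K δ i γ u γ' u') → ∀ (i : ι) (σ : ℝ),
    σ = 1 ∨ σ = -1 →
    (∀ x, Cl i x → Phi U K δ i σ x = 0) ∧
    ∀ ρ : ℝ, 0 < ρ → ∃ v : ℕ → ι → ℝ, ∀ᶠ n in (U : Filter ℕ), v n i = 0 ∧ ∑ k, |v n k| ≤ ρ ∧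
      ∃ w, Reg (K n) w (fn (σ • (Pi.single i 1 : ι → ℝ) + δ n • v n))

/-- CUT (uses CIRC, SMALL). Note 1931, Step 5 (a), `ρ = 1 / 32`. For each `n` the vertex `s` of
`Sys.extremal`; the statement for fixed `n` (large) gives `s`, `T`; `finite_choice` (`Ult.lean`) makes
them constant. `z = (1 - (1 - ρ) δ) • vert s ∉ K n`; `exists_reg`, `∑ |a_k| = 1`:
`1 - δ ≤ f w < (1 - (1 - ρ) δ) ⟨a, s⟩`, so `⟨a, s⟩ ≥ 1 - 2 ρ δ` and `⟨a, s - x⟩ ≥ (1 - 3 ρ) δ` on `K n`.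
CIRC with `κ = ρ δ`: `T = supp c`, `∑ |a_l + c_l| ≤ 2 ρ δ`, so `∑_{k ∉ T} |a_k| ≤ 2 ρ δ`,
`∑_{k ∈ T} a_k (s_k - x_k) ≥ (1 - 7 ρ) δ > (3 / 4) δ`, and `a_k (s_k - x_k) ≤ |a_k| (1 - s_k x_k)`. -/
def Stmt_CUT : Prop :=
  ∀ (ι : Type) [Fintype ι] [DecidableEq ι] (U : Ultrafilter ℕ) (h : ℕ) (K : ℕ → Set (ι → ℝ))
    (δ : ℕ → ℝ), Sys U h K δ → (∀ i γ u γ' u', ¬ Rel U K δ i γ u γ' u') →
    ∃ s T : Finset ι, T.card ≤ h ∧
      ∀ᶠ n in (U : Filter ℕ), ∀ x ∈ K n, ∃ j ∈ T, 3 / 4 * δ n ≤ 1 - vert s j * x j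

/-- PERT (uses NRM, PHI2, SMALL). Note 1931, Step 5 (b). Otherwise NRM: `∑ b0 k * D0 k =
-∑_{k ≠ j} |b0 k|`, so `b0 k = 0` for `k ≠ j`, `σ := b0 j = ± 1`, `σ x0 j = 1`. `0 < τ ≤ 1` with
`|x0 k - τ vert t k| < 1` for `k ≠ j`, `r = τ / 8`. The point `x n - τ vert t` updated at `j` by
`σ (1 - δ r)` is in `K n` (PHI2 (2), SMALL (1)). `β = σ b n j → 1`, `S = ∑_{k ≠ j} b n k * vert t k`:
`β (1 - δ r) - τ S ≤ b n j * x n j`, and `(δ / 2) c b n j ≥ S`. `σ = -c`: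
`-β δ r ≤ τ S ≤ -τ β δ / 2`, false. `σ = c`: `x0 j = c`, `b n j * x n j ≤ β (1 - (3 / 4) δ)`, so
`β δ (3 / 4 - r) ≤ τ S ≤ τ β δ / 2`, false. -/
def Stmt_PERT : Prop :=
  ∀ (ι : Type) [Fintype ι] [DecidableEq ι] (U : Ultrafilter ℕ) (h : ℕ) (K : ℕ → Set (ι → ℝ))
    (δ : ℕ → ℝ), Sys U h K δ → (∀ i γ u γ' u', ¬ Rel U K δ i γ u γ' u') →
    ∀ (x : ℕ → ι → ℝ) (x0 : ι → ℝ), (∀ n, x n ∈ K n) → Tendsto x U (𝓝 x0) →
    ∀ (t : Finset ι) (j : ι) (c : ℝ), c = 1 ∨ c = -1 →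
    (∀ k, k ≠ j → (x0 k = 1 → k ∈ t) ∧ (x0 k = -1 → k ∉ t)) →
    (x0 j = c → ∀ᶠ n in (U : Filter ℕ), 3 / 4 * δ n ≤ 1 - c * x n j) →
    ∀ᶠ n in (U : Filter ℕ), Lit (K n) (x n) (fun k =>
      if k = j then δ n / 2 * c else -vert t k)

/-- CASEB (uses SIMPLE, CUT, PERT). Note 1931, Step 5 (c). `dis t` = the `k ∈ T` where `t` and `s`
differ. `L n` = image of `{t | dis t ≠ ∅}` under `t ↦` the direction of PERT with `c = vert s j` if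
`dis t = {j}`, `-vert t` otherwise; `|{t | dis t = ∅}| = 2 ^ (d - |T|)` (`card_cube` in Comb). -/
def Stmt_CASEB : Prop :=
  ∀ (ι : Type) [Fintype ι] [DecidableEq ι] (U : Ultrafilter ℕ) (h : ℕ) (K : ℕ → Set (ι → ℝ))
    (δ : ℕ → ℝ), Sys U h K δ → (∀ i γ u γ' u', ¬ Rel U K δ i γ u γ' u') →
    ∀ᶠ n in (U : Filter ℕ), LitBy (K n) (2 ^ Fintype.card ι - 2 ^ (Fintype.card ι - h))

/-! ## Assembly and sharpness -/

/-- MAIN (uses NORM, EXTR, TRANS, CASEA, CASEB). Otherwise for every `n` there is a counterexample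
with `ε = 1 / (16 (n + 2))`; NORM, TRANS and EXTR (with `8 ε`; the last hypothesis of EXTR holds
because the full cube satisfies `HP _ 2`, compare `hp_box` in `Transfer.lean`, and `HP` is transferred
by TRANS) give sequences `K`, `δ` with `Sys U h K δ`, `U = hyperfilter ℕ`, none of them `LitBy`.
Case A or Case B: contradiction. -/
def Stmt_MAIN : Prop :=
  ∀ (ι : Type) [Fintype ι] [DecidableEq ι] (h : ℕ),
    ∃ ε : ℝ, 0 < ε ∧ ∀ K : Set (ι → ℝ), Convex ℝ K → IsCompact K →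
      (∀ x : ι → ℝ, (∀ i, |x i| ≤ 1 - ε) → x ∈ K) → (∀ x ∈ K, ∀ i, |x i| ≤ 1) →
      HP K (h + 1) → ¬ HP K 2 →
      LitBy K (2 ^ Fintype.card ι - 2 ^ (Fintype.card ι - h))

/-- the cube with the corner of the coordinates in `S` cut off -/
def cutCube {ι : Type} [Fintype ι] (S : Finset ι) (c : ℝ) : Set (ι → ℝ) :=
  {x | (∀ i, |x i| ≤ 1) ∧ ∑ k ∈ S, x k ≤ c}

/-- SHA. The common point of all translates: `x k = max_t t k - 1`. `|x k - t k| ≤ 1`: use the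
translate maximising `t k` and `t` (two translates). `∑_S (x k - t k) ≤ c`: the translates
maximising `t k`, `k ∈ S`, and `t` (at most `|S| + 1`) have a common point `y`, `y k ≥ x k`. (`x - t`
as in `HP`; `T` empty: trivial.) -/
def Stmt_SHA : Prop :=
  ∀ (ι : Type) [Fintype ι] [DecidableEq ι] (S : Finset ι) (c : ℝ), S.Nonempty →
    HP (cutCube S c) (S.card + 1)

/-- SHB. `circuit` with `n = |S|`, index type `Option S`, functionals `∑_S e_k` (regular point: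
`1 - ε / |S|` on `S`, `0` elsewhere) and `-e_k` (regular point: `-1` at `k`, `0` elsewhere),
coefficients `1`; vectors: `1` on `S` for `none`; `-|S|` at `k` and `1` on the rest of `S` for
`some k`. -/
def Stmt_SHB : Prop :=
  ∀ (ι : Type) [Fintype ι] [DecidableEq ι] (S : Finset ι) (ε : ℝ), 2 ≤ S.card → 0 < ε → ε ≤ 1 →
    ¬ HP (cutCube S (S.card - ε)) S.card

/-- SHC. The vertices `vert t`, `¬ S ⊆ t`, are in the body; `v` lights `vert t` only if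
`v k * vert t k < 0` for all `k` (interior points have `|z k| < 1`), i.e. `t = {k | v k < 0}`; so
`L` has at least as many elements as there are such `t`, `2 ^ d - 2 ^ (d - |S|)`. -/
def Stmt_SHC : Prop :=
  ∀ (ι : Type) [Fintype ι] [DecidableEq ι] (S : Finset ι) (ε : ℝ), 0 < ε → ε ≤ 1 →
    ∀ L : Finset (ι → ℝ),
    (∀ z ∈ cutCube S (S.card - ε), ∃ v ∈ L, Lit (cutCube S (S.card - ε)) z v) →
    2 ^ Fintype.card ι - 2 ^ (Fintype.card ι - S.card) ≤ L.card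

end Pool.Agent.Work.MP_80156a_loc
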