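import Pool.Agent.Work.MP_80156a_loc.Interface
import Pool.Agent.Work.MP_80156a_loc.Ult

/-!
# Block PERT: perturbed directions
-/

set_option autoImplicit false

namespace Pool.Agent.Work.MP_80156a_loc

open Pool.Agent.Work.MP_80156a_co
open scoped Topology
open Filter

namespace PERTAux

variable {ι : Type} [Fintype ι] [DecidableEq ι]

theorem sum_split (j : ι) (f : ι → ℝ) :
    ∑ k, f k = f j + ∑ k ∈ Finset.univ.erase j, f k :=
  (Finset.add_sum_erase Finset.univ f (Finset.mem_univ j)).symm

theorem exists_tau (x0 : ι → ℝ) (t : Finset ι) (j : ι) (hx : ∀ k, |x0 k| ≤ 1)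
    (ht : ∀ k, k ≠ j → (x0 k = 1 → k ∈ t) ∧ (x0 k = -1 → k ∉ t)) :
    ∃ τ : ℝ, 0 < τ ∧ τ ≤ 1 ∧ ∀ k, k ≠ j → |x0 k - τ * vert t k| < 1 := by
  have h1 : ∀ k, ∀ᶠ τ in 𝓝[>] (0 : ℝ), k ≠ j → |x0 k - τ * vert t k| < 1 := by
    intro k
    by_cases hk : k = j
    · exact Filter.Eventually.of_forall fun τ h => absurd hk h
    · have hpos : ∀ᶠ τ in 𝓝[>] (0 : ℝ), 0 < τ ∧ τ < 2 := by
        have : Set.Ioo (0 : ℝ) 2 ∈ 𝓝[>] (0 : ℝ) := Ioo_mem_nhdsGT (by norm_num)
        exact this
      rcases lt_or_eq_of_le (hx k) with hlt | heq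
      · have hc : Tendsto (fun τ : ℝ => |x0 k - τ * vert t k|) (𝓝 0) (𝓝 |x0 k - 0 * vert t k|) :=
          (continuous_const.sub (continuous_id.mul continuous_const)).abs.continuousAt
        have h2 : ∀ᶠ τ in 𝓝 (0 : ℝ), |x0 k - τ * vert t k| < 1 :=
          hc.eventually_lt_const (by simpa using hlt)
        exact (h2.filter_mono nhdsWithin_le_nhds).mono fun τ h _ => h
      · filter_upwards [hpos] with τ hτ _
        rcases (abs_eq (by norm_num : (0 : ℝ) ≤ 1)).1 heq with h3 | h3
        · have hm : k ∈ t := (ht k hk).1 h3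
          have hv : vert t k = 1 := by simp [vert, hm]
          rw [h3, hv, abs_lt]
          constructor <;> linarith [hτ.1, hτ.2]
        · have hm : k ∉ t := (ht k hk).2 h3
          have hv : vert t k = -1 := by simp [vert, hm]
          rw [h3, hv, abs_lt]
          constructor <;> linarith [hτ.1, hτ.2]
  have h2 : ∀ᶠ τ in 𝓝[>] (0 : ℝ), 0 < τ ∧ τ ≤ 1 := by
    have : Set.Ioc (0 : ℝ) 1 ∈ 𝓝[>] (0 : ℝ) := Ioc_mem_nhdsGT (by norm_num)
    exact this
  obtain ⟨τ, h3, h4⟩ := (h2.and (Filter.eventually_all.2 h1)).exists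
  exact ⟨τ, h3.1, h3.2, h4⟩

end PERTAux

open PERTAux in
theorem blk_PERT (hN : Stmt_NRM) (hP : Stmt_PHI2) (hSm : Stmt_SMALL) : Stmt_PERT := by
  intro ι _ _ U h K δ hS hrel x x0 hxK hx t j c hc ht hj
  rcases eventually_or_not U (fun n => Lit (K n) (x n) (fun k =>
      if k = j then δ n / 2 * c else -vert t k)) with hl | hl
  · exact hl
  exfalso
  have hx1 : ∀ k, |x0 k| ≤ 1 := by
    intro k
    have h1 : Tendsto (fun n => |x n k|) U (𝓝 |x0 k|) := ((tendsto_pi_nhds.1 hx) k).abs
    exact le_of_tendsto h1 (Filter.Eventually.of_forall fun n => hS.outside n _ (hxK n) k)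
  have hD : Tendsto (fun n => (fun k => if k = j then δ n / 2 * c else -vert t k : ι → ℝ)) U
      (𝓝 (fun k => if k = j then 0 else -vert t k)) := by
    rw [tendsto_pi_nhds]
    intro k
    by_cases hk : k = j
    · simp only [hk, if_true]
      have := (hS.lim.div_const 2).mul_const c
      simpa using this
    · simp only [hk, if_false]
      exact tendsto_const_nhds
  obtain ⟨b, b0, hb, hb1, hbx, hbD, hnor⟩ := hN ι U h K δ hS x _ x0 _ hxK hx hD hl
  -- `b0` is concentrated at `j`
  have hbv : ∀ k, k ≠ j → b0 k * vert t k = |b0 k| := by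
    intro k hk
    by_cases h0 : b0 k = 0
    · simp [h0]
    · have h1 := hbx k
      rcases abs_choice (b0 k) with h2 | h2
      · rw [h2] at h1
        have h3 : x0 k = 1 := mul_left_cancel₀ h0 (by rw [h1, mul_one])
        have hm : k ∈ t := (ht k hk).1 h3
        have hv : vert t k = 1 := by simp [vert, hm]
        rw [hv, mul_one, h2]
      · rw [h2] at h1
        have h3 : x0 k = -1 := mul_left_cancel₀ h0 (by rw [h1]; ring)
        have hm : k ∉ t := (ht k hk).2 h3
        have hv : vert t k = -1 := by simp [vert, hm]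
        rw [hv, h2]; ring
  have hsum0 : ∑ k ∈ Finset.univ.erase j, |b0 k| ≤ 0 := by
    rw [sum_split j] at hbD
    simp only [if_true, mul_zero, zero_add] at hbD
    have h1 : ∑ k ∈ Finset.univ.erase j, b0 k * (if k = j then 0 else -vert t k) =
        -∑ k ∈ Finset.univ.erase j, |b0 k| := by
      rw [← Finset.sum_neg_distrib]
      refine Finset.sum_congr rfl fun k hk => ?_
      have hkj : k ≠ j := Finset.ne_of_mem_erase hk
      rw [if_neg hkj, mul_neg, hbv k hkj]
    rw [h1] at hbD
    linarith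
  have hbj : |b0 j| = 1 := by
    rw [sum_split j] at hb1
    have h2 : 0 ≤ ∑ k ∈ Finset.univ.erase j, |b0 k| :=
      Finset.sum_nonneg fun k _ => abs_nonneg _
    linarith
  have hσ : b0 j = 1 ∨ b0 j = -1 := (abs_eq (by norm_num)).1 hbj
  have hσ2 : b0 j * b0 j = 1 := by rcases hσ with h1 | h1 <;> rw [h1] <;> norm_num
  have hσx : b0 j * x0 j = 1 := by rw [hbx j, hbj]
  -- the scale `τ`
  obtain ⟨τ, hτ0, hτ1, hτ⟩ := exists_tau x0 t j hx1 ht
  have hy : Tendsto (fun n => x n - τ • vert t) U (𝓝 (x0 - τ • vert t)) := hx.sub_const _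
  have hop : Op j (x0 - τ • vert t) := by
    intro k hk
    simpa [Pi.sub_apply, Pi.smul_apply, smul_eq_mul] using hτ k hk
  have hcl : Cl j (x0 - τ • vert t) := fun k hk => (hop k hk).le
  have hphi := ((hSm ι U h K δ hS hrel j (b0 j) hσ).1 _ hcl)
  have hin := (hP ι U h K δ hS j).2.1 (b0 j) hσ _ _ (τ / 8) hy hop (by rw [hphi]; linarith)
  have hβ : Tendsto (fun n => b0 j * b n j) U (𝓝 1) := by
    have := ((tendsto_pi_nhds.1 hb) j).const_mul (b0 j)
    rwa [hσ2] at this
  have hβ0 : ∀ᶠ n in (U : Filter ℕ), 0 < b0 j * b n j :=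
    hβ.eventually_const_lt (by norm_num)
  have hcc : c * c = 1 := by rcases hc with h1 | h1 <;> rw [h1] <;> norm_num
  -- consequences at one index
  have key : ∀ᶠ n in (U : Filter ℕ), (b0 j = -c ∨ 3 / 4 * δ n ≤ 1 - c * x n j) := by
    by_cases hcase : b0 j = -c
    · exact Filter.Eventually.of_forall fun n => Or.inl hcase
    · have h1 : b0 j = c := by
        rcases hσ with h2 | h2 <;> rcases hc with h3 | h3
        · rw [h2, h3]
        · exact absurd (by rw [h2, h3]; norm_num) hcase
        · exact absurd (by rw [h2, h3]) hcase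
        · rw [h2, h3]
      have h2 : x0 j = c := by
        have h3 : c * (c * x0 j) = c * 1 := by rw [← h1, hσx]
        rw [← mul_assoc, hcc, one_mul, mul_one] at h3
        exact h3
      exact (hj h2).mono fun n hn => Or.inr hn
  obtain ⟨n, ⟨hn1, hn2⟩, hn3, hn4, hn5⟩ := (hnor.and (hin.and (hβ0.and key))).exists
  have hδ := hS.pos n
  have hxj := abs_le.1 (hS.outside n _ (hxK n) j)
  set S : ℝ := ∑ k ∈ Finset.univ.erase j, b n k * vert t k with hSdef
  have e1 := hn1 _ hn3
  rw [sum_split j, sum_split j (fun k => b n k * x n k)] at e1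
  have e2 : ∑ k ∈ Finset.univ.erase j, b n k *
      (Function.update (x n - τ • vert t) j (b0 j * (1 - δ n * (τ / 8)))) k =
      ∑ k ∈ Finset.univ.erase j, b n k * x n k - τ * S := by
    rw [hSdef, Finset.mul_sum, ← Finset.sum_sub_distrib]
    refine Finset.sum_congr rfl fun k hk => ?_
    rw [Function.update_of_ne (Finset.ne_of_mem_erase hk)]
    simp only [Pi.sub_apply, Pi.smul_apply, smul_eq_mul]
    ring
  rw [e2, Function.update_self] at e1
  rw [sum_split j] at hn2
  have e3 : ∑ k ∈ Finset.univ.erase j, b n k * (if k = j then δ n / 2 * c else -vert t k) =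
      -S := by
    rw [hSdef, ← Finset.sum_neg_distrib]
    refine Finset.sum_congr rfl fun k hk => ?_
    rw [if_neg (Finset.ne_of_mem_erase hk)]
    ring
  rw [e3, if_pos rfl] at hn2
  -- `β = b0 j * b n j`
  set β : ℝ := b0 j * b n j with hβd
  have hbn : b n j = b0 j * β := by rw [hβd, ← mul_assoc, hσ2, one_mul]
  have f1 : β * (1 - δ n * (τ / 8)) - τ * S ≤ b n j * x n j := by
    have : b n j * (b0 j * (1 - δ n * (τ / 8))) = β * (1 - δ n * (τ / 8)) := by
      rw [hβd]; ring
    linarith
  rcases hn5 with hcase | hcase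
  · have g1 : b n j * x n j ≤ β := by
      rw [hbn]
      rcases hσ with h1 | h1
      · rw [h1, one_mul]
        nlinarith [hxj.2, hn4]
      · rw [h1]
        nlinarith [hxj.1, hn4]
    have g2 : S ≤ -(δ n / 2 * β) := by
      have : b n j * (δ n / 2 * c) = -(δ n / 2 * β) := by
        rw [hbn, hcase]
        linear_combination (-(δ n / 2 * β)) * hcc
      linarith
    have g3 : 0 < δ n * β * τ := mul_pos (mul_pos hδ hn4) hτ0
    nlinarith [mul_le_mul_of_nonneg_left g2 hτ0.le]
  · by_cases hcm : b0 j = -c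
    · have g1 : b n j * x n j ≤ β := by
        rw [hbn]
        rcases hσ with h1 | h1
        · rw [h1, one_mul]
          nlinarith [hxj.2, hn4]
        · rw [h1]
          nlinarith [hxj.1, hn4]
      have g2 : S ≤ -(δ n / 2 * β) := by
        have : b n j * (δ n / 2 * c) = -(δ n / 2 * β) := by
          rw [hbn, hcm]
          linear_combination (-(δ n / 2 * β)) * hcc
        linarith
      have g3 : 0 < δ n * β * τ := mul_pos (mul_pos hδ hn4) hτ0
      nlinarith [mul_le_mul_of_nonneg_left g2 hτ0.le]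
    · have h1 : b0 j = c := by
        rcases hσ with h2 | h2 <;> rcases hc with h3 | h3
        · rw [h2, h3]
        · exact absurd (by rw [h2, h3]; norm_num) hcm
        · exact absurd (by rw [h2, h3]) hcm
        · rw [h2, h3]
      have g1 : b n j * x n j ≤ β * (1 - 3 / 4 * δ n) := by
        have : b n j * x n j = β * (c * x n j) := by rw [hbn, h1]; ring
        rw [this]
        exact mul_le_mul_of_nonneg_left (by linarith) hn4.le
      have g2 : S ≤ δ n / 2 * β := by
        have : b n j * (δ n / 2 * c) = δ n / 2 * β := by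
          rw [hbn, h1]
          linear_combination (δ n / 2 * β) * hcc
        linarith
      have g3 : 0 < δ n * β := mul_pos hδ hn4
      have g4 := mul_le_mul_of_nonneg_left g2 hτ0.le
      nlinarith [mul_le_mul_of_nonneg_left hτ1 g3.le]

end Pool.Agent.Work.MP_80156a_loc
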