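import Pool.Agent.Work.MP_80156a_loc.Interface
import Pool.Agent.Work.MP_80156a_loc.Ult

/-!
# MP_80156a_co, local theorem: block PHI2
-/

set_option autoImplicit false

namespace Pool.Agent.Work.MP_80156a_loc

open Pool.Agent.Work.MP_80156a_co
open scoped Topology
open Filter

namespace PHI2Aux

theorem cl_of_op {ι : Type*} {i : ι} {x : ι → ℝ} (h : Op i x) : Cl i x :=
  fun k hk => (h k hk).le

theorem fn_congr {ι : Type*} [Fintype ι] {i : ι} {u x y : ι → ℝ} (hu : u i = 0)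
    (h : ∀ k, k ≠ i → x k = y k) : fn u x = fn u y := by
  rw [fn_apply, fn_apply]
  refine Finset.sum_congr rfl fun k _ => ?_
  by_cases hk : k = i
  · rw [hk, hu, zero_mul, zero_mul]
  · rw [h k hk]

end PHI2Aux

open PHI2Aux

theorem blk_PHI2 (hLIM1 : Stmt_LIM1) (hLIM2 : Stmt_LIM2) (hPHI1 : Stmt_PHI1) : Stmt_PHI2 := by
  intro ι _ _ U h K δ hS i
  refine ⟨?_, ?_, ?_⟩
  · intro σ hσ x x0 r hx hx0 hr
    rcases eventually_or_not U (fun n => σ * x n i < 1 - δ n * r) with h1 | h1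
    · exact h1
    · exfalso
      have h2 : ∀ᶠ n in (U : Filter ℕ), 1 - δ n * r ≤ σ * x n i := by
        filter_upwards [h1] with n hn using not_lt.1 hn
      have h3 := (hPHI1 ι U h K δ hS i σ hσ).2.2.1 x0 r fun γ u hL =>
        (hLIM1 ι U h K δ hS i σ γ u hσ hL).2.1 x x0 r hx hx0 h2
      exact absurd hr (not_lt.2 h3)
  · intro σ hσ y y0 r hy hop hr
    rcases eventually_or_not U
      (fun n => Function.update (y n) i (σ * (1 - δ n * r)) ∈ K n) with h1 | h1
    · exact h1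
    · exfalso
      obtain ⟨γ, u, hL, h2⟩ := hLIM2 ι U h K δ hS i σ hσ y y0 r hy hop h1
      have h3 := (hPHI1 ι U h K δ hS i σ hσ).2.1 γ u y0 hL (cl_of_op hop)
      exact absurd hr (not_lt.2 (h2.trans h3))
  · obtain ⟨p, q, hp, hq, hp1, hq1, hpq⟩ := hS.chord i
    obtain ⟨y, hy, hy1⟩ := exists_lim U (x := q) (M := 1)
      (Filter.Eventually.of_forall fun n => hS.outside n (q n) (hq n))
    obtain ⟨z, hz, hz1⟩ := exists_lim U (x := p) (M := 1)
      (Filter.Eventually.of_forall fun n => hS.outside n (p n) (hp n))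
    have hyz : ∀ k, k ≠ i → z k = y k := by
      intro k hk
      have h1 := ((tendsto_pi_nhds.1 hy k).sub (tendsto_pi_nhds.1 hz k))
      have h2 := tendsto_nhds_unique h1 (hpq k hk)
      linarith
    have hcl : Cl i y := fun k _ => hy1 k
    refine ⟨y, hcl, ?_, ?_⟩
    · refine le_antisymm ?_ ((hPHI1 ι U h K δ hS i 1 (Or.inl rfl)).2.2.2.1 y hcl)
      refine (hPHI1 ι U h K δ hS i 1 (Or.inl rfl)).2.2.1 y 0 fun γ u hL => ?_
      refine (hLIM1 ι U h K δ hS i 1 γ u (Or.inl rfl) hL).2.1 q y 0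
        (Filter.Eventually.of_forall hq) hy (Filter.Eventually.of_forall fun n => ?_)
      rw [hq1 n]
      simp
    · refine le_antisymm ?_ ((hPHI1 ι U h K δ hS i (-1) (Or.inr rfl)).2.2.2.1 y hcl)
      refine (hPHI1 ι U h K δ hS i (-1) (Or.inr rfl)).2.2.1 y 0 fun γ u hL => ?_
      have h1 := (hLIM1 ι U h K δ hS i (-1) γ u (Or.inr rfl) hL)
      have h2 := h1.2.1 p z 0 (Filter.Eventually.of_forall hp) hz
        (Filter.Eventually.of_forall fun n => by rw [hp1 n]; simp)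
      rwa [fn_congr h1.1 hyz] at h2

end Pool.Agent.Work.MP_80156a_loc
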